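import Pool.Agent.Q77.LU.StmH

/-! # Project LU (helper77), job DEC: decomposition of the fields (helper150) -/

set_option autoImplicit false
set_option linter.unusedSectionVars false

open Matrix

namespace Pool.Agent.Q150.LU

open Pool.Agent.Q77.LU

section dec

variable {N n D l : ℕ} [NeZero l] {G : Subgroup (UU N)}

theorem mt_one1 : (mt (1 : G) : Mt N) = 1 := rfl

theorem cov_one (B : LieBasis G n) (i : Fin D) (p q : (Fin D → ZMod l) × Fin n) :
    cov B (fun _ : Link D l => (1 : G)) i p q = if q = (p.1 + unitv i, p.2) then 1 else 0 := by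
  unfold cov
  rw [mt_one1, Matrix.conjTranspose_one, Matrix.one_mul, Matrix.mul_one, B.orth]
  by_cases h1 : q.1 = p.1 + unitv i
  · rw [if_pos h1]
    by_cases h2 : p.2 = q.2
    · have hq : q = (p.1 + unitv i, p.2) := Prod.ext h1 h2.symm
      rw [if_pos h2, if_pos hq]
    · rw [if_neg h2, if_neg fun h => h2 (by rw [h])]
  · rw [if_neg h1, if_neg fun h => h1 (by rw [h])]

theorem cov_mulVec (B : LieBasis G n) (i : Fin D) (φ : (Fin D → ZMod l) × Fin n → ℝ)
    (p : (Fin D → ZMod l) × Fin n) :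
    (cov B (fun _ : Link D l => (1 : G)) i).mulVec φ p = φ (p.1 + unitv i, p.2) := by
  simp only [Matrix.mulVec, dotProduct, cov_one, ite_mul, one_mul, zero_mul]
  rw [Finset.sum_ite_eq' Finset.univ (p.1 + unitv i, p.2) φ]
  simp

theorem covT_mulVec (B : LieBasis G n) (i : Fin D) (φ : (Fin D → ZMod l) × Fin n → ℝ)
    (p : (Fin D → ZMod l) × Fin n) :
    (cov B (fun _ : Link D l => (1 : G)) i)ᵀ.mulVec φ p = φ (p.1 - unitv i, p.2) := by
  simp only [Matrix.mulVec, dotProduct, Matrix.transpose_apply, cov_one, ite_mul, one_mul,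
    zero_mul]
  have h1 : ∀ q : (Fin D → ZMod l) × Fin n, (p = (q.1 + unitv i, q.2)) ↔
      (q = (p.1 - unitv i, p.2)) := by
    intro q
    constructor
    · intro h; rw [h]; ext1 <;> simp
    · intro h; rw [h]; ext1 <;> simp
  simp_rw [h1]
  rw [Finset.sum_ite_eq' Finset.univ (p.1 - unitv i, p.2) φ]
  simp

theorem dcov_mulVec (B : LieBasis G n) (i : Fin D) (φ : (Fin D → ZMod l) × Fin n → ℝ)
    (p : (Fin D → ZMod l) × Fin n) :
    (cov B (fun _ : Link D l => (1 : G)) i - 1).mulVec φ p = φ (p.1 + unitv i, p.2) - φ p := by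
  rw [Matrix.sub_mulVec, Pi.sub_apply, cov_mulVec, Matrix.one_mulVec]

theorem dcovT_mulVec (B : LieBasis G n) (i : Fin D) (φ : (Fin D → ZMod l) × Fin n → ℝ)
    (p : (Fin D → ZMod l) × Fin n) :
    (cov B (fun _ : Link D l => (1 : G)) i - 1)ᵀ.mulVec φ p = φ (p.1 - unitv i, p.2) - φ p := by
  rw [Matrix.transpose_sub, Matrix.transpose_one, Matrix.sub_mulVec, Pi.sub_apply, covT_mulVec,
    Matrix.one_mulVec]

theorem lap_mulVec (B : LieBasis G n) (φ : (Fin D → ZMod l) × Fin n → ℝ)
    (p : (Fin D → ZMod l) × Fin n) :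
    (lapU B (fun _ : Link D l => (1 : G))).mulVec φ p =
      ∑ i : Fin D, (2 * φ p - φ (p.1 - unitv i, p.2) - φ (p.1 + unitv i, p.2)) := by
  unfold lapU
  rw [Matrix.sum_mulVec, Finset.sum_apply]
  refine Finset.sum_congr rfl fun i _ => ?_
  rw [← Matrix.mulVec_mulVec, dcovT_mulVec, dcov_mulVec, dcov_mulVec]
  simp only [sub_add_cancel]
  ring

theorem ddT_mulVec (B : LieBasis G n) (i j : Fin D) (φ : (Fin D → ZMod l) × Fin n → ℝ)
    (p : (Fin D → ZMod l) × Fin n) :
    ((cov B (fun _ : Link D l => (1 : G)) i - 1) *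
      (cov B (fun _ : Link D l => (1 : G)) j - 1)ᵀ).mulVec φ p =
      (φ (p.1 + unitv i - unitv j, p.2) - φ (p.1 + unitv i, p.2)) -
        (φ (p.1 - unitv j, p.2) - φ p) := by
  rw [← Matrix.mulVec_mulVec, dcov_mulVec, dcovT_mulVec, dcovT_mulVec]

theorem sum_link (f : Link D l × Fin n → ℝ) :
    ∑ p, f p = ∑ j : Fin D, ∑ q : (Fin D → ZMod l) × Fin n, f ((q.1, j), q.2) := by
  rw [Fintype.sum_prod_type, Fintype.sum_prod_type, Finset.sum_comm]
  refine Finset.sum_congr rfl fun j _ => ?_
  rw [Fintype.sum_prod_type]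

theorem magnetic_one : magnetic (fun _ : Link D l => (1 : G)) = 0 := by
  unfold magnetic plaq
  refine Finset.sum_eq_zero fun x _ => Finset.sum_eq_zero fun i _ => Finset.sum_eq_zero fun j _ => ?_
  split_ifs
  · simp [mt_one1]
  · rfl

theorem hess_mulVec (h1 : S_HESSF) (hG : IsClosed (G : Set (UU N))) (B : LieBasis G n)
    (y : Link D l × Fin n → ℝ) (x : Fin D → ZMod l) (i : Fin D) (a : Fin n) :
    (hess B (fun _ : Link D l => (1 : G))).mulVec y ((x, i), a) =
      (lapU B (fun _ : Link D l => (1 : G))).mulVec (fun q => y ((q.1, i), q.2)) (x, a) -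
      ∑ j : Fin D, ((y ((x + unitv i - unitv j, j), a) - y ((x + unitv i, j), a)) -
        (y ((x - unitv j, j), a) - y ((x, j), a))) := by
  have hF := (h1 N n D l G hG B (fun _ => 1) magnetic_one).2.2
  have e1 : (hess B (fun _ : Link D l => (1 : G))).mulVec y ((x, i), a) =
      ∑ j : Fin D, ((if i = j then (lapU B (fun _ : Link D l => (1 : G))).mulVec
        (fun q => y ((q.1, j), q.2)) (x, a) else 0) -
        ((cov B (fun _ : Link D l => (1 : G)) i - 1) *
      (cov B (fun _ : Link D l => (1 : G)) j - 1)ᵀ).mulVec (fun q => y ((q.1, j), q.2)) (x, a)) := by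
    simp only [Matrix.mulVec, dotProduct]
    rw [sum_link]
    refine Finset.sum_congr rfl fun j _ => ?_
    simp only [hF]
    by_cases hij : i = j
    · simp only [if_pos hij, sub_mul, Finset.sum_sub_distrib]
    · simp only [if_neg hij, zero_sub, neg_mul, Finset.sum_neg_distrib]
  rw [e1, Finset.sum_sub_distrib, Finset.sum_ite_eq]
  simp only [Finset.mem_univ, if_true, ddT_mulVec]

/-- the gradient -/
def grd (ζ : (Fin D → ZMod l) × Fin n → ℝ) : Link D l × Fin n → ℝ :=
  fun p => ζ (p.1.1 + unitv p.1.2, p.2) - ζ (p.1.1, p.2)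

/-- constants and gradients -/
noncomputable def AA (D l n : ℕ) [NeZero l] :
    ((Fin D × Fin n → ℝ) × ((Fin D → ZMod l) × Fin n → ℝ)) →ₗ[ℝ] (Link D l × Fin n → ℝ) where
  toFun u := cons D l u.1 + grd u.2
  map_add' u v := by
    funext p
    simp only [cons, grd, Pi.add_apply, Prod.fst_add, Prod.snd_add]
    ring
  map_smul' t u := by
    funext p
    simp only [cons, grd, Pi.add_apply, Prod.smul_fst, Prod.smul_snd, Pi.smul_apply, smul_eq_mul,
      RingHom.id_apply]
    ring

theorem hess_AA (h1 : S_HESSF) (hG : IsClosed (G : Set (UU N))) (B : LieBasis G n)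
    (u : (Fin D × Fin n → ℝ) × ((Fin D → ZMod l) × Fin n → ℝ)) :
    (hess B (fun _ : Link D l => (1 : G))).mulVec (AA D l n u) = 0 := by
  funext p
  obtain ⟨⟨x, i⟩, a⟩ := p
  rw [hess_mulVec h1 hG, lap_mulVec, ← Finset.sum_sub_distrib]
  apply Finset.sum_eq_zero
  intro j _
  simp only [AA, LinearMap.coe_mk, AddHom.coe_mk, Pi.add_apply, cons, grd]
  have e1 : x + unitv i - unitv j + unitv j = x + unitv i := sub_add_cancel _ _
  have e2 : x - unitv j + unitv j = x := sub_add_cancel _ _
  have e3 : x - unitv j + unitv i = x + unitv i - unitv j := by abel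
  have e4 : x + unitv j + unitv i = x + unitv i + unitv j := by abel
  rw [e1, e2, e3, e4]
  ring

/-- a function with zero differences is constant -/
theorem const_of_diff {ζ : (Fin D → ZMod l) × Fin n → ℝ}
    (h : ∀ i p, ζ (p.1 + unitv i, p.2) = ζ p) (x : Fin D → ZMod l) (a : Fin n) :
    ζ (x, a) = ζ (0, a) := by
  have h2 : ∀ (i : Fin D) (k : ℕ) (y : Fin D → ZMod l),
      ζ (y + k • unitv i, a) = ζ (y, a) := by
    intro i k
    induction k with
    | zero => intro y; simp
    | succ k ih =>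
      intro y
      rw [succ_nsmul, ← add_assoc]
      rw [h i (y + k • unitv i, a), ih]
  have h3 : ∀ s : Finset (Fin D), ζ (∑ i ∈ s, (x i).val • unitv i, a) = ζ (0, a) := by
    intro s
    induction s using Finset.induction_on with
    | empty => simp
    | insert i s hi ih => rw [Finset.sum_insert hi, add_comm, h2, ih]
  have h4 : ∑ i, (x i).val • (unitv i : Fin D → ZMod l) = x := by
    funext j
    rw [Finset.sum_apply, Finset.sum_eq_single j]
    · simp [unitv]
    · intro i _ hij
      simp [unitv, Pi.single_eq_of_ne' hij]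
    · simp
  rw [← h3 Finset.univ, h4]

theorem card_V : Fintype.card (Fin D → ZMod l) = l ^ D := by
  rw [Fintype.card_fun, ZMod.card, Fintype.card_fin]

theorem hess_herm (B : LieBasis G n) (U : Link D l → G) : (hess B U).IsHermitian := by
  ext p q
  simp only [Matrix.conjTranspose_apply, star_trivial]
  unfold hess
  refine Finset.sum_congr rfl fun x _ => Finset.sum_congr rfl fun i _ =>
    Finset.sum_congr rfl fun j _ => ?_
  split_ifs
  · have e : (dpl B U x i j q)ᴴ * dpl B U x i j p = ((dpl B U x i j p)ᴴ * dpl B U x i j q)ᴴ := by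
      rw [Matrix.conjTranspose_mul, Matrix.conjTranspose_conjTranspose]
    rw [e, Matrix.trace_conjTranspose, Complex.star_def, Complex.conj_re]
  · rfl

theorem gram_nonneg {κ : Type} [Fintype κ] (A : κ → Mt N) (x : κ → ℝ) :
    0 ≤ ∑ p, x p * ∑ q, (trace ((A p)ᴴ * A q)).re * x q := by
  have h1 : ∑ p, x p * ∑ q, (trace ((A p)ᴴ * A q)).re * x q =
      (trace ((∑ p, x p • A p)ᴴ * ∑ q, x q • A q)).re := by
    rw [Matrix.conjTranspose_sum, Finset.sum_mul, Matrix.trace_sum, Complex.re_sum]
    refine Finset.sum_congr rfl fun p _ => ?_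
    rw [Finset.mul_sum, Finset.mul_sum, Matrix.trace_sum, Complex.re_sum]
    refine Finset.sum_congr rfl fun q _ => ?_
    rw [Matrix.conjTranspose_smul, star_trivial, Matrix.smul_mul, Matrix.mul_smul,
      Matrix.trace_smul, Matrix.trace_smul, Complex.smul_re, Complex.smul_re, smul_eq_mul,
      smul_eq_mul]
    ring
  rw [h1]
  have h2 : ∀ M : Mt N, 0 ≤ (trace (Mᴴ * M)).re := by
    intro M
    simp only [Matrix.trace, Matrix.diag_apply, Matrix.mul_apply, Matrix.conjTranspose_apply,
      Complex.re_sum]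
    refine Finset.sum_nonneg fun i _ => Finset.sum_nonneg fun j _ => ?_
    rw [Complex.star_def, ← Complex.normSq_eq_conj_mul_self]
    exact Complex.normSq_nonneg _
  exact h2 _

theorem hess_nonneg (B : LieBasis G n) (U : Link D l → G) (y : Link D l × Fin n → ℝ) :
    0 ≤ ∑ p, y p * (hess B U).mulVec y p := by
  have h1 : ∑ p, y p * (hess B U).mulVec y p =
      ∑ x : Fin D → ZMod l, ∑ i : Fin D, ∑ j : Fin D,
        ∑ p, y p * ∑ q, (if i < j then (trace ((dpl B U x i j p)ᴴ * dpl B U x i j q)).re else 0) *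
          y q := by
    simp only [Matrix.mulVec, dotProduct, hess, Finset.sum_mul, Finset.mul_sum]
    have c1 : ∀ f : (Link D l × Fin n) → (Link D l × Fin n) → (Fin D → ZMod l) → Fin D → Fin D → ℝ,
        ∑ p, ∑ q, ∑ x, ∑ i, ∑ j, f p q x i j = ∑ x, ∑ i, ∑ j, ∑ p, ∑ q, f p q x i j := by
      intro f
      rw [Finset.sum_congr rfl fun p _ => Finset.sum_comm, Finset.sum_comm]
      refine Finset.sum_congr rfl fun x _ => ?_
      rw [Finset.sum_congr rfl fun p _ => Finset.sum_comm, Finset.sum_comm]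
      refine Finset.sum_congr rfl fun i _ => ?_
      rw [Finset.sum_congr rfl fun p _ => Finset.sum_comm, Finset.sum_comm]
    exact c1 fun p q x i j => y p * ((if i < j then
      (trace ((dpl B U x i j p)ᴴ * dpl B U x i j q)).re else 0) * y q)
  rw [h1]
  refine Finset.sum_nonneg fun x _ => Finset.sum_nonneg fun i _ => Finset.sum_nonneg fun j _ => ?_
  by_cases hij : i < j
  · simp only [if_pos hij]
    exact gram_nonneg (fun p => dpl B U x i j p) y
  · simp [if_neg hij]

/-- translation -/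
def sh (j : Fin D) : ((Fin D → ZMod l) × Fin n) ≃ ((Fin D → ZMod l) × Fin n) :=
  (Equiv.addRight (unitv j)).prodCongr (Equiv.refl _)

theorem sh_apply (j : Fin D) (p : (Fin D → ZMod l) × Fin n) :
    sh j p = (p.1 + unitv j, p.2) := rfl

theorem AA_adj (u : (Fin D × Fin n → ℝ) × ((Fin D → ZMod l) × Fin n → ℝ))
    (y : Link D l × Fin n → ℝ) :
    ∑ p, AA D l n u p * y p =
      (Real.sqrt ((l : ℝ) ^ D))⁻¹ * (∑ j, ∑ a, u.1 (j, a) * ∑ x, y ((x, j), a)) +
      ∑ x, ∑ a, u.2 (x, a) * ∑ j : Fin D, (y ((x - unitv j, j), a) - y ((x, j), a)) := by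
  have e0 : ∑ p, AA D l n u p * y p = ∑ j, ∑ a, ∑ x,
      ((Real.sqrt ((l : ℝ) ^ D))⁻¹ * (u.1 (j, a) * y ((x, j), a)) +
      (u.2 (x + unitv j, a) * y ((x, j), a) - u.2 (x, a) * y ((x, j), a))) := by
    rw [sum_link]
    refine Finset.sum_congr rfl fun j _ => ?_
    rw [Fintype.sum_prod_type, Finset.sum_comm]
    refine Finset.sum_congr rfl fun a _ => Finset.sum_congr rfl fun x _ => ?_
    simp only [AA, LinearMap.coe_mk, AddHom.coe_mk, Pi.add_apply, cons, grd]
    ring
  have e1 : ∀ (j : Fin D) (a : Fin n), ∑ x, u.2 (x + unitv j, a) * y ((x, j), a) =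
      ∑ x, u.2 (x, a) * y ((x - unitv j, j), a) := by
    intro j a
    rw [← Equiv.sum_comp (Equiv.addRight (unitv j))
      (fun x => u.2 (x, a) * y ((x - unitv j, j), a))]
    refine Finset.sum_congr rfl fun x _ => ?_
    simp
  rw [e0]
  simp only [Finset.sum_add_distrib, Finset.sum_sub_distrib]
  simp only [e1, ← Finset.mul_sum]
  congr 1
  simp only [Finset.mul_sum, mul_sub, Finset.sum_sub_distrib]
  have c1 : ∀ f : Fin D → Fin n → (Fin D → ZMod l) → ℝ,
      ∑ j, ∑ a, ∑ x, f j a x = ∑ x, ∑ a, ∑ j, f j a x := by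
    intro f
    rw [Finset.sum_congr rfl fun j _ => Finset.sum_comm, Finset.sum_comm]
    refine Finset.sum_congr rfl fun x _ => ?_
    rw [Finset.sum_comm]
  rw [c1, c1]

theorem perp_mean {y : Link D l × Fin n → ℝ} (h : ∀ u, ∑ p, AA D l n u p * y p = 0)
    (j : Fin D) (a : Fin n) : ∑ x, y ((x, j), a) = 0 := by
  have h1 := h (fun p => ∑ x, y ((x, p.1), p.2), 0)
  rw [AA_adj] at h1
  simp only [Pi.zero_apply, zero_mul, Finset.sum_const_zero, add_zero] at h1
  have hl : (0:ℝ) < l := by exact_mod_cast Nat.pos_of_ne_zero (NeZero.ne l)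
  have hs : 0 < (Real.sqrt ((l : ℝ) ^ D))⁻¹ := by positivity
  have h2 := (mul_eq_zero.1 h1).resolve_left hs.ne'
  have h3 := (Finset.sum_eq_zero_iff_of_nonneg (fun j _ =>
    Finset.sum_nonneg fun a _ => mul_self_nonneg _)).1 h2 j (Finset.mem_univ j)
  have h4 := (Finset.sum_eq_zero_iff_of_nonneg (fun a _ => mul_self_nonneg _)).1 h3 a
    (Finset.mem_univ a)
  exact mul_self_eq_zero.1 h4

theorem perp_div {y : Link D l × Fin n → ℝ} (h : ∀ u, ∑ p, AA D l n u p * y p = 0)
    (x : Fin D → ZMod l) (a : Fin n) :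
    ∑ j : Fin D, (y ((x - unitv j, j), a) - y ((x, j), a)) = 0 := by
  have h1 := h (0, fun p => ∑ j : Fin D, (y ((p.1 - unitv j, j), p.2) - y ((p.1, j), p.2)))
  rw [AA_adj] at h1
  simp only [Pi.zero_apply, zero_mul, Finset.sum_const_zero, mul_zero, zero_add] at h1
  have h3 := (Finset.sum_eq_zero_iff_of_nonneg (fun x _ =>
    Finset.sum_nonneg fun a _ => mul_self_nonneg _)).1 h1 x (Finset.mem_univ x)
  have h4 := (Finset.sum_eq_zero_iff_of_nonneg (fun a _ => mul_self_nonneg _)).1 h3 a
    (Finset.mem_univ a)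
  exact mul_self_eq_zero.1 h4

theorem lap_energy (φ : (Fin D → ZMod l) × Fin n → ℝ) :
    ∑ p, φ p * ∑ j : Fin D, (2 * φ p - φ (p.1 - unitv j, p.2) - φ (p.1 + unitv j, p.2)) =
      ∑ j : Fin D, ∑ p, (φ (p.1 + unitv j, p.2) - φ p) ^ 2 := by
  simp only [Finset.mul_sum]
  rw [Finset.sum_comm]
  refine Finset.sum_congr rfl fun j _ => ?_
  have e1 : ∑ p, φ p * φ (p.1 - unitv j, p.2) = ∑ p, φ (p.1 + unitv j, p.2) * φ p := by
    rw [← Equiv.sum_comp (sh j) (fun p => φ p * φ (p.1 - unitv j, p.2))]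
    refine Finset.sum_congr rfl fun p _ => ?_
    rw [sh_apply, add_sub_cancel_right]
  have e2 : ∑ p, φ p ^ 2 = ∑ p : (Fin D → ZMod l) × Fin n, φ (p.1 + unitv j, p.2) ^ 2 := by
    rw [← Equiv.sum_comp (sh j) (fun p => φ p ^ 2)]
    rfl
  calc ∑ p, φ p * (2 * φ p - φ (p.1 - unitv j, p.2) - φ (p.1 + unitv j, p.2))
      = ∑ p, (φ p ^ 2 + φ p ^ 2 - φ p * φ (p.1 - unitv j, p.2) -
          φ (p.1 + unitv j, p.2) * φ p) := Finset.sum_congr rfl fun p _ => by ring
    _ = ∑ p, (φ (p.1 + unitv j, p.2) ^ 2 + φ p ^ 2 - φ (p.1 + unitv j, p.2) * φ p -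
          φ (p.1 + unitv j, p.2) * φ p) := by
        simp only [Finset.sum_sub_distrib, Finset.sum_add_distrib]
        rw [e1, ← e2]
    _ = ∑ p, (φ (p.1 + unitv j, p.2) - φ p) ^ 2 := Finset.sum_congr rfl fun p _ => by ring

theorem perp_zero (h1 : S_HESSF) (hG : IsClosed (G : Set (UU N))) (B : LieBasis G n)
    {y : Link D l × Fin n → ℝ} (h : ∀ u, ∑ p, AA D l n u p * y p = 0)
    (hy : (hess B (fun _ : Link D l => (1 : G))).mulVec y = 0) : y = 0 := by
  have hl : (0:ℝ) < l := by exact_mod_cast Nat.pos_of_ne_zero (NeZero.ne l)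
  have hlap : ∀ (i : Fin D) (p : (Fin D → ZMod l) × Fin n),
      ∑ j : Fin D, (2 * y ((p.1, i), p.2) - y ((p.1 - unitv j, i), p.2) -
        y ((p.1 + unitv j, i), p.2)) = 0 := by
    intro i p
    have k1 := congrFun hy ((p.1, i), p.2)
    have hd : ∑ j : Fin D, ((y ((p.1 + unitv i - unitv j, j), p.2) -
        y ((p.1 + unitv i, j), p.2)) - (y ((p.1 - unitv j, j), p.2) - y ((p.1, j), p.2))) = 0 := by
      rw [Finset.sum_sub_distrib, perp_div h, perp_div h, sub_zero]
    rw [hess_mulVec h1 hG, lap_mulVec, hd, sub_zero] at k1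
    exact k1
  have hz : ∀ (i : Fin D) (x : Fin D → ZMod l) (a : Fin n), y ((x, i), a) = 0 := by
    intro i x a
    have k2 := lap_energy (fun q : (Fin D → ZMod l) × Fin n => y ((q.1, i), q.2))
    simp only [hlap i, mul_zero, Finset.sum_const_zero] at k2
    have k3 : ∀ (j : Fin D) (p : (Fin D → ZMod l) × Fin n),
        y ((p.1 + unitv j, i), p.2) = y ((p.1, i), p.2) := by
      intro j p
      have k4 := (Finset.sum_eq_zero_iff_of_nonneg (fun j _ =>
        Finset.sum_nonneg fun p _ => sq_nonneg _)).1 k2.symm j (Finset.mem_univ j)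
      have k5 := (Finset.sum_eq_zero_iff_of_nonneg (fun p _ => sq_nonneg _)).1 k4 p
        (Finset.mem_univ p)
      exact sub_eq_zero.1 (pow_eq_zero_iff (two_ne_zero) |>.1 k5)
    have k6 : ∀ x, y ((x, i), a) = y ((0, i), a) := fun x =>
      const_of_diff (ζ := fun q => y ((q.1, i), q.2)) k3 x a
    have k7 := perp_mean h i a
    simp only [k6] at k7
    rw [Finset.sum_const, Finset.card_univ, card_V, nsmul_eq_mul] at k7
    have k8 : ((l ^ D : ℕ) : ℝ) ≠ 0 := by
      push_cast
      positivity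
    rw [k6 x]
    exact (mul_eq_zero.1 k7).resolve_left k8
  funext p
  obtain ⟨⟨x, i⟩, a⟩ := p
  exact hz i x a

theorem ker_hess (h1 : S_HESSF) (hG : IsClosed (G : Set (UU N))) (B : LieBasis G n)
    {z : Link D l × Fin n → ℝ} (hz : (hess B (fun _ : Link D l => (1 : G))).mulVec z = 0) :
    ∃ u, AA D l n u = z := by
  obtain ⟨Ee, hEe⟩ : ∃ Ee : EuclideanSpace ℝ (Link D l × Fin n) ≃ₗ[ℝ]
    (Link D l × Fin n → ℝ), Ee = WithLp.linearEquiv 2 ℝ (Link D l × Fin n → ℝ) := ⟨_, rfl⟩
  obtain ⟨K, hK⟩ : ∃ K : Submodule ℝ (EuclideanSpace ℝ (Link D l × Fin n)),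
    K = (LinearMap.range (AA D l n)).map Ee.symm.toLinearMap := ⟨_, rfl⟩
  obtain ⟨y, hy, w, hw, hyw⟩ := K.exists_add_mem_mem_orthogonal (Ee.symm z)
  rw [hK] at hy
  obtain ⟨_, ⟨u, rfl⟩, hu⟩ := hy
  have hz2 : z = AA D l n u + Ee w := by
    have := congrArg Ee hyw
    rw [LinearEquiv.apply_symm_apply, map_add, ← hu] at this
    rw [this]
    congr 1
    exact LinearEquiv.apply_symm_apply _ _
  have hw2 : ∀ u', ∑ p, AA D l n u' p * Ee w p = 0 := by
    intro u'
    have k1 := (Submodule.mem_orthogonal K w).1 hw (Ee.symm (AA D l n u')) (by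
      rw [hK]; exact ⟨_, ⟨u', rfl⟩, rfl⟩)
    rw [EuclideanSpace.inner_eq_star_dotProduct] at k1
    simp only [dotProduct, Pi.star_apply, star_trivial] at k1
    rw [← k1]
    refine Finset.sum_congr rfl fun p _ => ?_
    rw [hEe, mul_comm]
    rfl
  have hw3 : (hess B (fun _ : Link D l => (1 : G))).mulVec (Ee w) = 0 := by
    have k2 : Ee w = z - AA D l n u := by rw [hz2]; simp
    rw [k2, Matrix.mulVec_sub, hz, hess_AA h1 hG, sub_zero]
  have hw4 := perp_zero h1 hG B hw2 hw3
  exact ⟨u, by rw [hz2, hw4, add_zero]⟩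

/-- constants -/
def kap (D l n : ℕ) : (Fin n → ℝ) →ₗ[ℝ]
    ((Fin D × Fin n → ℝ) × ((Fin D → ZMod l) × Fin n → ℝ)) where
  toFun c := (0, fun q => c q.2)
  map_add' c c' := by
    ext1
    · simp
    · rfl
  map_smul' t c := by
    ext1
    · simp
    · rfl

theorem ker_AA : LinearMap.ker (AA D l n) = LinearMap.range (kap D l n) := by
  have hl : (0:ℝ) < l := by exact_mod_cast Nat.pos_of_ne_zero (NeZero.ne l)
  apply le_antisymm
  · rintro ⟨C, ζ⟩ hu
    rw [LinearMap.mem_ker] at hu
    have hp : ∀ x j a, (Real.sqrt ((l : ℝ) ^ D))⁻¹ * C (j, a) +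
        (ζ (x + unitv j, a) - ζ (x, a)) = 0 := fun x j a => by
      have := congrFun hu ((x, j), a)
      simp only [AA, LinearMap.coe_mk, AddHom.coe_mk, Pi.add_apply, cons, grd] at this
      exact this
    have hC : C = 0 := by
      funext q
      obtain ⟨j, a⟩ := q
      have k1 : ∑ x : Fin D → ZMod l, ((Real.sqrt ((l : ℝ) ^ D))⁻¹ * C (j, a) +
        (ζ (x + unitv j, a) - ζ (x, a))) = 0 := Finset.sum_eq_zero fun x _ => hp x j a
      have k2 : ∑ x : Fin D → ZMod l, ζ (x + unitv j, a) = ∑ x : Fin D → ZMod l, ζ (x, a) :=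
        Equiv.sum_comp (Equiv.addRight (unitv j)) (fun x => ζ (x, a))
      rw [Finset.sum_add_distrib, Finset.sum_sub_distrib, k2, sub_self, add_zero,
        Finset.sum_const, Finset.card_univ, card_V, nsmul_eq_mul] at k1
      have k3 : ((l ^ D : ℕ) : ℝ) ≠ 0 := by
        push_cast
        positivity
      have k4 := (mul_eq_zero.1 k1).resolve_left k3
      have hs : (Real.sqrt ((l : ℝ) ^ D))⁻¹ ≠ 0 := by positivity
      exact (mul_eq_zero.1 k4).resolve_left hs
    subst hC
    have k5 : ∀ i (p : (Fin D → ZMod l) × Fin n), ζ (p.1 + unitv i, p.2) = ζ p := fun i p => by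
      have := hp p.1 i p.2
      simp only [Pi.zero_apply, mul_zero, zero_add] at this
      exact sub_eq_zero.1 this
    refine ⟨fun a => ζ (0, a), ?_⟩
    ext1
    · rfl
    · funext q
      exact (const_of_diff k5 q.1 q.2).symm
  · rintro _ ⟨c, rfl⟩
    rw [LinearMap.mem_ker]
    funext p
    simp [AA, kap, cons, grd]

theorem kap_inj : Function.Injective (kap D l n) := by
  intro c c' h
  funext a
  have := congrArg (fun u => u.2 ((0 : Fin D → ZMod l), a)) h
  exact this

theorem finrank_range_AA :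
    Module.finrank ℝ (LinearMap.range (AA D l n)) + n = D * n + l ^ D * n := by
  have h1 := LinearMap.finrank_range_add_finrank_ker (AA D l n)
  rw [ker_AA, LinearMap.finrank_range_of_inj kap_inj, Module.finrank_prod,
    Module.finrank_fintype_fun_eq_card, Module.finrank_fintype_fun_eq_card,
    Module.finrank_fintype_fun_eq_card, Fintype.card_prod, Fintype.card_prod, card_V,
    Fintype.card_fin, Fintype.card_fin] at h1
  exact h1

end dec

theorem t_DEC (h1 : S_HESSF) (_ : S_TRP) : S_DEC := by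
  intro N n D l _ G hG B
  obtain ⟨H, hH⟩ : ∃ H, H = hess B (fun _ : Link D l => (1 : G)) := ⟨_, rfl⟩
  have hHA : ∀ u, H.mulVec (AA D l n u) = 0 := by
    intro u; rw [hH]; exact hess_AA h1 hG B u
  have hker : ∀ z, H.mulVec z = 0 → ∃ u, AA D l n u = z := by
    intro z hz; rw [hH] at hz; exact ker_hess h1 hG B hz
  have hHn : ∀ y, 0 ≤ ∑ p, y p * H.mulVec y p := by
    intro y; rw [hH]; exact hess_nonneg B _ y
  have hh : H.IsHermitian := by rw [hH]; exact hess_herm B _
  have hev : ∀ p, H.mulVec (hh.eigenvectorBasis p) =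
      hh.eigenvalues p • (hh.eigenvectorBasis p : Link D l × Fin n → ℝ) :=
    fun p => hh.mulVec_eigenvectorBasis p
  have horth : ∀ p q, ∑ r, (hh.eigenvectorBasis p) r * (hh.eigenvectorBasis q) r =
      if p = q then 1 else 0 := by
    intro p q
    have k1 := hh.eigenvectorBasis.inner_eq_ite p q
    rw [EuclideanSpace.inner_eq_star_dotProduct] at k1
    simp only [dotProduct, Pi.star_apply, star_trivial] at k1
    rw [← k1]
    exact Finset.sum_congr rfl fun r _ => mul_comm _ _
  have hpos : ∀ p, 0 ≤ hh.eigenvalues p := by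
    intro p
    have k1 := hHn (hh.eigenvectorBasis p)
    simp only [hev p, Pi.smul_apply, smul_eq_mul] at k1
    have k2 : ∑ r, (hh.eigenvectorBasis p) r * (hh.eigenvalues p * (hh.eigenvectorBasis p) r) =
        hh.eigenvalues p := by
      have := horth p p
      rw [if_pos rfl] at this
      calc ∑ r, (hh.eigenvectorBasis p) r * (hh.eigenvalues p * (hh.eigenvectorBasis p) r)
          = hh.eigenvalues p * ∑ r, (hh.eigenvectorBasis p) r * (hh.eigenvectorBasis p) r := by
            rw [Finset.mul_sum]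
            exact Finset.sum_congr rfl fun r _ => by ring
        _ = hh.eigenvalues p := by rw [this, mul_one]
    rwa [k2] at k1
  have hperp : ∀ p, hh.eigenvalues p ≠ 0 → ∀ u,
      ∑ r, AA D l n u r * (hh.eigenvectorBasis p) r = 0 := by
    intro p hp u
    have k1 : hh.eigenvalues p * ∑ r, AA D l n u r * (hh.eigenvectorBasis p) r = 0 := by
      have k2 : ∑ r, AA D l n u r * H.mulVec (hh.eigenvectorBasis p) r =
          ∑ r, H.mulVec (AA D l n u) r * (hh.eigenvectorBasis p) r := by
        have k3 := Matrix.dotProduct_mulVec (AA D l n u) H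
          (hh.eigenvectorBasis p : Link D l × Fin n → ℝ)
        have k4 : H.transpose = H := by
          have := hh
          rw [Matrix.IsHermitian, Matrix.conjTranspose_eq_transpose_of_trivial] at this
          exact this
        rw [← Matrix.mulVec_transpose, k4] at k3
        exact k3
      rw [hev p] at k2
      rw [Finset.mul_sum]
      calc ∑ r, hh.eigenvalues p * (AA D l n u r * (hh.eigenvectorBasis p) r)
          = ∑ r, AA D l n u r * (hh.eigenvalues p •
            (hh.eigenvectorBasis p : Link D l × Fin n → ℝ)) r :=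
            Finset.sum_congr rfl fun r _ => by
              rw [Pi.smul_apply, smul_eq_mul]; ring
        _ = 0 := by
            rw [k2, hHA]
            simp
    exact (mul_eq_zero.1 k1).resolve_left hp
  classical
  obtain ⟨e⟩ : Nonempty (Fin (Fintype.card {p // hh.eigenvalues p ≠ 0}) ≃
    {p // hh.eigenvalues p ≠ 0}) := ⟨(Fintype.equivFin _).symm⟩
  refine ⟨{ M := Fintype.card {p // hh.eigenvalues p ≠ 0}
            om := fun i => Real.sqrt (hh.eigenvalues (e i).1)
            ompos := fun i => Real.sqrt_pos.2 (lt_of_le_of_ne (hpos _) (Ne.symm (e i).2))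
            b := fun i => (hh.eigenvectorBasis (e i).1)
            orth := fun i j => ?_
            mean := fun i j a => perp_mean (hperp _ (e i).2) j a
            div := fun i x a => ?_
            eig := fun i => ?_
            sum := ?_
            card := ?_
            hodge := fun y => ?_ }⟩
  · rw [horth]
    by_cases hij : i = j
    · rw [if_pos hij, if_pos (by rw [hij])]
    · rw [if_neg hij, if_neg fun h => hij (e.injective (Subtype.ext h))]
  · have k1 := perp_div (hperp _ (e i).2) x a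
    have k2 : ∑ j : Fin D, ((hh.eigenvectorBasis (e i).1) ((x, j), a) -
        (hh.eigenvectorBasis (e i).1) ((x - unitv j, j), a)) =
        -∑ j : Fin D, ((hh.eigenvectorBasis (e i).1) ((x - unitv j, j), a) -
        (hh.eigenvectorBasis (e i).1) ((x, j), a)) := by
      rw [← Finset.sum_neg_distrib]
      exact Finset.sum_congr rfl fun j _ => by ring
    exact k2.trans (by rw [k1, neg_zero])
  · rw [Real.sq_sqrt (hpos _), ← hH]
    exact hev _
  · unfold tsq
    rw [← hH, dif_pos hh]
    rw [Equiv.sum_comp e (fun p => Real.sqrt (hh.eigenvalues p.1))]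
    rw [← Finset.sum_subtype (Finset.univ.filter fun p => hh.eigenvalues p ≠ 0)
      (fun p => by simp) (fun p => Real.sqrt (hh.eigenvalues p))]
    apply Finset.sum_filter_of_ne
    intro p _ hp h0
    apply hp
    rw [h0, Real.sqrt_zero]
  · have k1 : H.rank = Fintype.card {p // hh.eigenvalues p ≠ 0} := by
      rw [hh.rank_eq_card_non_zero_eigs]
    have k2 := LinearMap.finrank_range_add_finrank_ker H.mulVecLin
    have k3 : LinearMap.ker H.mulVecLin = LinearMap.range (AA D l n) := by
      apply le_antisymm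
      · intro z hz
        rw [LinearMap.mem_ker, Matrix.mulVecLin_apply] at hz
        obtain ⟨u, hu⟩ := hker z hz
        exact ⟨u, hu⟩
      · rintro _ ⟨u, rfl⟩
        rw [LinearMap.mem_ker, Matrix.mulVecLin_apply]
        exact hHA u
    have k4 : H.rank = Module.finrank ℝ (LinearMap.range H.mulVecLin) := rfl
    rw [k3, ← k4, k1, Module.finrank_fintype_fun_eq_card, Fintype.card_prod, Fintype.card_prod,
      card_V, Fintype.card_fin, Fintype.card_fin] at k2
    have k5 := finrank_range_AA (D := D) (l := l) (n := n)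
    have k6 : l ^ D * D * n = D * l ^ D * n := by ring
    omega
  · -- the decomposition
    obtain ⟨r, hr⟩ : ∃ r : Link D l × Fin n → ℝ,
      r = fun p => hh.eigenvectorBasis.repr (WithLp.toLp 2 y) p := ⟨_, rfl⟩
    have hy : ∀ q, y q = ∑ p, r p * (hh.eigenvectorBasis p) q := by
      intro q
      have k1 := hh.eigenvectorBasis.sum_repr (WithLp.toLp 2 y)
      have k2 := congrArg (fun w : EuclideanSpace ℝ (Link D l × Fin n) => w q) k1
      simp only [WithLp.ofLp_sum, Finset.sum_apply] at k2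
      rw [hr]
      exact k2.symm
    have hz : H.mulVec (fun q => ∑ p ∈ Finset.univ.filter (fun p => ¬ hh.eigenvalues p ≠ 0),
        r p * (hh.eigenvectorBasis p) q) = 0 := by
      have k1 : (fun q => ∑ p ∈ Finset.univ.filter (fun p => ¬ hh.eigenvalues p ≠ 0),
          r p * (hh.eigenvectorBasis p) q) =
          ∑ p ∈ Finset.univ.filter (fun p => ¬ hh.eigenvalues p ≠ 0),
            r p • (hh.eigenvectorBasis p : Link D l × Fin n → ℝ) := by
        funext q
        rw [Finset.sum_apply]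
        rfl
      rw [k1, Matrix.mulVec_sum]
      apply Finset.sum_eq_zero
      intro p hp
      rw [Finset.mem_filter, not_not] at hp
      rw [Matrix.mulVec_smul, hev p, hp.2, zero_smul, smul_zero]
    obtain ⟨u, hu⟩ := hker _ hz
    refine ⟨u.1, fun i => r (e i).1, u.2, fun q => ?_⟩
    rw [hy q]
    rw [← Finset.sum_filter_add_sum_filter_not Finset.univ (fun p => hh.eigenvalues p ≠ 0)]
    have k3 : ∑ i, r (e i).1 * (hh.eigenvectorBasis (e i).1) q =
        ∑ p ∈ Finset.univ.filter (fun p => hh.eigenvalues p ≠ 0),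
          r p * (hh.eigenvectorBasis p) q := by
      rw [Equiv.sum_comp e (fun p => r p.1 * (hh.eigenvectorBasis p.1) q)]
      rw [← Finset.sum_subtype (Finset.univ.filter fun p => hh.eigenvalues p ≠ 0)
        (fun p => by simp) (fun p => r p * (hh.eigenvectorBasis p) q)]
    have k4 := congrFun hu q
    simp only [AA, LinearMap.coe_mk, AddHom.coe_mk, Pi.add_apply, grd] at k4
    rw [k3, ← k4]
    ring

end Pool.Agent.Q150.LU
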