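import Pool.Agent.Q77.LU.StmA

/-! # Project LU (helper77), job POIN: Poincare and Nash inequalities on cubes (helper150) -/

set_option autoImplicit false
set_option linter.unusedSectionVars false

open MeasureTheory Set Filter Topology

namespace Pool.Agent.Q150.LU

open Pool.Agent.Q77.LU

section general

variable {X Y : Type*} [TopologicalSpace X] [TopologicalSpace Y] [MeasurableSpace X]
  [MeasurableSpace Y] [T2Space X] [T2Space Y]
  {μ : Measure X} {ν : Measure Y} [IsFiniteMeasureOnCompacts μ] [IsFiniteMeasureOnCompacts ν]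
  [SFinite μ] [SFinite ν] [OpensMeasurableSpace (X × Y)]

theorem int_prod {A : Set X} {B : Set Y} (hA : IsCompact A) (hB : IsCompact B) {F : X × Y → ℝ}
    (hF : Continuous F) : Integrable F ((μ.restrict A).prod (ν.restrict B)) := by
  rw [Measure.prod_restrict]
  exact hF.continuousOn.integrableOn_compact (hA.prod hB)

theorem swap {A : Set X} {B : Set Y} (hA : IsCompact A) (hB : IsCompact B) {F : X → Y → ℝ}
    (hF : Continuous fun p : X × Y => F p.1 p.2) :
    ∫ x in A, ∫ y in B, F x y ∂ν ∂μ = ∫ y in B, ∫ x in A, F x y ∂μ ∂ν :=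
  integral_integral_swap (int_prod hA hB hF)

end general

variable {P : Type} [Fintype P] [DecidableEq P]

/-- the cube -/
abbrev Qb (a : P → ℝ) (t : ℝ) : Set (P → ℝ) := Icc a (fun i => a i + t)

theorem Qb_compact (a : P → ℝ) (t : ℝ) : IsCompact (Qb a t) := isCompact_Icc
theorem Qb_convex (a : P → ℝ) (t : ℝ) : Convex ℝ (Qb a t) := convex_Icc _ _
theorem Qb_meas (a : P → ℝ) (t : ℝ) : MeasurableSet (Qb a t) := measurableSet_Icc

theorem Qb_vol (a : P → ℝ) {t : ℝ} (ht : 0 ≤ t) :
    (volume (Qb a t)).toReal = t ^ Fintype.card P := by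
  rw [Real.volume_Icc_pi_toReal (fun i => by linarith)]
  simp

theorem n2_le {a : P → ℝ} {t : ℝ} {x y : P → ℝ} (hx : x ∈ Qb a t) (hy : y ∈ Qb a t) :
    n2 (y - x) ≤ Fintype.card P * t ^ 2 := by
  unfold n2
  calc ∑ i, (y - x) i ^ 2 ≤ ∑ _i : P, t ^ 2 := by
        refine Finset.sum_le_sum fun i _ => ?_
        have h1 := hx.1 i
        have h2 := hx.2 i
        have h3 := hy.1 i
        have h4 := hy.2 i
        simp only at h2 h4
        rw [Pi.sub_apply]
        apply sq_le_sq'
        · linarith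
        · linarith
    _ = Fintype.card P * t ^ 2 := by simp

theorem n2_smul (c : ℝ) (v : P → ℝ) : n2 (c • v) = c ^ 2 * n2 v := by
  unfold n2
  rw [Finset.mul_sum]
  exact Finset.sum_congr rfl fun i _ => by rw [Pi.smul_apply, smul_eq_mul, mul_pow]

theorem n2_nonneg (v : P → ℝ) : 0 ≤ n2 v := Finset.sum_nonneg fun _ _ => sq_nonneg _
theorem g2_nonneg (f : (P → ℝ) → ℝ) (x : P → ℝ) : 0 ≤ g2 f x :=
  Finset.sum_nonneg fun _ _ => sq_nonneg _

theorem fderiv_eq (f : (P → ℝ) → ℝ) (x v : P → ℝ) : fderiv ℝ f x v = ∑ i, v i * pd f i x := by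
  unfold pd
  conv_lhs => rw [pi_eq_sum_univ' v, map_sum]
  refine Finset.sum_congr rfl fun i _ => ?_
  rw [map_smul, smul_eq_mul]

theorem fderiv_sq (f : (P → ℝ) → ℝ) (x v : P → ℝ) : (fderiv ℝ f x v) ^ 2 ≤ n2 v * g2 f x := by
  rw [fderiv_eq]
  exact Finset.sum_mul_sq_le_sq_mul_sq _ _ _

theorem g2_cont {f : (P → ℝ) → ℝ} (hf : ContDiff ℝ 1 f) : Continuous (g2 f) := by
  unfold g2 pd
  have h : Continuous (fderiv ℝ f) := hf.continuous_fderiv (by simp)
  refine continuous_finsetSum _ fun i _ => ?_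
  exact ((h.clm_apply continuous_const)).pow 2

/-- Jensen's inequality for squares -/
theorem sq_int_le {h : ℝ → ℝ} (hh : Continuous h) :
    (∫ s in (0:ℝ)..1, h s) ^ 2 ≤ ∫ s in (0:ℝ)..1, h s ^ 2 := by
  set c := ∫ s in (0:ℝ)..1, h s with hc
  have h1 : 0 ≤ ∫ s in (0:ℝ)..1, (h s - c) ^ 2 :=
    intervalIntegral.integral_nonneg zero_le_one fun s _ => sq_nonneg _
  have h2 : ∫ s in (0:ℝ)..1, (h s - c) ^ 2 = (∫ s in (0:ℝ)..1, h s ^ 2) - c ^ 2 := by
    have e : ∀ s, (h s - c) ^ 2 = (h s ^ 2 - 2 * c * h s) + c ^ 2 := fun s => by ring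
    simp_rw [e]
    rw [intervalIntegral.integral_add, intervalIntegral.integral_sub,
      intervalIntegral.integral_const_mul, intervalIntegral.integral_const, ← hc]
    · simp; ring
    · exact (hh.pow 2).intervalIntegrable _ _
    · exact (continuous_const.mul hh).intervalIntegrable _ _
    · exact ((hh.pow 2).sub (continuous_const.mul hh)).intervalIntegrable _ _
    · exact continuous_const.intervalIntegrable _ _
  linarith

theorem incr_sq {f : (P → ℝ) → ℝ} (hf : ContDiff ℝ 1 f) (x v : P → ℝ) :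
    (f x - f (x + v)) ^ 2 ≤ n2 v * ∫ s in Icc (0:ℝ) 1, g2 f (x + s • v) := by
  have hd : ∀ s : ℝ, HasDerivAt (fun s : ℝ => f (x + s • v)) (fderiv ℝ f (x + s • v) v) s := by
    intro s
    have hl : HasDerivAt (fun s : ℝ => x + s • v) v s := by
      simpa using ((hasDerivAt_id s).smul_const v).const_add x
    exact ((hf.differentiable (by simp) _).hasFDerivAt.comp_hasDerivAt s hl)
  have hline : Continuous fun s : ℝ => x + s • v :=
    continuous_const.add (continuous_id.smul continuous_const)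
  have hc : Continuous fun s : ℝ => fderiv ℝ f (x + s • v) v :=
    ((hf.continuous_fderiv (by simp)).comp hline).clm_apply continuous_const
  have h1 := intervalIntegral.integral_eq_sub_of_hasDerivAt (a := 0) (b := 1)
    (fun s _ => hd s) (hc.intervalIntegrable _ _)
  simp only [one_smul, zero_smul, add_zero] at h1
  have h2 := sq_int_le hc
  rw [h1] at h2
  calc (f x - f (x + v)) ^ 2 = (f (x + v) - f x) ^ 2 := by ring
    _ ≤ ∫ s in (0:ℝ)..1, (fderiv ℝ f (x + s • v) v) ^ 2 := h2
    _ ≤ ∫ s in (0:ℝ)..1, n2 v * g2 f (x + s • v) := by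
        apply intervalIntegral.integral_mono_on zero_le_one
          ((hc.pow 2).intervalIntegrable _ _)
          ((continuous_const.mul ((g2_cont hf).comp hline)).intervalIntegrable _ _)
        intro s _
        exact fderiv_sq f _ v
    _ = n2 v * ∫ s in Icc (0:ℝ) 1, g2 f (x + s • v) := by
        rw [intervalIntegral.integral_const_mul, intervalIntegral.integral_of_le zero_le_one,
          integral_Icc_eq_integral_Ioc]

/-- homotheties -/
theorem homoth {a : P → ℝ} {t : ℝ} {F : (P → ℝ) → ℝ} (hF : Continuous F) (hF0 : ∀ x, 0 ≤ F x)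
    {l : ℝ} (hl : 0 < l) (hl1 : l ≤ 1) {y : P → ℝ} (hy : y ∈ Qb a t) :
    ∫ x in Qb a t, F (y + l • (x - y)) ≤ (l ^ Fintype.card P)⁻¹ * ∫ x in Qb a t, F x := by
  set G : (P → ℝ) → ℝ := (Qb a t).indicator F with hG
  have hGi : Integrable G :=
    (integrable_indicator_iff (Qb_meas a t)).2 (hF.continuousOn.integrableOn_compact (Qb_compact a t))
  have hG0 : ∀ x, 0 ≤ G x := fun x => indicator_nonneg (fun x _ => hF0 x) x
  have hGc : Integrable fun x => G (y + l • (x - y)) := by
    have h1 : Integrable fun x => G (y + x) := hGi.comp_add_left y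
    have h2 : Integrable fun x => G (y + l • x) :=
      (integrable_comp_smul_iff volume (fun x => G (y + x)) hl.ne').2 h1
    exact h2.comp_sub_right y
  have hval : ∫ x, G (y + l • (x - y)) = (l ^ Fintype.card P)⁻¹ * ∫ x in Qb a t, F x := by
    rw [integral_sub_right_eq_self (fun x => G (y + l • x)) y,
      Measure.integral_comp_smul volume (fun x => G (y + x)) l,
      integral_add_left_eq_self G y, hG, integral_indicator (Qb_meas a t)]
    rw [Module.finrank_fintype_fun_eq_card, abs_of_pos (by positivity), smul_eq_mul]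
  rw [← hval, ← integral_indicator (Qb_meas a t)]
  apply integral_mono
  · rw [integrable_indicator_iff (Qb_meas a t)]
    have : Continuous fun x : P → ℝ => F (y + l • (x - y)) := hF.comp (by fun_prop)
    exact this.continuousOn.integrableOn_compact (Qb_compact a t)
  · exact hGc
  · intro x
    by_cases hx : x ∈ Qb a t
    · have hz : y + l • (x - y) ∈ Qb a t :=
        (Qb_convex a t).add_smul_sub_mem hy hx ⟨hl.le, hl1⟩
      simp only [indicator_of_mem hx, hG, indicator_of_mem hz]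
      exact le_rfl
    · simp only [indicator_of_notMem hx]
      exact hG0 _

/-- continuity of the map `(x, y, s) ↦ x + s (y - x)` -/
theorem core {f : (P → ℝ) → ℝ} (hf : ContDiff ℝ 1 f) {a : P → ℝ} {t θ : ℝ} (ht : 0 ≤ t)
    (hθ : 0 ≤ θ) (hθ2 : θ ≤ 1 / 2) :
    ∫ x in Qb a t, ∫ y in Qb a t, (f x - f (x + θ • (y - x))) ^ 2 ≤
      θ ^ 2 * (Fintype.card P * 2 ^ Fintype.card P * t ^ (Fintype.card P + 2)) *
        ∫ x in Qb a t, g2 f x := by
  have hg := g2_cont hf
  have hQ := Qb_compact a t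
  -- pointwise bound
  have hpt : ∀ x ∈ Qb a t, ∀ y ∈ Qb a t, (f x - f (x + θ • (y - x))) ^ 2 ≤
      (θ ^ 2 * (Fintype.card P * t ^ 2)) *
        ∫ s in Icc (0:ℝ) 1, g2 f (x + (s * θ) • (y - x)) := by
    intro x hx y hy
    have h1 := incr_sq hf x (θ • (y - x))
    rw [n2_smul] at h1
    simp_rw [smul_smul] at h1
    refine h1.trans ?_
    apply mul_le_mul_of_nonneg_right _ (integral_nonneg fun s => g2_nonneg _ _)
    exact mul_le_mul_of_nonneg_left (n2_le hx hy) (sq_nonneg _)
  have hc3 : Continuous fun p : ((P → ℝ) × (P → ℝ)) × ℝ =>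
      g2 f (p.1.1 + (p.2 * θ) • (p.1.2 - p.1.1)) := by
    apply hg.comp
    fun_prop
  have hcI : Continuous fun p : (P → ℝ) × (P → ℝ) =>
      ∫ s in Icc (0:ℝ) 1, g2 f (p.1 + (s * θ) • (p.2 - p.1)) := by
    exact continuous_parametric_integral_of_continuous (μ := volume)
      (f := fun (p : (P → ℝ) × (P → ℝ)) (s : ℝ) => g2 f (p.1 + (s * θ) • (p.2 - p.1)))
      hc3 isCompact_Icc
  have hcL : Continuous fun p : (P → ℝ) × (P → ℝ) => (f p.1 - f (p.1 + θ • (p.2 - p.1))) ^ 2 := by
    have := hf.continuous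
    fun_prop
  -- monotonicity
  have step1 : ∫ x in Qb a t, ∫ y in Qb a t, (f x - f (x + θ • (y - x))) ^ 2 ≤
      ∫ x in Qb a t, ∫ y in Qb a t, (θ ^ 2 * (Fintype.card P * t ^ 2)) *
        ∫ s in Icc (0:ℝ) 1, g2 f (x + (s * θ) • (y - x)) := by
    have hR : Continuous fun p : (P → ℝ) × (P → ℝ) => (θ ^ 2 * (Fintype.card P * t ^ 2)) *
        ∫ s in Icc (0:ℝ) 1, g2 f (p.1 + (s * θ) • (p.2 - p.1)) := continuous_const.mul hcI
    apply setIntegral_mono_on
    · exact (int_prod (μ := volume) (ν := volume) hQ hQ hcL).integral_prod_left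
    · exact (int_prod (μ := volume) (ν := volume) hQ hQ hR).integral_prod_left
    · exact Qb_meas a t
    · intro x hx
      apply setIntegral_mono_on
      · exact (hcL.comp (Continuous.prodMk_right x)).continuousOn.integrableOn_compact hQ
      · exact (hR.comp (Continuous.prodMk_right x)).continuousOn.integrableOn_compact hQ
      · exact Qb_meas a t
      · exact fun y hy => hpt x hx y hy
  -- order of integration
  have step2 : ∫ x in Qb a t, ∫ y in Qb a t, ∫ s in Icc (0:ℝ) 1, g2 f (x + (s * θ) • (y - x)) =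
      ∫ s in Icc (0:ℝ) 1, ∫ y in Qb a t, ∫ x in Qb a t, g2 f (x + (s * θ) • (y - x)) := by
    have e1 : ∀ x, ∫ y in Qb a t, ∫ s in Icc (0:ℝ) 1, g2 f (x + (s * θ) • (y - x)) =
        ∫ s in Icc (0:ℝ) 1, ∫ y in Qb a t, g2 f (x + (s * θ) • (y - x)) := fun x =>
      swap (μ := volume) (ν := volume) hQ isCompact_Icc
        (F := fun (y : P → ℝ) (s : ℝ) => g2 f (x + (s * θ) • (y - x)))
        (hg.comp (by fun_prop))
    simp_rw [e1]
    have hcy : Continuous fun p : (P → ℝ) × ℝ =>
        ∫ y in Qb a t, g2 f (p.1 + (p.2 * θ) • (y - p.1)) := by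
      exact continuous_parametric_integral_of_continuous (μ := volume)
        (f := fun (p : (P → ℝ) × ℝ) (y : P → ℝ) => g2 f (p.1 + (p.2 * θ) • (y - p.1)))
        (hg.comp (by fun_prop)) hQ
    rw [swap (μ := volume) (ν := volume) hQ isCompact_Icc
      (F := fun (x : P → ℝ) (s : ℝ) => ∫ y in Qb a t, g2 f (x + (s * θ) • (y - x))) hcy]
    congr 1
    funext s
    exact swap (μ := volume) (ν := volume) hQ hQ
      (F := fun (x y : P → ℝ) => g2 f (x + (s * θ) • (y - x))) (hg.comp (by fun_prop))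
  -- homotheties
  have hJ0 : 0 ≤ ∫ x in Qb a t, g2 f x := integral_nonneg fun s => g2_nonneg _ _
  have step3 : ∀ s ∈ Icc (0:ℝ) 1, ∀ y ∈ Qb a t, ∫ x in Qb a t, g2 f (x + (s * θ) • (y - x)) ≤
      2 ^ Fintype.card P * ∫ x in Qb a t, g2 f x := by
    intro s hs y hy
    have hl : 1 / 2 ≤ 1 - s * θ := by nlinarith [hs.1, hs.2]
    have hl1 : 1 - s * θ ≤ 1 := by nlinarith [hs.1, hs.2]
    have h1 := homoth hg (g2_nonneg f) (l := 1 - s * θ) (by linarith) hl1 hy
    have e : ∀ x : P → ℝ, x + (s * θ) • (y - x) = y + (1 - s * θ) • (x - y) := by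
      intro x
      rw [sub_smul, one_smul, show y - x = -(x - y) by abel, smul_neg]
      abel
    simp_rw [e]
    refine h1.trans (mul_le_mul_of_nonneg_right ?_ hJ0)
    rw [← inv_pow]
    apply pow_le_pow_left₀ (by positivity)
    rw [inv_le_comm₀ (by linarith) two_pos]
    linarith
  have step4 : ∫ s in Icc (0:ℝ) 1, ∫ y in Qb a t, ∫ x in Qb a t, g2 f (x + (s * θ) • (y - x)) ≤
      t ^ Fintype.card P * (2 ^ Fintype.card P * ∫ x in Qb a t, g2 f x) := by
    have hc1 : Continuous fun p : ℝ × (P → ℝ) =>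
        ∫ x in Qb a t, g2 f (x + (p.1 * θ) • (p.2 - x)) := by
      exact continuous_parametric_integral_of_continuous (μ := volume)
        (f := fun (p : ℝ × (P → ℝ)) (x : P → ℝ) => g2 f (x + (p.1 * θ) • (p.2 - x)))
        (hg.comp (by fun_prop)) hQ
    have hin : ∀ s ∈ Icc (0:ℝ) 1, ∫ y in Qb a t, ∫ x in Qb a t, g2 f (x + (s * θ) • (y - x)) ≤
        t ^ Fintype.card P * (2 ^ Fintype.card P * ∫ x in Qb a t, g2 f x) := by
      intro s hs
      have h1 : ∫ y in Qb a t, ∫ x in Qb a t, g2 f (x + (s * θ) • (y - x)) ≤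
          ∫ _y in Qb a t, (2 ^ Fintype.card P * ∫ x in Qb a t, g2 f x) := by
        apply setIntegral_mono_on
        · exact (hc1.comp (Continuous.prodMk_right s)).continuousOn.integrableOn_compact hQ
        · exact continuous_const.continuousOn.integrableOn_compact hQ
        · exact Qb_meas a t
        · exact fun y hy => step3 s hs y hy
      refine h1.trans (le_of_eq ?_)
      rw [setIntegral_const, smul_eq_mul, measureReal_def, Qb_vol a ht]
    have h2 : ∫ s in Icc (0:ℝ) 1, ∫ y in Qb a t, ∫ x in Qb a t, g2 f (x + (s * θ) • (y - x)) ≤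
        ∫ _s in Icc (0:ℝ) 1,
          (t ^ Fintype.card P * (2 ^ Fintype.card P * ∫ x in Qb a t, g2 f x)) := by
      apply setIntegral_mono_on
      · exact (int_prod (μ := volume) (ν := volume) isCompact_Icc hQ hc1).integral_prod_left
      · exact continuous_const.continuousOn.integrableOn_compact isCompact_Icc
      · exact measurableSet_Icc
      · exact hin
    refine h2.trans (le_of_eq ?_)
    rw [setIntegral_const, smul_eq_mul, measureReal_def, Real.volume_Icc]
    simp
  refine step1.trans ?_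
  simp_rw [integral_const_mul]
  rw [step2]
  calc (θ ^ 2 * (Fintype.card P * t ^ 2)) * ∫ s in Icc (0:ℝ) 1, ∫ y in Qb a t,
        ∫ x in Qb a t, g2 f (x + (s * θ) • (y - x))
      ≤ (θ ^ 2 * (Fintype.card P * t ^ 2)) *
        (t ^ Fintype.card P * (2 ^ Fintype.card P * ∫ x in Qb a t, g2 f x)) :=
        mul_le_mul_of_nonneg_left step4 (by positivity)
    _ = _ := by ring

theorem t_POIN : S_POIN := by
  intro P _ _
  refine ⟨Fintype.card P * 2 ^ Fintype.card P + 1, by positivity, ?_⟩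
  intro t a f ht hf
  change ∫ x in Qb a t, ∫ y in Qb a t, (f x - f y) ^ 2 ≤ _ * ∫ x in Qb a t, g2 f x
  have hQ := Qb_compact a t
  have hfc := hf.continuous
  have h1 := core hf (a := a) ht.le (θ := 1 / 2) (by norm_num) le_rfl
  have hJ0 : 0 ≤ ∫ x in Qb a t, g2 f x := integral_nonneg fun s => g2_nonneg _ _
  have hc1 : Continuous fun p : (P → ℝ) × (P → ℝ) =>
      (f p.1 - f (p.1 + (1 / 2 : ℝ) • (p.2 - p.1))) ^ 2 := by fun_prop
  have hc2 : Continuous fun p : (P → ℝ) × (P → ℝ) =>
      (f p.2 - f (p.2 + (1 / 2 : ℝ) • (p.1 - p.2))) ^ 2 := by fun_prop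
  have hcf : Continuous fun p : (P → ℝ) × (P → ℝ) => (f p.1 - f p.2) ^ 2 := by fun_prop
  have hsw : ∫ x in Qb a t, ∫ y in Qb a t, (f y - f (y + (1 / 2 : ℝ) • (x - y))) ^ 2 =
      ∫ x in Qb a t, ∫ y in Qb a t, (f x - f (x + (1 / 2 : ℝ) • (y - x))) ^ 2 :=
    swap (μ := volume) (ν := volume) hQ hQ
      (F := fun x y : P → ℝ => (f y - f (y + (1 / 2 : ℝ) • (x - y))) ^ 2) hc2
  have hsum : Continuous fun p : (P → ℝ) × (P → ℝ) =>
      2 * (f p.1 - f (p.1 + (1 / 2 : ℝ) • (p.2 - p.1))) ^ 2 +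
      2 * (f p.2 - f (p.2 + (1 / 2 : ℝ) • (p.1 - p.2))) ^ 2 :=
    (continuous_const.mul hc1).add (continuous_const.mul hc2)
  have h2 : ∫ x in Qb a t, ∫ y in Qb a t, (f x - f y) ^ 2 ≤
      ∫ x in Qb a t, ∫ y in Qb a t, (2 * (f x - f (x + (1 / 2 : ℝ) • (y - x))) ^ 2 +
        2 * (f y - f (y + (1 / 2 : ℝ) • (x - y))) ^ 2) := by
    apply integral_mono
    · exact (int_prod (μ := volume) (ν := volume) hQ hQ hcf).integral_prod_left
    · exact (int_prod (μ := volume) (ν := volume) hQ hQ hsum).integral_prod_left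
    · intro x
      apply integral_mono
      · exact (hcf.comp (Continuous.prodMk_right x)).continuousOn.integrableOn_compact hQ
      · exact (hsum.comp (Continuous.prodMk_right x)).continuousOn.integrableOn_compact hQ
      · intro y
        have e : y + (1 / 2 : ℝ) • (x - y) = x + (1 / 2 : ℝ) • (y - x) := by
          ext i
          simp only [Pi.add_apply, Pi.smul_apply, Pi.sub_apply, smul_eq_mul]
          ring
        change (f x - f y) ^ 2 ≤ 2 * (f x - f (x + (1 / 2 : ℝ) • (y - x))) ^ 2 +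
          2 * (f y - f (y + (1 / 2 : ℝ) • (x - y))) ^ 2
        rw [e]
        nlinarith [sq_nonneg ((f x - f (x + (1 / 2 : ℝ) • (y - x))) +
          (f y - f (x + (1 / 2 : ℝ) • (y - x))))]
  have h3 : ∫ x in Qb a t, ∫ y in Qb a t, (2 * (f x - f (x + (1 / 2 : ℝ) • (y - x))) ^ 2 +
        2 * (f y - f (y + (1 / 2 : ℝ) • (x - y))) ^ 2) =
      4 * ∫ x in Qb a t, ∫ y in Qb a t, (f x - f (x + (1 / 2 : ℝ) • (y - x))) ^ 2 := by
    have e1 : ∀ x, ∫ y in Qb a t, (2 * (f x - f (x + (1 / 2 : ℝ) • (y - x))) ^ 2 +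
        2 * (f y - f (y + (1 / 2 : ℝ) • (x - y))) ^ 2) =
        2 * (∫ y in Qb a t, (f x - f (x + (1 / 2 : ℝ) • (y - x))) ^ 2) +
        2 * ∫ y in Qb a t, (f y - f (y + (1 / 2 : ℝ) • (x - y))) ^ 2 := by
      intro x
      rw [integral_add, integral_const_mul, integral_const_mul]
      · exact ((hc1.comp (Continuous.prodMk_right x)).continuousOn.integrableOn_compact
          hQ).const_mul 2
      · exact ((hc2.comp (Continuous.prodMk_right x)).continuousOn.integrableOn_compact
          hQ).const_mul 2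
    simp_rw [e1]
    rw [integral_add, integral_const_mul, integral_const_mul, hsw]
    · ring
    · exact (int_prod (μ := volume) (ν := volume) hQ hQ hc1).integral_prod_left.const_mul 2
    · exact (int_prod (μ := volume) (ν := volume) hQ hQ hc2).integral_prod_left.const_mul 2
  rw [h3] at h2
  refine h2.trans ?_
  calc 4 * ∫ x in Qb a t, ∫ y in Qb a t, (f x - f (x + (1 / 2 : ℝ) • (y - x))) ^ 2
      ≤ 4 * ((1 / 2) ^ 2 * (Fintype.card P * 2 ^ Fintype.card P * t ^ (Fintype.card P + 2)) *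
        ∫ x in Qb a t, g2 f x) := mul_le_mul_of_nonneg_left h1 (by norm_num)
    _ = (Fintype.card P * 2 ^ Fintype.card P) * t ^ (Fintype.card P + 2) *
        ∫ x in Qb a t, g2 f x := by ring
    _ ≤ (Fintype.card P * 2 ^ Fintype.card P + 1) * t ^ (Fintype.card P + 2) *
        ∫ x in Qb a t, g2 f x := by
        apply mul_le_mul_of_nonneg_right _ hJ0
        apply mul_le_mul_of_nonneg_right _ (by positivity)
        linarith

theorem t_NASH' : S_NASH := by
  intro P _ _ R hR ε hε
  set p := Fintype.card P with hp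
  set t := 2 * R with ht'
  have ht : 0 < t := by positivity
  set M : ℝ := 2 * (p * 2 ^ p * t ^ 2) + 1 with hM
  have hMp : 0 < M := by positivity
  -- the scale
  obtain ⟨θ, hθ0, hθ2, hθ⟩ : ∃ θ : ℝ, 0 < θ ∧ θ ≤ 1 / 2 ∧ θ ^ 2 * M ≤ ε := by
    refine ⟨min (1 / 2) (ε / M), lt_min (by norm_num) (by positivity), min_le_left _ _, ?_⟩
    have h1 : min (1 / 2) (ε / M) ≤ 1 := (min_le_left _ _).trans (by norm_num)
    have h2 : 0 ≤ min (1 / 2) (ε / M) := le_min (by norm_num) (by positivity)
    have h3 : min (1 / 2) (ε / M) ^ 2 ≤ ε / M := by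
      calc min (1 / 2) (ε / M) ^ 2 ≤ min (1 / 2) (ε / M) := by nlinarith
        _ ≤ ε / M := min_le_right _ _
    calc min (1 / 2) (ε / M) ^ 2 * M ≤ ε / M * M := mul_le_mul_of_nonneg_right h3 hMp.le
      _ = ε := div_mul_cancel₀ _ hMp.ne'
  refine ⟨2 * ((θ ^ p)⁻¹) ^ 2 / t ^ p, by positivity, ?_⟩
  intro f hf
  set a : P → ℝ := fun _ => -R with ha
  have hcube : Icc (fun _ : P => -R) (fun _ => R) = Qb a t := by
    unfold Qb
    congr 1
    funext i
    simp only [ha, ht']
    ring
  rw [hcube]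
  have hQ := Qb_compact a t
  have hfc := hf.continuous
  have h1 := core hf (a := a) ht.le hθ0.le hθ2
  have hJ0 : 0 ≤ ∫ x in Qb a t, g2 f x := integral_nonneg fun s => g2_nonneg _ _
  set N := ∫ x in Qb a t, |f x| with hN
  have hN0 : 0 ≤ N := integral_nonneg fun s => abs_nonneg _
  have hvol : (volume (Qb a t)).toReal = t ^ p := Qb_vol a ht.le
  have htp : 0 < t ^ p := by positivity
  -- pointwise bound
  have hpt : ∀ x ∈ Qb a t, f x ^ 2 ≤
      2 / t ^ p * (∫ y in Qb a t, (f x - f (x + θ • (y - x))) ^ 2) +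
        2 * ((θ ^ p)⁻¹ * N / t ^ p) ^ 2 := by
    intro x hx
    have hcx : Continuous fun y : P → ℝ => f (x + θ • (y - x)) := by fun_prop
    set A := ∫ y in Qb a t, (f x - f (x + θ • (y - x))) ^ 2 with hA
    set m := ∫ y in Qb a t, f (x + θ • (y - x)) with hm
    have hm1 : |m| ≤ (θ ^ p)⁻¹ * N := by
      have k1 : |m| ≤ ∫ y in Qb a t, |f (x + θ • (y - x))| := abs_integral_le_integral_abs
      exact k1.trans (homoth (F := fun z => |f z|) hfc.abs (fun z => abs_nonneg _) hθ0
        (by linarith) hx)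
    -- f x = (1/V) ∫ (f x - ...) + m / V
    have hI1 : IntegrableOn (fun y : P → ℝ => (f x - f (x + θ • (y - x)))) (Qb a t) :=
      (continuous_const.sub hcx).continuousOn.integrableOn_compact hQ
    have hI2 : IntegrableOn (fun y : P → ℝ => (f x - f (x + θ • (y - x))) ^ 2) (Qb a t) :=
      ((continuous_const.sub hcx).pow 2).continuousOn.integrableOn_compact hQ
    set D := ∫ y in Qb a t, (f x - f (x + θ • (y - x))) with hD
    have hDe : D = t ^ p * f x - m := by
      rw [hD, integral_sub (continuous_const.continuousOn.integrableOn_compact hQ)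
        (hcx.continuousOn.integrableOn_compact hQ), setIntegral_const, smul_eq_mul,
        measureReal_def, hvol]
    have hDA : D ^ 2 ≤ t ^ p * A := by
      -- Cauchy-Schwarz
      have k2 : 0 ≤ ∫ y in Qb a t, ((f x - f (x + θ • (y - x))) - D / t ^ p) ^ 2 :=
        integral_nonneg fun _ => sq_nonneg _
      have k3 : ∫ y in Qb a t, ((f x - f (x + θ • (y - x))) - D / t ^ p) ^ 2 =
          A - D ^ 2 / t ^ p := by
        have e : ∀ y : P → ℝ, ((f x - f (x + θ • (y - x))) - D / t ^ p) ^ 2 =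
            ((f x - f (x + θ • (y - x))) ^ 2 - 2 * (D / t ^ p) * (f x - f (x + θ • (y - x)))) +
              (D / t ^ p) ^ 2 := fun y => by ring
        simp_rw [e]
        have hI3 : IntegrableOn (fun y : P → ℝ =>
            2 * (D / t ^ p) * (f x - f (x + θ • (y - x)))) (Qb a t) := hI1.const_mul _
        have hI4 : IntegrableOn (fun y : P → ℝ => (f x - f (x + θ • (y - x))) ^ 2 -
            2 * (D / t ^ p) * (f x - f (x + θ • (y - x)))) (Qb a t) := hI2.sub hI3
        rw [integral_add hI4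
          (continuous_const.continuousOn.integrableOn_compact hQ), integral_sub hI2
          hI3, integral_const_mul, setIntegral_const, smul_eq_mul,
          measureReal_def, hvol, ← hA, ← hD]
        field_simp
        ring
      rw [k3] at k2
      have k4 : D ^ 2 / t ^ p ≤ A := by linarith
      rwa [div_le_iff₀ htp, mul_comm] at k4
    have hfx : f x = D / t ^ p + m / t ^ p := by rw [hDe]; field_simp; ring
    rw [hfx]
    have k5 : (D / t ^ p) ^ 2 ≤ A / t ^ p := by
      rw [div_pow, div_le_div_iff₀ (by positivity) htp]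
      nlinarith [mul_le_mul_of_nonneg_right hDA htp.le]
    have k6 : (m / t ^ p) ^ 2 ≤ ((θ ^ p)⁻¹ * N / t ^ p) ^ 2 := by
      apply sq_le_sq'
      · rw [neg_le, ← neg_div]
        exact div_le_div_of_nonneg_right ((neg_le_abs m).trans hm1) htp.le
      · exact div_le_div_of_nonneg_right ((le_abs_self m).trans hm1) htp.le
    have k7 : 2 / t ^ p * A = 2 * (A / t ^ p) := by ring
    rw [k7]
    nlinarith [sq_nonneg (D / t ^ p - m / t ^ p)]
  have hcL : Continuous fun q : (P → ℝ) × (P → ℝ) => (f q.1 - f (q.1 + θ • (q.2 - q.1))) ^ 2 := by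
    fun_prop
  have hLi := (int_prod (μ := volume) (ν := volume) hQ hQ hcL).integral_prod_left
  have h2 : ∫ x in Qb a t, f x ^ 2 ≤
      ∫ x in Qb a t, (2 / t ^ p * (∫ y in Qb a t, (f x - f (x + θ • (y - x))) ^ 2) +
        2 * ((θ ^ p)⁻¹ * N / t ^ p) ^ 2) := by
    apply setIntegral_mono_on
    · exact (hfc.pow 2).continuousOn.integrableOn_compact hQ
    · exact (hLi.const_mul _).add (continuous_const.continuousOn.integrableOn_compact hQ)
    · exact Qb_meas a t
    · exact hpt
  have h3 : ∫ x in Qb a t, (2 / t ^ p * (∫ y in Qb a t, (f x - f (x + θ • (y - x))) ^ 2) +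
        2 * ((θ ^ p)⁻¹ * N / t ^ p) ^ 2) =
      2 / t ^ p * (∫ x in Qb a t, ∫ y in Qb a t, (f x - f (x + θ • (y - x))) ^ 2) +
        t ^ p * (2 * ((θ ^ p)⁻¹ * N / t ^ p) ^ 2) := by
    rw [integral_add (hLi.const_mul _) (continuous_const.continuousOn.integrableOn_compact hQ),
      integral_const_mul, setIntegral_const, smul_eq_mul, measureReal_def, hvol]
  rw [h3] at h2
  refine h2.trans ?_
  have h4 : 2 / t ^ p * (∫ x in Qb a t, ∫ y in Qb a t, (f x - f (x + θ • (y - x))) ^ 2) ≤
      ε * ∫ x in Qb a t, g2 f x := by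
    calc 2 / t ^ p * (∫ x in Qb a t, ∫ y in Qb a t, (f x - f (x + θ • (y - x))) ^ 2)
        ≤ 2 / t ^ p * (θ ^ 2 * (p * 2 ^ p * t ^ (p + 2)) * ∫ x in Qb a t, g2 f x) :=
          mul_le_mul_of_nonneg_left h1 (by positivity)
      _ = θ ^ 2 * (2 * (p * 2 ^ p * t ^ 2)) * ∫ x in Qb a t, g2 f x := by
          field_simp; ring
      _ ≤ ε * ∫ x in Qb a t, g2 f x := by
          apply mul_le_mul_of_nonneg_right _ hJ0
          refine le_trans ?_ hθ
          apply mul_le_mul_of_nonneg_left _ (sq_nonneg _)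
          rw [hM]; linarith
  have h5 : t ^ p * (2 * ((θ ^ p)⁻¹ * N / t ^ p) ^ 2) = 2 * ((θ ^ p)⁻¹) ^ 2 / t ^ p * N ^ 2 := by
    field_simp
  rw [h5]
  linarith

theorem t_NASH (_h : S_POIN) : S_NASH := t_NASH'

end Pool.Agent.Q150.LU
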