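import Pool.Agent.Q77.LU.StmA
import Pool.Agent.Q150.LU.POIN

/-! # Project LU (helper77), job GAPF: the lowest level is simple (helper150) -/

set_option autoImplicit false
set_option linter.unusedSectionVars false

open MeasureTheory Set Filter Topology
open scoped ContDiff

namespace Pool.Agent.Q150.LU

open Pool.Agent.Q77.LU

variable {P : Type} [Fintype P] [DecidableEq P]

theorem n2_cont : Continuous (n2 : (P → ℝ) → ℝ) := by
  unfold n2; fun_prop

theorem n2_smooth : ContDiff ℝ ∞ (n2 : (P → ℝ) → ℝ) := by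
  unfold n2; fun_prop

theorem nr_cont : Continuous (nr : (P → ℝ) → ℝ) := by
  unfold nr; exact Real.continuous_sqrt.comp n2_cont

theorem ci_c1 {𝒢 : Set ((P → ℝ) → (P → ℝ))} {f : (P → ℝ) → ℝ} (hf : CI 𝒢 f) : ContDiff ℝ 1 f :=
  hf.sm.of_le (by exact_mod_cast le_top)

theorem g2_supp {f : (P → ℝ) → ℝ} (hf : HasCompactSupport f) : HasCompactSupport (g2 f) := by
  refine (hf.fderiv (𝕜 := ℝ)).mono fun x hx => ?_
  rw [Function.mem_support] at hx ⊢
  intro h
  apply hx
  unfold g2 pd
  rw [h]; simp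

theorem int_g2 {f : (P → ℝ) → ℝ} (h1 : ContDiff ℝ 1 f) (h2 : HasCompactSupport f) :
    Integrable (g2 f) := (g2_cont h1).integrable_of_hasCompactSupport (g2_supp h2)

theorem int_mul_sq {f v : (P → ℝ) → ℝ} (h1 : Continuous f) (h2 : HasCompactSupport f)
    (hv : Continuous v) : Integrable fun C => v C * f C ^ 2 := by
  apply (hv.mul (h1.pow 2)).integrable_of_hasCompactSupport
  refine h2.mono fun x hx => ?_
  rw [Function.mem_support] at hx ⊢
  intro h
  apply hx
  simp [h]

theorem int_sq {f : (P → ℝ) → ℝ} (h1 : Continuous f) (h2 : HasCompactSupport f) :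
    Integrable fun C => f C ^ 2 := by
  simpa using int_mul_sq (v := fun _ => 1) h1 h2 continuous_const

theorem qf_eq {f v : (P → ℝ) → ℝ} (h1 : ContDiff ℝ 1 f) (h2 : HasCompactSupport f)
    (hv : Continuous v) : qf v f = 1 / 2 * (∫ C, g2 f C) + ∫ C, v C * f C ^ 2 := by
  unfold qf
  rw [integral_add ((int_g2 h1 h2).const_mul _) (int_mul_sq h1.continuous h2 hv),
    integral_const_mul]

theorem g2_comb {f g : (P → ℝ) → ℝ} (hf : ContDiff ℝ 1 f) (hg : ContDiff ℝ 1 g) (a b : ℝ)
    (x : P → ℝ) : g2 (fun C => a * f C + b * g C) x ≤ 2 * a ^ 2 * g2 f x + 2 * b ^ 2 * g2 g x := by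
  unfold g2
  rw [Finset.mul_sum, Finset.mul_sum, ← Finset.sum_add_distrib]
  refine Finset.sum_le_sum fun i _ => ?_
  have h1 : pd (fun C => a * f C + b * g C) i x = a * pd f i x + b * pd g i x := by
    unfold pd
    have hf' := (hf.differentiable (by simp) x)
    have hg' := (hg.differentiable (by simp) x)
    rw [fderiv_fun_add (hf'.const_mul a) (hg'.const_mul b), fderiv_const_mul hf',
      fderiv_const_mul hg']
    simp
  rw [h1]
  nlinarith [sq_nonneg (a * pd f i x - b * pd g i x)]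

theorem qf_comb {f g v : (P → ℝ) → ℝ} (hf : ContDiff ℝ 1 f) (hg : ContDiff ℝ 1 g)
    (hf2 : HasCompactSupport f) (hg2 : HasCompactSupport g) (hv : Continuous v)
    (hv0 : ∀ C, 0 ≤ v C) (a b : ℝ) :
    qf v (fun C => a * f C + b * g C) ≤ 2 * a ^ 2 * qf v f + 2 * b ^ 2 * qf v g := by
  have hh : ContDiff ℝ 1 fun C => a * f C + b * g C :=
    (contDiff_const.mul hf).add (contDiff_const.mul hg)
  have hh2 : HasCompactSupport fun C => a * f C + b * g C := by
    have h1 : HasCompactSupport fun C => a * f C := hf2.mul_left (f := fun _ => a)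
    have h2 : HasCompactSupport fun C => b * g C := hg2.mul_left (f := fun _ => b)
    exact h1.add h2
  unfold qf
  rw [← integral_const_mul, ← integral_const_mul, ← integral_add]
  · apply integral_mono
    · exact ((int_g2 hh hh2).const_mul _).add (int_mul_sq hh.continuous hh2 hv)
    · exact ((((int_g2 hf hf2).const_mul _).add (int_mul_sq hf.continuous hf2 hv)).const_mul _).add
        ((((int_g2 hg hg2).const_mul _).add (int_mul_sq hg.continuous hg2 hv)).const_mul _)
    · intro x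
      have h1 := g2_comb hf hg a b x
      have h2 : (a * f x + b * g x) ^ 2 ≤ 2 * a ^ 2 * f x ^ 2 + 2 * b ^ 2 * g x ^ 2 := by
        nlinarith [sq_nonneg (a * f x - b * g x)]
      have h3 := mul_le_mul_of_nonneg_left h2 (hv0 x)
      simp only
      nlinarith
  · exact (((int_g2 hf hf2).const_mul _).add (int_mul_sq hf.continuous hf2 hv)).const_mul _
  · exact (((int_g2 hg hg2).const_mul _).add (int_mul_sq hg.continuous hg2 hv)).const_mul _

/-- a radial bump function -/
theorem radial {𝒢 : Set ((P → ℝ) → (P → ℝ))} (h𝒢 : ∀ σ ∈ 𝒢, ∀ x, n2 (σ x) = n2 x)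
    (b : ContDiffBump (0 : ℝ)) (u : ℝ) :
    CI 𝒢 (fun x : P → ℝ => b (n2 x - u)) := by
  refine ⟨b.contDiff.comp (n2_smooth.sub contDiff_const), ?_, fun σ hσ x => by rw [h𝒢 σ hσ]⟩
  -- compact support
  have hsub : Function.support (fun x : P → ℝ => b (n2 x - u)) ⊆
      Icc (fun _ => -(|u| + b.rOut + 1)) (fun _ => |u| + b.rOut + 1) := by
    intro x hx
    rw [Function.mem_support] at hx
    have h1 : n2 x - u ∈ Metric.ball (0:ℝ) b.rOut := by
      rw [← b.support_eq]; exact hx
    rw [Metric.mem_ball, Real.dist_eq, sub_zero] at h1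
    have h2 : n2 x ≤ |u| + b.rOut := by
      have := (abs_lt.1 h1).2
      linarith [le_abs_self u]
    have h3 : ∀ i, |x i| ≤ |u| + b.rOut + 1 := by
      intro i
      have h4 : x i ^ 2 ≤ n2 x := by
        unfold n2
        exact Finset.single_le_sum (f := fun i => x i ^ 2) (fun i _ => sq_nonneg _)
          (Finset.mem_univ i)
      have h5 : |x i| ^ 2 ≤ |u| + b.rOut := by rw [sq_abs]; exact h4.trans h2
      nlinarith [sq_nonneg (|x i| - 1), abs_nonneg u, b.rOut_pos]
    exact ⟨fun i => (abs_le.1 (h3 i)).1, fun i => (abs_le.1 (h3 i)).2⟩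
  exact HasCompactSupport.of_support_subset_isCompact isCompact_Icc hsub

/-- two orthonormal invariant functions -/
theorem lev1_nonempty [Nonempty P] (V : Pot P) {𝒢 : Set ((P → ℝ) → (P → ℝ))}
    (h𝒢 : ∀ σ ∈ 𝒢, ∀ x, n2 (σ x) = n2 x) :
    {E : ℝ | ∃ ψ : Fin (1 + 1) → (P → ℝ) → ℝ, (∀ i, CI 𝒢 (ψ i)) ∧
    (∀ i j, ∫ C, ψ i C * ψ j C = if i = j then 1 else 0) ∧
    ∀ c : Fin (1 + 1) → ℝ, qf V.v (fun C => ∑ i, c i * ψ i C) ≤ E * ∑ i, c i ^ 2}.Nonempty := by
  let b : ContDiffBump (0 : ℝ) := ⟨1 / 2, 1, by norm_num, by norm_num⟩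
  let f : ℝ → (P → ℝ) → ℝ := fun u x => b (n2 x - u)
  have hf : ∀ u, CI 𝒢 (f u) := fun u => radial h𝒢 b u
  have hcont : ∀ u, Continuous (f u) := fun u => (hf u).sm.continuous
  have hN : ∀ u : ℝ, 0 ≤ u → 0 < ∫ x, f u x ^ 2 := by
    intro u hu
    obtain ⟨i⟩ := ‹Nonempty P›
    have hx : n2 (Pi.single i (Real.sqrt u) : P → ℝ) = u := by
      unfold n2
      rw [Finset.sum_eq_single i]
      · simp [Real.sq_sqrt hu]
      · intro j _ hj
        simp [Pi.single_eq_of_ne hj]
      · simp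
    apply ((hcont u).pow 2).integral_pos_of_hasCompactSupport_nonneg_nonzero
      (x := Pi.single i (Real.sqrt u))
    · refine (hf u).supp.mono fun x hx => ?_
      rw [Function.mem_support] at hx ⊢
      intro h
      apply hx
      simp [h]
    · exact fun x => sq_nonneg _
    · have : b 0 = 1 := b.one_of_mem_closedBall (by simp [b])
      have h1 : f u (Pi.single i (Real.sqrt u)) = 1 := by
        simp only [f, hx, sub_self, this]
      rw [Pi.pow_apply, h1]
      norm_num
  have hdisj : ∀ x, f 0 x * f 3 x = 0 := by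
    intro x
    by_contra h
    have h0 : f 0 x ≠ 0 := left_ne_zero_of_mul h
    have h3 : f 3 x ≠ 0 := right_ne_zero_of_mul h
    have k0 : n2 x - 0 ∈ Metric.ball (0:ℝ) b.rOut := by rw [← b.support_eq]; exact h0
    have k3 : n2 x - 3 ∈ Metric.ball (0:ℝ) b.rOut := by rw [← b.support_eq]; exact h3
    rw [Metric.mem_ball, Real.dist_eq, sub_zero] at k0 k3
    have e : b.rOut = 1 := rfl
    rw [e] at k0 k3
    have := (abs_lt.1 k0).2
    have := (abs_lt.1 k3).1
    linarith
  set A := ∫ x, f 0 x ^ 2 with hA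
  set B := ∫ x, f 3 x ^ 2 with hB
  have hA0 : 0 < A := hN 0 le_rfl
  have hB0 : 0 < B := hN 3 (by norm_num)
  let ψ : Fin (1 + 1) → (P → ℝ) → ℝ := ![fun x => (Real.sqrt A)⁻¹ * f 0 x,
    fun x => (Real.sqrt B)⁻¹ * f 3 x]
  have hCI : ∀ i, CI 𝒢 (ψ i) := by
    intro i
    fin_cases i
    · exact ⟨contDiff_const.mul (hf 0).sm, (hf 0).supp.mul_left (f := fun _ => (Real.sqrt A)⁻¹),
        fun σ hσ x => by simp [ψ, (hf 0).inv σ hσ x]⟩
    · exact ⟨contDiff_const.mul (hf 3).sm, (hf 3).supp.mul_left (f := fun _ => (Real.sqrt B)⁻¹),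
        fun σ hσ x => by simp [ψ, (hf 3).inv σ hσ x]⟩
  refine ⟨2 * (|qf V.v (ψ 0)| + |qf V.v (ψ 1)|), ψ, hCI, ?_, ?_⟩
  · have h00 : ∫ C, ψ 0 C * ψ 0 C = 1 := by
      have e : ∀ C, ψ 0 C * ψ 0 C = A⁻¹ * f 0 C ^ 2 := by
        intro C
        simp only [ψ, Matrix.cons_val_zero]
        have : (Real.sqrt A)⁻¹ * (Real.sqrt A)⁻¹ = A⁻¹ := by
          rw [← mul_inv, Real.mul_self_sqrt hA0.le]
        rw [← this]; ring
      simp_rw [e]
      rw [integral_const_mul, ← hA, inv_mul_cancel₀ hA0.ne']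
    have h11 : ∫ C, ψ 1 C * ψ 1 C = 1 := by
      have e : ∀ C, ψ 1 C * ψ 1 C = B⁻¹ * f 3 C ^ 2 := by
        intro C
        simp only [ψ, Matrix.cons_val_one]
        have : (Real.sqrt B)⁻¹ * (Real.sqrt B)⁻¹ = B⁻¹ := by
          rw [← mul_inv, Real.mul_self_sqrt hB0.le]
        rw [← this]; simp; ring
      simp_rw [e]
      rw [integral_const_mul, ← hB, inv_mul_cancel₀ hB0.ne']
    have h01 : ∀ C, ψ 0 C * ψ 1 C = 0 := by
      intro C
      have e : ψ 0 C * ψ 1 C = (Real.sqrt A)⁻¹ * (Real.sqrt B)⁻¹ * (f 0 C * f 3 C) := by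
        simp only [ψ, Matrix.cons_val_zero, Matrix.cons_val_one]
        ring
      rw [e, hdisj C, mul_zero]
    intro i j
    fin_cases i <;> fin_cases j
    · simpa using h00
    · simp [h01]
    · have h10 : ∀ C, ψ 1 C * ψ 0 C = 0 := fun C => by rw [mul_comm]; exact h01 C
      simp [h10]
    · simpa using h11
  · intro c
    have h := qf_comb (ci_c1 (hCI 0)) (ci_c1 (hCI 1)) (hCI 0).supp (hCI 1).supp V.cont V.nonneg
      (c 0) (c 1)
    have e : (fun C => ∑ i, c i * ψ i C) = fun C => c 0 * ψ 0 C + c 1 * ψ 1 C := by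
      funext C
      exact Fin.sum_univ_two _
    rw [e, Fin.sum_univ_two]
    refine h.trans ?_
    have e0 := le_abs_self (qf V.v (ψ 0))
    have e1 := le_abs_self (qf V.v (ψ 1))
    have a0 := abs_nonneg (qf V.v (ψ 0))
    have a1 := abs_nonneg (qf V.v (ψ 1))
    have m0 := mul_le_mul_of_nonneg_left e0 (sq_nonneg (c 0))
    have m1 := mul_le_mul_of_nonneg_left e1 (sq_nonneg (c 1))
    nlinarith [mul_nonneg (sq_nonneg (c 0)) a1, mul_nonneg (sq_nonneg (c 1)) a0]

theorem l1_small {Q : Set (P → ℝ)} (hQ : IsCompact Q) {h : (P → ℝ) → ℝ} (hc : Continuous h)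
    (h0 : ∫ x in Q, h x = 0) (h2 : ∫ x in Q, h x ^ 2 ≤ 1) {e m : ℝ} (he : 0 ≤ e) (hm : 0 < m)
    (hA : (volume (Q ∩ {x | h x ≤ -e})).toReal ≤ m) :
    ∫ x in Q, |h x| ≤ 2 * (e * (volume Q).toReal + Real.sqrt m) := by
  have hQm := hQ.measurableSet
  have hAm : MeasurableSet {x | h x ≤ -e} := (isClosed_le hc continuous_const).measurableSet
  have hsm : 0 < Real.sqrt m := Real.sqrt_pos.2 hm
  set s := Real.sqrt m with hs
  have hss : s * s = m := Real.mul_self_sqrt hm.le
  -- pointwise bound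
  have hpt : ∀ x, |h x| ≤ (h x + 2 * e) +
      ({x | h x ≤ -e}.indicator (fun x => s * h x ^ 2 + 1 / s) x) := by
    intro x
    by_cases hx : h x ≤ -e
    · rw [indicator_of_mem (show x ∈ {x | h x ≤ -e} from hx)]
      have h1 : |h x| = -h x := abs_of_nonpos (by linarith)
      rw [h1]
      have h3 : -2 * h x ≤ s * h x ^ 2 + 1 / s := by
        have : s * h x ^ 2 + 1 / s - (-2 * h x) = (s * h x + 1) ^ 2 / s := by
          field_simp; ring
        have h4 : 0 ≤ (s * h x + 1) ^ 2 / s := by positivity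
        linarith
      linarith
    · rw [indicator_of_notMem (show x ∉ {x | h x ≤ -e} from hx), add_zero]
      push Not at hx
      rcases le_total 0 (h x) with h1 | h1
      · rw [abs_of_nonneg h1]; linarith
      · rw [abs_of_nonpos h1]; linarith
  have hi1 : IntegrableOn h Q := hc.continuousOn.integrableOn_compact hQ
  have hi2 : IntegrableOn (fun x => s * h x ^ 2 + 1 / s) Q :=
    ((continuous_const.mul (hc.pow 2)).add continuous_const).continuousOn.integrableOn_compact hQ
  have hi3 : IntegrableOn ({x | h x ≤ -e}.indicator (fun x => s * h x ^ 2 + 1 / s)) Q :=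
    hi2.indicator hAm
  have hconst : ∀ c : ℝ, IntegrableOn (fun _ : P → ℝ => c) Q := fun c =>
    continuous_const.continuousOn.integrableOn_compact hQ
  calc ∫ x in Q, |h x| ≤ ∫ x in Q, ((h x + 2 * e) +
        ({x | h x ≤ -e}.indicator (fun x => s * h x ^ 2 + 1 / s) x)) := by
        apply integral_mono hi1.abs ((hi1.add (hconst _)).add hi3) hpt
    _ = 2 * e * (volume Q).toReal +
        ∫ x in Q, ({x | h x ≤ -e}.indicator (fun x => s * h x ^ 2 + 1 / s) x) := by
        have hi4 : IntegrableOn (fun x => h x + 2 * e) Q := hi1.add (hconst _)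
        rw [integral_add hi4 hi3, integral_add hi1 (hconst _), h0, setIntegral_const, smul_eq_mul,
          measureReal_def]
        ring
    _ = 2 * e * (volume Q).toReal + ∫ x in Q ∩ {x | h x ≤ -e}, (s * h x ^ 2 + 1 / s) := by
        rw [setIntegral_indicator hAm]
    _ ≤ 2 * e * (volume Q).toReal + (s * 1 + 1 / s * m) := by
        have hsub : Q ∩ {x | h x ≤ -e} ⊆ Q := inter_subset_left
        have hj1 : IntegrableOn (fun x => h x ^ 2) Q :=
          (hc.pow 2).continuousOn.integrableOn_compact hQ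
        have hj3 : IntegrableOn (fun x => s * h x ^ 2) Q := hj1.const_mul s
        have hj2 : IntegrableOn (fun x => s * h x ^ 2) (Q ∩ {x | h x ≤ -e}) := hj3.mono_set hsub
        rw [integral_add hj2 ((hconst _).mono_set hsub), integral_const_mul, setIntegral_const,
          smul_eq_mul, measureReal_def]
        have k1 : ∫ x in Q ∩ {x | h x ≤ -e}, h x ^ 2 ≤ 1 :=
          (setIntegral_mono_set hj1 (Eventually.of_forall fun _ => sq_nonneg _)
            (Eventually.of_forall hsub)).trans h2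
        have k2 : (volume (Q ∩ {x | h x ≤ -e})).toReal * (1 / s) ≤ 1 / s * m := by
          rw [mul_comm]
          exact mul_le_mul_of_nonneg_left hA (by positivity)
        have k3 : s * ∫ x in Q ∩ {x | h x ≤ -e}, h x ^ 2 ≤ s * 1 :=
          mul_le_mul_of_nonneg_left k1 hsm.le
        linarith
    _ = 2 * (e * (volume Q).toReal + s) := by
        rw [← hss]; field_simp; ring

/-- the choice of the level -/
theorem choose_L (K' V M : ℝ) :
    ∃ L : ℝ, 1 ≤ L ∧ K' * (2 * (Real.exp (-(L + 1)) * V +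
      Real.sqrt (Real.sqrt M / (2 * L)))) ^ 2 < 1 / 2 := by
  have h1 : Tendsto (fun L : ℝ => Real.exp (-(L + 1))) atTop (𝓝 0) :=
    Real.tendsto_exp_neg_atTop_nhds_zero.comp (tendsto_atTop_add_const_right _ 1 tendsto_id)
  have h2 : Tendsto (fun L : ℝ => Real.sqrt M / (2 * L)) atTop (𝓝 0) :=
    (tendsto_const_nhds (x := Real.sqrt M)).div_atTop (tendsto_id.const_mul_atTop two_pos)
  have h3 : Tendsto (fun L : ℝ => Real.sqrt (Real.sqrt M / (2 * L))) atTop (𝓝 0) := by
    have := (Real.continuous_sqrt.tendsto 0).comp h2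
    rw [Real.sqrt_zero] at this
    exact this
  have h4 : Tendsto (fun L : ℝ => K' * (2 * (Real.exp (-(L + 1)) * V +
      Real.sqrt (Real.sqrt M / (2 * L)))) ^ 2) atTop (𝓝 0) := by
    have := (((h1.mul_const V).add h3).const_mul 2).pow 2
    have := this.const_mul K'
    simpa using this
  have h5 := (h4.eventually (gt_mem_nhds (show (0:ℝ) < 1 / 2 by norm_num))).and
    (eventually_ge_atTop (1:ℝ))
  obtain ⟨L, hL1, hL2⟩ := h5.exists
  exact ⟨L, hL2, hL1⟩

theorem cube_mass (V : Pot P) {h : (P → ℝ) → ℝ} (hh : ContDiff ℝ 1 h) (hs : HasCompactSupport h)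
    (h1 : ∫ C, h C ^ 2 = 1) {E R : ℝ} (hR : 0 < R) (hE : qf V.v h ≤ E)
    (hER : 4 * E ≤ V.κ * R) :
    3 / 4 ≤ ∫ x in Icc (fun _ : P => -R) (fun _ => R), h x ^ 2 := by
  set Q := Icc (fun _ : P => -R) (fun _ => R) with hQ
  have hQm : MeasurableSet Q := measurableSet_Icc
  have hi := int_sq hh.continuous hs
  have hin := int_mul_sq hh.continuous hs nr_cont
  have hsim := V.simon h hh hs
  have hsplit : (∫ x in Q, h x ^ 2) + ∫ x in Qᶜ, h x ^ 2 = 1 := by
    rw [← h1]; exact integral_add_compl hQm hi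
  have hout : ∫ x in Qᶜ, h x ^ 2 ≤ 1 / R * ∫ C, nr C * h C ^ 2 := by
    rw [← integral_const_mul, ← integral_indicator hQm.compl]
    apply integral_mono (hi.indicator hQm.compl) (hin.const_mul _)
    intro x
    by_cases hx : x ∈ Qᶜ
    · simp only [indicator_of_mem hx]
      have hnr : R ≤ nr x := by
        by_contra hcon
        push Not at hcon
        apply hx
        have habs : ∀ i, |x i| ≤ R := by
          intro i
          have h4 : x i ^ 2 ≤ n2 x := by
            unfold n2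
            exact Finset.single_le_sum (f := fun i => x i ^ 2) (fun i _ => sq_nonneg _)
              (Finset.mem_univ i)
          have h5 : |x i| ≤ nr x := by
            unfold nr
            rw [← Real.sqrt_sq_eq_abs]
            exact Real.sqrt_le_sqrt h4
          linarith
        exact ⟨fun i => (abs_le.1 (habs i)).1, fun i => (abs_le.1 (habs i)).2⟩
      have : 1 ≤ 1 / R * nr x := by
        rw [one_div_mul_eq_div, le_div_iff₀ hR]; linarith
      calc h x ^ 2 = 1 * h x ^ 2 := (one_mul _).symm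
        _ ≤ (1 / R * nr x) * h x ^ 2 := mul_le_mul_of_nonneg_right this (sq_nonneg _)
        _ = 1 / R * (nr x * h x ^ 2) := by ring
    · simp only [indicator_of_notMem hx]
      have : 0 ≤ nr x := Real.sqrt_nonneg _
      positivity
  have h6 : 1 / R * ∫ C, nr C * h C ^ 2 ≤ 1 / 4 := by
    rw [one_div_mul_eq_div, div_le_iff₀ hR]
    have h7 : V.κ * ∫ C, nr C * h C ^ 2 ≤ V.κ * (1 / 4 * R) := by
      calc V.κ * ∫ C, nr C * h C ^ 2 ≤ E := hsim.trans hE
        _ ≤ V.κ * (1 / 4 * R) := by linarith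
    exact le_of_mul_le_mul_left h7 V.pos
  linarith

theorem t_GAPF (h1 : S_POIN) (h2 : S_NASH) (h3 : S_LOGE) : S_GAPF := by
  intro P _ _ _ V 𝒢 h𝒢
  by_contra hcon
  push Not at hcon
  set lam := lev V.v 𝒢 0 with hlam
  have hal := abs_nonneg lam
  have hlal := le_abs_self lam
  -- the cube
  obtain ⟨R, hR1, hR2⟩ : ∃ R : ℝ, 1 ≤ R ∧ 4 * (|lam| + 1) ≤ V.κ * R := by
    refine ⟨max 1 (4 * (|lam| + 1) / V.κ), le_max_left _ _, ?_⟩
    have := mul_le_mul_of_nonneg_left (le_max_right 1 (4 * (|lam| + 1) / V.κ)) V.pos.le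
    rwa [mul_div_cancel₀ _ V.pos.ne'] at this
  have hR : 0 < R := by linarith
  obtain ⟨KP, hKP, hPOIN⟩ := h1 P
  obtain ⟨K, hK, hLOGE⟩ := h3 P V 𝒢 h𝒢 R hR
  obtain ⟨K', hK', hNASH⟩ := h2 P R hR (1 / (8 * (|lam| + 1))) (by positivity)
  set Q := Icc (fun _ : P => -R) (fun _ => R) with hQ
  have hQc : IsCompact Q := isCompact_Icc
  have hQm : MeasurableSet Q := measurableSet_Icc
  have hQe : Icc (fun _ : P => -R) (fun i => (fun _ : P => -R) i + 2 * R) = Q := by
    rw [hQ]; congr 1; funext i; ring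
  set M := KP * (2 * R) ^ (Fintype.card P + 2) * K with hM
  have hM0 : 0 < M := by positivity
  obtain ⟨L, hL1, hL2⟩ := choose_L K' (volume Q).toReal M
  set ϵ := Real.exp (-(2 * L + 2)) with hϵ
  have hϵ0 : 0 < ϵ := Real.exp_pos _
  have hϵs : Real.sqrt ϵ = Real.exp (-(L + 1)) := by
    rw [hϵ, show -(2 * L + 2) = -(L + 1) + -(L + 1) by ring, Real.exp_add,
      Real.sqrt_mul_self (Real.exp_pos _).le]
  have hϵ16 : ϵ < 1 / 16 := by
    have k1 : ϵ ≤ Real.exp (-4) := Real.exp_le_exp.2 (by linarith)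
    have k2 : Real.exp (-4) < 1 / 16 := by
      rw [Real.exp_neg, ← one_div]
      apply one_div_lt_one_div_of_lt (by norm_num)
      have k3 := Real.add_one_lt_exp (show (1:ℝ) ≠ 0 by norm_num)
      have k4 : Real.exp 4 = Real.exp 1 ^ 4 := by
        rw [← Real.exp_nat_mul]; norm_num
      rw [k4]
      have k5 : (2:ℝ) ^ 4 < Real.exp 1 ^ 4 := by
        apply pow_lt_pow_left₀ _ (by norm_num) (by norm_num)
        linarith
      linarith
    linarith
  have hϵL : 1 / 2 * Real.log (1 / ϵ) - 1 = L := by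
    rw [Real.log_div one_ne_zero hϵ0.ne', Real.log_one, hϵ, Real.log_exp]; ring
  obtain ⟨d, hd, hd1, hLOG⟩ := hLOGE ϵ hϵ0 hϵ16
  -- two orthonormal functions
  obtain ⟨E, ⟨ψ, hCI, horth, hqf⟩, hE⟩ := exists_lt_of_csInf_lt (lev1_nonempty V h𝒢)
    (show lev V.v 𝒢 1 < lam + d by linarith)
  -- the combination
  obtain ⟨c, hc1, hc0⟩ : ∃ c : Fin 2 → ℝ, ∑ i, c i ^ 2 = 1 ∧
      c 0 * (∫ x in Q, ψ 0 x) + c 1 * (∫ x in Q, ψ 1 x) = 0 := by
    set a0 := ∫ x in Q, ψ 0 x
    set a1 := ∫ x in Q, ψ 1 x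
    by_cases h0 : a0 ^ 2 + a1 ^ 2 = 0
    · have e0 : a0 = 0 := by nlinarith [sq_nonneg a0, sq_nonneg a1]
      have e1 : a1 = 0 := by nlinarith [sq_nonneg a0, sq_nonneg a1]
      refine ⟨![1, 0], by simp, by simp [e0]⟩
    · have hpos : 0 < a0 ^ 2 + a1 ^ 2 := lt_of_le_of_ne (by positivity) (Ne.symm h0)
      set r := Real.sqrt (a0 ^ 2 + a1 ^ 2) with hr
      have hr0 : 0 < r := Real.sqrt_pos.2 hpos
      have hrr : r ^ 2 = a0 ^ 2 + a1 ^ 2 := Real.sq_sqrt hpos.le
      refine ⟨![a1 / r, -a0 / r], ?_, ?_⟩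
      · rw [Fin.sum_univ_two]
        simp only [Matrix.cons_val_zero, Matrix.cons_val_one]
        field_simp
        linarith
      · simp only [Matrix.cons_val_zero, Matrix.cons_val_one]
        field_simp
        ring
  set h : (P → ℝ) → ℝ := fun C => ∑ i, c i * ψ i C with hh
  have hh2 : ∀ C, h C = c 0 * ψ 0 C + c 1 * ψ 1 C := fun C => Fin.sum_univ_two _
  have hhCI : CI 𝒢 h := by
    have e : h = fun C => c 0 * ψ 0 C + c 1 * ψ 1 C := funext hh2
    rw [e]
    refine ⟨(contDiff_const.mul (hCI 0).sm).add (contDiff_const.mul (hCI 1).sm), ?_, ?_⟩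
    · have k1 : HasCompactSupport fun C => c 0 * ψ 0 C :=
        (hCI 0).supp.mul_left (f := fun _ => c 0)
      have k2 : HasCompactSupport fun C => c 1 * ψ 1 C :=
        (hCI 1).supp.mul_left (f := fun _ => c 1)
      exact k1.add k2
    · intro σ hσ x
      simp only [(hCI 0).inv σ hσ x, (hCI 1).inv σ hσ x]
  have hqh : qf V.v h ≤ lam + d := by
    have := hqf c
    have hc1' : ∑ i : Fin (1 + 1), c i ^ 2 = 1 := hc1
    rw [hc1', mul_one] at this
    exact this.trans hE.le
  have hcont0 := (hCI 0).sm.continuous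
  have hcont1 := (hCI 1).sm.continuous
  have hhc := hhCI.sm.continuous
  have hnorm : ∫ C, h C ^ 2 = 1 := by
    have i00 : Integrable fun C => ψ 0 C * ψ 0 C :=
      (hcont0.mul hcont0).integrable_of_hasCompactSupport ((hCI 0).supp.mul_left)
    have i01 : Integrable fun C => ψ 0 C * ψ 1 C :=
      (hcont0.mul hcont1).integrable_of_hasCompactSupport ((hCI 1).supp.mul_left)
    have i11 : Integrable fun C => ψ 1 C * ψ 1 C :=
      (hcont1.mul hcont1).integrable_of_hasCompactSupport ((hCI 1).supp.mul_left)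
    have e : ∀ C, h C ^ 2 = (c 0 ^ 2 * (ψ 0 C * ψ 0 C) + 2 * c 0 * c 1 * (ψ 0 C * ψ 1 C)) +
        c 1 ^ 2 * (ψ 1 C * ψ 1 C) := fun C => by rw [hh2]; ring
    simp_rw [e]
    have j1 : Integrable fun C => c 0 ^ 2 * (ψ 0 C * ψ 0 C) + 2 * c 0 * c 1 * (ψ 0 C * ψ 1 C) :=
      (i00.const_mul _).add (i01.const_mul _)
    rw [integral_add j1 (i11.const_mul _), integral_add (i00.const_mul _) (i01.const_mul _),
      integral_const_mul, integral_const_mul, integral_const_mul, horth 0 0, horth 0 1,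
      horth 1 1]
    rw [Fin.sum_univ_two] at hc1
    simp
    linarith
  have hzero : ∫ x in Q, h x = 0 := by
    have i0 : IntegrableOn (ψ 0) Q := hcont0.continuousOn.integrableOn_compact hQc
    have i1 : IntegrableOn (ψ 1) Q := hcont1.continuousOn.integrableOn_compact hQc
    simp_rw [hh2]
    rw [integral_add (i0.const_mul _) (i1.const_mul _), integral_const_mul, integral_const_mul]
    exact hc0
  have hh1 := ci_c1 hhCI
  -- the logarithm
  obtain ⟨k, hk1, hkK, hkp, hkm⟩ := hLOG h hhCI hnorm hqh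
  rw [hϵL] at hkp hkm
  set Ap := Q ∩ {x | Real.sqrt ϵ ≤ h x} with hAp
  set Am := Q ∩ {x | h x ≤ -Real.sqrt ϵ} with hAm
  have hApm : MeasurableSet Ap := hQm.inter (isClosed_le continuous_const hhc).measurableSet
  have hAmm : MeasurableSet Am := hQm.inter (isClosed_le hhc continuous_const).measurableSet
  have hprod : (volume Ap).toReal * (volume Am).toReal * (4 * L ^ 2) ≤ M := by
    have hP := hPOIN (2 * R) (fun _ => -R) k (by positivity) hk1
    rw [hQe] at hP
    have hkc := hk1.continuous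
    have hF : Continuous fun p : (P → ℝ) × (P → ℝ) => (k p.1 - k p.2) ^ 2 := by fun_prop
    have hin : ∀ x ∈ Q, Ap.indicator (fun _ => (4 * L ^ 2) * (volume Am).toReal) x ≤
        ∫ y in Q, (k x - k y) ^ 2 := by
      intro x hx
      by_cases hxA : x ∈ Ap
      · rw [indicator_of_mem hxA]
        have e1 : (4 * L ^ 2) * (volume Am).toReal = ∫ y in Q, Am.indicator (fun _ => 4 * L ^ 2) y := by
          rw [setIntegral_indicator hAmm, setIntegral_const, smul_eq_mul, measureReal_def,
            inter_eq_right.2 (show Am ⊆ Q from inter_subset_left), mul_comm]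
        rw [e1]
        apply setIntegral_mono_on
        · exact (continuous_const.continuousOn.integrableOn_compact hQc).indicator hAmm
        · exact (hF.comp (Continuous.prodMk_right x)).continuousOn.integrableOn_compact hQc
        · exact hQm
        · intro y _
          by_cases hyA : y ∈ Am
          · rw [indicator_of_mem hyA]
            have a1 := hkp x hxA.2
            have a2 := hkm y hyA.2
            nlinarith
          · rw [indicator_of_notMem hyA]; exact sq_nonneg _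
      · rw [indicator_of_notMem hxA]
        exact integral_nonneg fun _ => sq_nonneg _
    have h5 : (volume Ap).toReal * ((4 * L ^ 2) * (volume Am).toReal) ≤
        ∫ x in Q, ∫ y in Q, (k x - k y) ^ 2 := by
      have e2 : (volume Ap).toReal * ((4 * L ^ 2) * (volume Am).toReal) =
          ∫ x in Q, Ap.indicator (fun _ => (4 * L ^ 2) * (volume Am).toReal) x := by
        rw [setIntegral_indicator hApm, setIntegral_const, smul_eq_mul, measureReal_def,
          inter_eq_right.2 (show Ap ⊆ Q from inter_subset_left)]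
      rw [e2]
      apply setIntegral_mono_on
      · exact (continuous_const.continuousOn.integrableOn_compact hQc).indicator hApm
      · exact (int_prod (μ := volume) (ν := volume) hQc hQc hF).integral_prod_left
      · exact hQm
      · exact hin
    calc (volume Ap).toReal * (volume Am).toReal * (4 * L ^ 2)
        = (volume Ap).toReal * ((4 * L ^ 2) * (volume Am).toReal) := by ring
      _ ≤ ∫ x in Q, ∫ y in Q, (k x - k y) ^ 2 := h5
      _ ≤ KP * (2 * R) ^ (Fintype.card P + 2) * ∫ x in Q, g2 k x := hP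
      _ ≤ M := mul_le_mul_of_nonneg_left hkK (by positivity)
  -- one of the two sets is small
  set m := Real.sqrt M / (2 * L) with hm
  have hm0 : 0 < m := by
    have := Real.sqrt_pos.2 hM0
    positivity
  have hmm : m ^ 2 * (4 * L ^ 2) = M := by
    rw [hm, div_pow, Real.sq_sqrt hM0.le]
    field_simp
    ring
  have hsmall : (volume Ap).toReal ≤ m ∨ (volume Am).toReal ≤ m := by
    by_contra hno
    push Not at hno
    have k1 : m * m < (volume Ap).toReal * (volume Am).toReal :=
      mul_lt_mul'' hno.1 hno.2 hm0.le hm0.le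
    have k2 : 0 < 4 * L ^ 2 := by positivity
    nlinarith [mul_lt_mul_of_pos_right k1 k2]
  have hQ2 : ∫ x in Q, h x ^ 2 ≤ 1 := by
    rw [← hnorm]
    exact setIntegral_le_integral (int_sq hhc hhCI.supp) (Eventually.of_forall fun _ => sq_nonneg _)
  have hl1 : ∫ x in Q, |h x| ≤ 2 * (Real.sqrt ϵ * (volume Q).toReal + Real.sqrt m) := by
    rcases hsmall with hs | hs
    · have := l1_small hQc (h := fun x => -h x) hhc.neg (by rw [integral_neg, hzero, neg_zero])
        (by simpa using hQ2) (Real.sqrt_nonneg ϵ) hm0 (by simpa [hAp] using hs)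
      simpa using this
    · exact l1_small hQc hhc hzero hQ2 (Real.sqrt_nonneg ϵ) hm0 hs
  have hl0 : 0 ≤ ∫ x in Q, |h x| := integral_nonneg fun _ => abs_nonneg _
  -- conclusion
  have hN := hNASH h hh1
  have hmass := cube_mass V hh1 hhCI.supp hnorm hR hqh (by nlinarith)
  have hg2 : ∫ x in Q, g2 h x ≤ 2 * (|lam| + 1) := by
    have k1 : ∫ x in Q, g2 h x ≤ ∫ x, g2 h x :=
      setIntegral_le_integral (int_g2 hh1 hhCI.supp) (Eventually.of_forall fun _ => g2_nonneg _ _)
    have k2 := qf_eq hh1 hhCI.supp V.cont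
    have k3 : 0 ≤ ∫ C, V.v C * h C ^ 2 :=
      integral_nonneg fun C => mul_nonneg (V.nonneg C) (sq_nonneg _)
    linarith
  have hA1 : 1 / (8 * (|lam| + 1)) * ∫ x in Q, g2 h x ≤ 1 / 4 := by
    calc 1 / (8 * (|lam| + 1)) * ∫ x in Q, g2 h x ≤ 1 / (8 * (|lam| + 1)) * (2 * (|lam| + 1)) :=
          mul_le_mul_of_nonneg_left hg2 (by positivity)
      _ = 1 / 4 := by field_simp; norm_num
  have hA2 : K' * (∫ x in Q, |h x|) ^ 2 < 1 / 2 := by
    refine lt_of_le_of_lt ?_ hL2
    apply mul_le_mul_of_nonneg_left _ hK'.le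
    apply pow_le_pow_left₀ hl0
    rw [← hϵs]
    exact hl1
  linarith

end Pool.Agent.Q150.LU
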