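import Pool.Agent.Q150.LU.UPPU
import Pool.Agent.Q16.LU.GUPP

/-! # Project LU (helper77), job GUPPU: upper bound of the levels on all gauge invariant functions,
uniform version (helper150, after helper16) -/

set_option autoImplicit false
set_option linter.unusedSectionVars false

open MeasureTheory Matrix Set Filter Topology
open scoped ContDiff Matrix.Norms.Frobenius

namespace Pool.Agent.Q150.LU

open Pool.Agent.Q77.LU
open Pool.Agent.Q16.LU (exists_rad near_opt hat hat_pull hat_smooth hat_gauge hat_centre hat_orb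
  orb_disj cz sm_comb' glevel_le)

theorem invR_mono {N n D l : ℕ} {G : Subgroup (UU N)} [NeZero l] {B : LieBasis G n}
    {dc : Dec B D l} {r r' : ℝ} (h : InvR dc r) (h0 : 0 < r') (h1 : r' ≤ r) : InvR dc r' := by
  refine ⟨h0, ?_, fun ρ hρ hρ' => h.opn ρ hρ (hρ'.trans h1), fun ρ hρ hρ' V hV =>
    h.bal ρ hρ (hρ'.trans h1) V fun e => (hV e).trans_le (mul_le_mul_of_nonneg_right h1 hρ.le)⟩
  obtain ⟨Ξ, hΞ, hx⟩ := h.inv
  exact ⟨Ξ, hΞ, fun x hxx => hx x (hxx.trans_le (pow_le_pow_left₀ h0.le h1 2))⟩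

theorem uniR_mono {N n D l : ℕ} {G : Subgroup (UU N)} [NeZero l] {B : LieBasis G n}
    {dc : Dec B D l} {r r' : ℝ} (h : UniR dc r) (h0 : 0 < r') (h1 : r' ≤ r) : UniR dc r' := by
  have h2 : r' ^ 2 ≤ r ^ 2 := pow_le_pow_left₀ h0.le h1 2
  exact ⟨h0, fun γ z x y hz hx hy => h.uniq γ z x y hz (hx.trans_le h2) (hy.trans_le h2),
    fun ρ hρ hρ' => h.opn ρ hρ (hρ'.trans h1)⟩

theorem t_GUPPU (h0 : S_DEC) (h1 : S_CHARTU) (h2 : S_UPBU) (h3 : S_PULL) (h4 : S_TINV)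
    (h5 : S_SYMM) (h6 : S_GS) (h7 : S_EZ) (h8 : S_FINC) (h9 : S_LIFTU) (h10 : S_UNIQU)
    (h11 : S_INVU) : S_GUPPU := by
  intro N n D G hG hconn B _ _ μ _ _ hNC hD hn
  obtain ⟨p0, C0, κ0, hC0, hκ0, hch⟩ := h1 N n D G hG B μ hNC hD
  obtain ⟨p1, hup⟩ := h2 (Fin D × Fin n)
  obtain ⟨p2, C2, hC2, huni⟩ := h10 N n D G hG B hNC
  obtain ⟨p3, C3, hC3, hinv⟩ := h11 N n D G hG B
  refine ⟨3 * ((p0 + p2 + p3) * (p1 + 2)) + D, fun k ε hε => ?_⟩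
  have hfin := h8 N n G hG B hNC
  have hft : Fintype (Fin D → Subgroup.center G) := Fintype.ofFinite _
  have hne : Nonempty (Fin D × Fin n) := ⟨(⟨0, by omega⟩, ⟨0, by omega⟩)⟩
  obtain ⟨q, hq⟩ : ∃ q, q = k / Nat.card (Subgroup.center G) ^ D := ⟨_, rfl⟩
  obtain ⟨lam, hlam⟩ : ∃ lam, lam = lev (vred B D) (AdS B D) q := ⟨_, rfl⟩
  obtain ⟨hvc, hvn⟩ : Continuous (vred B D) ∧ ∀ C, 0 ≤ vred B D C := by
    obtain ⟨dc⟩ := h0 N n D 1 G hG B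
    obtain ⟨L, hL, -⟩ := hch 1 dc
    rw [← hL.v]; exact ⟨L.cont, L.nonneg⟩
  have hlam0 : 0 ≤ lam := by rw [hlam]; exact lev_nonneg hvn _ _
  have h𝒢 : ∀ σ ∈ AdS B D, ∀ x, n2 (σ x) = n2 x := by
    rintro _ ⟨h, rfl⟩ x
    obtain ⟨dc⟩ := h0 N n D 1 G hG B
    exact (h5 N n D 1 G hG B dc h (x, 0)).2.1
  obtain ⟨ε1, hε1d⟩ : ∃ ε1 : ℝ, ε1 = ε / 4 := ⟨_, rfl⟩
  have hε1 : 0 < ε1 := by rw [hε1d]; positivity
  obtain ⟨ψ, hψ1, hψ2, hψ3⟩ := near_opt hvc h𝒢 q hε1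
  rw [← hlam] at hψ3
  obtain ⟨R, hR, hRs⟩ := exists_rad hψ1
  obtain ⟨C1, hC1, hUP⟩ := hup (vred B D) R hvc hR
  obtain ⟨A, hA⟩ : ∃ A, A = 1 + 2 * (lam + ε1) := ⟨_, rfl⟩
  have hA0 : 0 < A := by rw [hA]; positivity
  obtain ⟨B0, hB0d⟩ : ∃ B0, B0 = 2 * (C0 * C2 * C3) := ⟨_, rfl⟩
  have hC23 : 1 ≤ C2 * C3 := by nlinarith
  have hC02 : 1 ≤ C0 * C2 := by nlinarith
  have hC023 : 1 ≤ C0 * C2 * C3 := by nlinarith
  have hB0 : 1 ≤ B0 := by rw [hB0d]; linarith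
  refine ⟨(C1 * B0 ^ (p1 + 2) * ((A + 1 + lam + ε) * (2 / ε) + 2)) ^ 3, ?_,
    fun l _ g hg hcond => ?_⟩
  · apply one_le_pow₀
    have a1 : 1 ≤ B0 ^ (p1 + 2) := one_le_pow₀ hB0
    have a3 : 1 ≤ C1 * B0 ^ (p1 + 2) := by nlinarith
    have a4 : 0 ≤ (A + 1 + lam + ε) * (2 / ε) := by positivity
    nlinarith
  obtain ⟨dc⟩ := h0 N n D l G hG B
  obtain ⟨L, hL, hbd, hκ⟩ := hch l dc
  have hv : L.v = vred B D := hL.v
  have he0 : L.e0 = ezero n D l := by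
    unfold Loc.e0; rw [hL.om, dc.sum]; exact h7 N n D l G hG B
  have hl1 : (1:ℝ) ≤ l := by exact_mod_cast Nat.one_le_iff_ne_zero.2 (NeZero.ne l)
  obtain ⟨c0, hc⟩ : ∃ c0 : ℝ, c0 = (l : ℝ) ^ (-(D : ℝ) / 3) := ⟨_, rfl⟩
  obtain ⟨Λ, hΛ⟩ : ∃ Λ, Λ = B0 * (l : ℝ) ^ (p0 + p2 + p3) := ⟨_, rfl⟩
  obtain ⟨K, hKd⟩ : ∃ K, K = C1 * Λ ^ p1 := ⟨_, rfl⟩
  have e0' : 1 ≤ (l : ℝ) ^ p0 := one_le_pow₀ hl1
  have e2' : 1 ≤ (l : ℝ) ^ p2 := one_le_pow₀ hl1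
  have e3' : 1 ≤ (l : ℝ) ^ p3 := one_le_pow₀ hl1
  -- the three sizes are at most `Λ / 2`
  obtain ⟨s0, hs0⟩ : ∃ s0, s0 = C0 * (l : ℝ) ^ p0 := ⟨_, rfl⟩
  obtain ⟨s2, hs2⟩ : ∃ s2, s2 = C2 * (l : ℝ) ^ p2 := ⟨_, rfl⟩
  obtain ⟨s3, hs3⟩ : ∃ s3, s3 = C3 * (l : ℝ) ^ p3 := ⟨_, rfl⟩
  have hs01 : 1 ≤ s0 := by rw [hs0]; nlinarith
  have hs21 : 1 ≤ s2 := by rw [hs2]; nlinarith
  have hs31 : 1 ≤ s3 := by rw [hs3]; nlinarith
  have hΛs : Λ = 2 * (s0 * s2 * s3) := by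
    rw [hΛ, hB0d, hs0, hs2, hs3, pow_add, pow_add]; ring
  have t23 : 1 ≤ s2 * s3 := by nlinarith
  have t02 : 1 ≤ s0 * s2 := by nlinarith
  have t03 : 1 ≤ s0 * s3 := by nlinarith
  have u0 : 2 * s0 ≤ Λ := by
    have := mul_le_mul_of_nonneg_left t23 (show 0 ≤ s0 by linarith)
    rw [hΛs]; linarith
  have u2 : 2 * s2 ≤ Λ := by
    have := mul_le_mul_of_nonneg_left t03 (show 0 ≤ s2 by linarith)
    rw [hΛs]; linarith
  have u3 : 2 * s3 ≤ Λ := by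
    have := mul_le_mul_of_nonneg_left t02 (show 0 ≤ s3 by linarith)
    rw [hΛs]; linarith
  have hbd' : Bd L Λ := bd_mono hbd (by rw [← hs0]; linarith)
  obtain ⟨he00, he01⟩ := e0_le hbd'
  obtain ⟨w, hw⟩ : ∃ w, w = g ^ (2 / 3 : ℝ) := ⟨_, rfl⟩
  have hEg : L.E g = w * c0 := by
    rw [Q150.LU.E_eq L hg, hL.c4, Q150.LU.c4_rpow, hc, hw]
  obtain ⟨hΛ1, hK, hgg1, hw0, hw1, hc0, hc1, hKg, hsm⟩ :=
    uppC (l := l) (D := D) (a := p0 + p2 + p3) (e0 := L.e0) hB0 hC1 hε hA0.le hlam0 hΛ hKd he01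
      hg hc hw hcond
  -- the radius
  obtain ⟨r0, hr0⟩ : ∃ r0, r0 = min s2⁻¹ s3⁻¹ := ⟨_, rfl⟩
  have hr00 : 0 < r0 := by rw [hr0]; positivity
  have hLr := L.rpos
  have hI : InvR dc r0 := invR_mono (hinv l dc) hr00 (by rw [hr0, ← hs3]; exact min_le_right _ _)
  have hU : UniR dc r0 := uniR_mono (huni l dc) hr00 (by rw [hr0, ← hs2]; exact min_le_left _ _)
  obtain ⟨δ, hδ⟩ : ∃ δ : ℝ, δ = min L.r r0 / 2 := ⟨_, rfl⟩
  have hmin : 0 < min L.r r0 := lt_min hLr hr00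
  have hδ0 : 0 < δ := by rw [hδ]; positivity
  have hδm : δ < min L.r r0 := by rw [hδ]; linarith
  have hδr : δ < L.r := lt_of_lt_of_le hδm (min_le_left _ _)
  have hδ1 : δ < r0 := lt_of_lt_of_le hδm (min_le_right _ _)
  have hΛ2 : (Λ / 2)⁻¹ = 2 * Λ⁻¹ := by rw [inv_div]; rfl
  have hδΛ : Λ⁻¹ ≤ δ := by
    have v0 : (Λ / 2)⁻¹ ≤ s0⁻¹ := inv_anti₀ (by linarith) (by linarith)
    have v2 : (Λ / 2)⁻¹ ≤ s2⁻¹ := inv_anti₀ (by linarith) (by linarith)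
    have v3 : (Λ / 2)⁻¹ ≤ s3⁻¹ := inv_anti₀ (by linarith) (by linarith)
    have v1 := hbd.r1
    rw [← hs0] at v1
    have v4 : (Λ / 2)⁻¹ ≤ min L.r r0 := le_min (v0.trans v1) (by rw [hr0]; exact le_min v2 v3)
    rw [hΛ2] at v4
    rw [hδ]; linarith
  have hlift := h9 N n D G hG B hNC l dc r0 hI hU
  have huniq := hU.uniq
  have hupb := hUP (Fin dc.M) L δ Λ K hv hbd' hδΛ hδr.le hKd g hg hgg1
  -- the combinations
  have hcomb : ∀ c : Fin (q + 1) → ℝ, ContDiff ℝ ∞ (fun C => ∑ i, c i * ψ i C) ∧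
      (∀ C, (∑ i, c i * ψ i C) ≠ 0 → n2 C ≤ R ^ 2) ∧
      ∫ C, (∑ i, c i * ψ i C) ^ 2 = ∑ i, c i ^ 2 ∧
      qf L.v (fun C => ∑ i, c i * ψ i C) ≤ (lam + ε1) * ∑ i, c i ^ 2 ∧
      ∫ C, ((∑ i, c i * ψ i C) ^ 2 + g2 (fun C => ∑ i, c i * ψ i C) C) ≤
        (1 + 2 * (lam + ε1)) * ∑ i, c i ^ 2 := by
    intro c
    have hci := Q150.LU.ci_comb hψ1 c
    have k1 : ∫ C, (∑ i, c i * ψ i C) ^ 2 = ∑ i, c i ^ 2 := Q150.LU.norm_comb volume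
      (Q150.LU.fam_int (fun i => (hψ1 i).sm.continuous) fun i => (hψ1 i).supp) hψ2 c
    have k2 : qf L.v (fun C => ∑ i, c i * ψ i C) ≤ (lam + ε1) * ∑ i, c i ^ 2 := by
      rw [hv]; exact hψ3 c
    refine ⟨hci.sm, ?_, k1, k2, ?_⟩
    · intro C hC
      obtain ⟨i, -, hi⟩ := Finset.exists_ne_zero_of_sum_ne_zero hC
      exact hRs i C (right_ne_zero_of_mul hi)
    · have hc1 := Q150.LU.ci_c1 hci
      rw [integral_add (Q150.LU.int_sq hc1.continuous hci.supp) (Q150.LU.int_g2 hc1 hci.supp), k1]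
      rw [Q150.LU.qf_eq hc1 hci.supp L.cont] at k2
      have k3 : 0 ≤ ∫ C, L.v C * (∑ i, c i * ψ i C) ^ 2 :=
        integral_nonneg fun C => mul_nonneg (L.nonneg C) (sq_nonneg _)
      linarith
  -- the lifts
  have htr := fun i => hupb (ψ i) (hψ1 i).sm (hRs i)
  have htinv : ∀ i (h : G) x, L.trial g δ (ψ i) (dc.sg h x) = L.trial g δ (ψ i) x := by
    intro i h x
    exact (h4 _ _ L (adF B h) (Q176.LU.tauh dc h) (fun t x => Q176.LU.adF_smul B h t x)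
      (fun a => (h5 N n D l G hG B dc h (0, a)).2.2.1)
      (fun a => by rw [hL.om]; exact (h5 N n D l G hG B dc h (0, a)).2.2.2.1)
      (fun C a => hL.Jinv h (C, a)) g hg).2 (ψ i) δ
      (fun C => (hψ1 i).inv _ ⟨h, rfl⟩ C) x.1 x.2
  have hF := fun i => (hlift δ hδ0 hδ1 (L.trial g δ (ψ i)) (htr i).1 (htr i).2.1 (htinv i)).2
  choose F hF1 hF2 hF3 hF4 using hF
  have hHorb : ∀ c : Fin (q + 1) → ℝ, ∀ U, (∑ i, c i * F i U) ≠ 0 → Orb1 dc δ U := by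
    intro c U hU
    obtain ⟨i, -, hi⟩ := Finset.exists_ne_zero_of_sum_ne_zero hU
    exact hF4 i U (right_ne_zero_of_mul hi)
  have hd : ∀ i j, ∀ z z' : Fin D → Subgroup.center G, z ≠ z' → ∀ U,
      F i (centre (cz z) U) * F j (centre (cz z') U) = 0 := by
    intro i j z z' hz U
    by_contra hne
    exact hz (orb_disj hδ0.le hδ1.le huniq (hF4 i _ (left_ne_zero_of_mul hne))
      (hF4 j _ (right_ne_zero_of_mul hne)))
  have hpull : ∀ c : Fin (q + 1) → ℝ, dc.pull L.r (hat fun U => ∑ i, c i * F i U) =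
      L.trial g δ (fun C => ∑ i, c i * ψ i C) := by
    intro c
    refine hat_pull hL hδ0 hδ1.le hδr.le huniq (hHorb c)
      (hupb _ (hcomb c).1 (hcomb c).2.1).2.1 fun x hx => ?_
    rw [trial_comb]
    refine Finset.sum_congr rfl fun i _ => ?_
    rw [hF3 i x (hx.trans (pow_lt_pow_left₀ hδ1 hδ0.le two_ne_zero))]
  obtain ⟨E, hEd⟩ : ∃ E : ℝ, E = L.e0 + L.E g * (lam + ε1) + K * g * (1 + 2 * (lam + ε1)) :=
    ⟨_, rfl⟩
  have hE0 : 0 ≤ E := by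
    rw [hEd, hEg]; positivity
  have hβ : 0 < 1 - K * g := by linarith
  have hcard : k + 1 ≤ (q + 1) * Fintype.card (Fin D → Subgroup.center G) := by
    have k1 : Fintype.card (Fin D → Subgroup.center G) = Nat.card (Subgroup.center G) ^ D := by
      rw [← Nat.card_eq_fintype_card, Nat.card_fun, Nat.card_eq_fintype_card (α := Fin D),
        Fintype.card_fin]
    have k2 : 0 < Nat.card (Subgroup.center G) ^ D := by
      rw [← k1]; exact Fintype.card_pos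
    rw [k1, hq]
    have k3 := Nat.div_add_mod k (Nat.card (Subgroup.center G) ^ D)
    have k4 := Nat.mod_lt k k2
    nlinarith
  have hmain := glevel_le h6 hG B μ g k q hcard hF1 hF2 hd hβ hE0 (fun c => by
      obtain ⟨p1, p2, p3, p4, p5⟩ := h3 N n D l G hG B μ dc L hL δ hδ0 hδr _
        (hat_smooth (sm_comb' hF1 c)) (hat_gauge (Q150.LU.gi_comb hF2 c)) (hat_centre _)
        (hat_orb (hHorb c))
      obtain ⟨u1, u2, u3, u4, u5⟩ := hupb _ (hcomb c).1 (hcomb c).2.1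
      rw [p4, hpull c]
      rw [(hcomb c).2.2.1] at u3
      exact u3) (fun c => by
      obtain ⟨p1, p2, p3, p4, p5⟩ := h3 N n D l G hG B μ dc L hL δ hδ0 hδr _
        (hat_smooth (sm_comb' hF1 c)) (hat_gauge (Q150.LU.gi_comb hF2 c)) (hat_centre _)
        (hat_orb (hHorb c))
      obtain ⟨u1, u2, u3, u4, u5⟩ := hupb _ (hcomb c).1 (hcomb c).2.1
      have k1 := (p5 g hg).2
      rw [hpull c] at k1
      refine (k1.trans u5).trans ?_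
      rw [(hcomb c).2.2.1, hEd]
      have k2 := mul_le_mul_of_nonneg_left (hcomb c).2.2.2.1
        (show 0 ≤ L.E g by rw [hEg]; positivity)
      have k3 := mul_le_mul_of_nonneg_left (hcomb c).2.2.2.2
        (show 0 ≤ K * g by positivity)
      linarith)
  rw [← hq, ← hlam, ← hc, ← he0, ← hw]
  refine hmain.trans ?_
  have hEe : E = L.e0 + w * c0 * (lam + ε / 4) + K * g * A := by
    rw [hEd, hEg, hA, hε1d]
  rw [hEe]
  exact uppEnd hK hg hε hlam0 hw0 hw1 hc0 hc1 hKg hsm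

end Pool.Agent.Q150.LU
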