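import Pool.Agent.Q222.LU.FLUX
import Pool.Agent.Q77.LU.StmU

/-! # Project LU (helper77), job IMSU: localisation formula with the function `tau`, uniform version
(helper150, after helper75 and helper222) -/

set_option autoImplicit false
set_option linter.unusedSectionVars false

open MeasureTheory Matrix Set Filter Topology
open scoped ContDiff Matrix.Norms.Frobenius

namespace Pool.Agent.Q150.LU

open Pool.Agent.Q77.LU
open Pool.Agent.Q222.LU (gr gr_nonneg gr_cont gr_ims energy_eq)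

theorem thn_smooth (δ : ℝ) : ContDiff ℝ ∞ (thn δ) := by
  have h1 : ContDiff ℝ ∞ fun t : ℝ => 2 * t / δ - 1 := by fun_prop
  exact contDiff_const.mul ((Real.smoothTransition.contDiff (n := ⊤)).comp h1)

theorem st_deriv_bd : ∃ M : ℝ, 0 ≤ M ∧ ∀ t, |deriv Real.smoothTransition t| ≤ M := by
  have hc : Continuous (deriv Real.smoothTransition) :=
    (Real.smoothTransition.contDiff (n := ⊤)).continuous_deriv (by simp)
  obtain ⟨M, hM⟩ := (isCompact_Icc (a := (0:ℝ)) (b := 1)).exists_bound_of_continuousOn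
    hc.continuousOn
  refine ⟨max M 0, le_max_right _ _, fun t => ?_⟩
  by_cases h0 : t < 0
  · have h1 : Real.smoothTransition =ᶠ[𝓝 t] fun _ => 0 := by
      filter_upwards [Iio_mem_nhds h0] with s hs
      exact Real.smoothTransition.zero_of_nonpos (le_of_lt hs)
    rw [h1.deriv_eq, deriv_const, abs_zero]
    exact le_max_right _ _
  by_cases h2 : 1 < t
  · have h1 : Real.smoothTransition =ᶠ[𝓝 t] fun _ => 1 := by
      filter_upwards [Ioi_mem_nhds h2] with s hs
      exact Real.smoothTransition.one_of_one_le (le_of_lt hs)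
    rw [h1.deriv_eq, deriv_const, abs_zero]
    exact le_max_right _ _
  · exact (hM t ⟨not_lt.1 h0, not_lt.1 h2⟩).trans (le_max_left _ _)

theorem thn_deriv {M δ : ℝ} (hM : ∀ t, |deriv Real.smoothTransition t| ≤ M)
    (hδ : 0 < δ) (t : ℝ) : |deriv (thn δ) t| ≤ Real.pi * M * δ⁻¹ := by
  have h1 : HasDerivAt (fun t : ℝ => 2 * t / δ - 1) (2 * 1 / δ) t :=
    (((hasDerivAt_id t).const_mul 2).div_const δ).sub_const 1
  have h2 : HasDerivAt Real.smoothTransition (deriv Real.smoothTransition (2 * t / δ - 1))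
      (2 * t / δ - 1) :=
    ((Real.smoothTransition.contDiff (n := ⊤)).differentiable (by simp) _).hasDerivAt
  have h3 : HasDerivAt (thn δ) (Real.pi / 2 * (deriv Real.smoothTransition (2 * t / δ - 1) *
      (2 * 1 / δ))) t := (h2.comp t h1).const_mul (Real.pi / 2)
  rw [h3.deriv]
  have h4 := hM (2 * t / δ - 1)
  have hpi := Real.pi_pos
  have e1 : Real.pi / 2 * (deriv Real.smoothTransition (2 * t / δ - 1) * (2 * 1 / δ)) =
      Real.pi * δ⁻¹ * deriv Real.smoothTransition (2 * t / δ - 1) := by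
    field_simp
  rw [e1, abs_mul, abs_of_pos (show 0 < Real.pi * δ⁻¹ by positivity)]
  calc Real.pi * δ⁻¹ * |deriv Real.smoothTransition (2 * t / δ - 1)| ≤ Real.pi * δ⁻¹ * M :=
        mul_le_mul_of_nonneg_left h4 (by positivity)
    _ = _ := by ring

theorem t_IMSU (h1 : S_GRADT) (h2 : S_HC) : S_IMSU := by
  intro N n D G hG B _ _ μ _ _
  obtain ⟨p, C, hC, hgrad⟩ := h1 N n D G hG B
  obtain ⟨M, hM0, hM⟩ := st_deriv_bd
  refine ⟨p, 1 + (Real.pi * M) ^ 2 * C, by
    have : 0 ≤ (Real.pi * M) ^ 2 * C := by positivity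
    linarith, fun l _ δ hδ _ => ?_⟩
  have hτ : IsSmooth (tau B : (Link D l → G) → ℝ) := (h2 N n D l G hG B).2.2.2.1
  have hθ : IsSmooth fun U : Link D l → G => thn δ (tau B U) := hτ.comp (thn_smooth δ)
  have hcs : IsSmooth fun U : Link D l → G => Real.cos (thn δ (tau B U)) :=
    hθ.comp Real.contDiff_cos
  have hss : IsSmooth fun U : Link D l → G => Real.sin (thn δ (tau B U)) :=
    hθ.comp Real.contDiff_sin
  refine ⟨hcs, hss, fun g hg F hF => ?_⟩
  have hc : IsSmooth fun U => Real.cos (thn δ (tau B U)) * F U := hcs.mul hF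
  have hs : IsSmooth fun U => Real.sin (thn δ (tau B U)) * F U := hss.mul hF
  have hm : Continuous fun U : Link D l → G => magnetic U := (smooth_magnetic B).continuous
  have hi : ∀ {F : (Link D l → G) → ℝ}, IsSmooth F → Integrable
      (fun U => g ^ 2 / 2 * gr B F U + 1 / g ^ 2 * (magnetic U * F U ^ 2))
      (Measure.pi fun _ : Link D l => μ) := fun hF =>
    integrable_links μ hG ((continuous_const.mul (gr_cont B hF)).add
      (continuous_const.mul (hm.mul (hF.continuous.pow 2))))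
  have h2' : Integrable (fun U => g ^ 2 / 2 * (gr B (fun U => thn δ (tau B U)) U * F U ^ 2))
      (Measure.pi fun _ : Link D l => μ) :=
    integrable_links μ hG (continuous_const.mul ((gr_cont B hθ).mul (hF.continuous.pow 2)))
  have h3 : energy B μ g (fun U => Real.cos (thn δ (tau B U)) * F U) +
      energy B μ g (fun U => Real.sin (thn δ (tau B U)) * F U) = energy B μ g F +
      ∫ U, g ^ 2 / 2 * (gr B (fun U => thn δ (tau B U)) U * F U ^ 2)
        ∂(Measure.pi fun _ : Link D l => μ) := by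
    rw [energy_eq μ hG B g hc, energy_eq μ hG B g hs, energy_eq μ hG B g hF,
      ← integral_add (hi hc) (hi hs), ← integral_add (hi hF) h2']
    refine integral_congr_ae (ae_of_all _ fun U => ?_)
    simp only
    have h4 := gr_ims B hθ hF U
    have h5 := Real.sin_sq_add_cos_sq (thn δ (tau B U))
    linear_combination g ^ 2 / 2 * h4 + 1 / g ^ 2 * magnetic U * F U ^ 2 * h5
  rw [h3]
  have hgr : ∀ U : Link D l → G, gr B (fun U => thn δ (tau B U)) U ≤
      (Real.pi * M * δ⁻¹) ^ 2 * (C * (l : ℝ) ^ p) := by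
    intro U
    have k1 : gr B (fun U => thn δ (tau B U)) U =
        deriv (thn δ) (tau B U) ^ 2 * ∑ e, ∑ a, dlink B e a (tau B) U ^ 2 := by
      unfold gr
      rw [Finset.mul_sum]
      refine Finset.sum_congr rfl fun e _ => ?_
      rw [Finset.mul_sum]
      refine Finset.sum_congr rfl fun a _ => ?_
      rw [dlink_comp B ((thn_smooth δ).differentiable (by simp)) hτ, mul_pow]
    rw [k1]
    have k2 : deriv (thn δ) (tau B U) ^ 2 ≤ (Real.pi * M * δ⁻¹) ^ 2 := by
      rw [← sq_abs]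
      exact pow_le_pow_left₀ (abs_nonneg _) (thn_deriv hM hδ _) 2
    exact mul_le_mul k2 (hgrad l U) (Finset.sum_nonneg fun _ _ => Finset.sum_nonneg fun _ _ =>
      sq_nonneg _) (sq_nonneg _)
  have h6 : ∫ U, g ^ 2 / 2 * (gr B (fun U => thn δ (tau B U)) U * F U ^ 2)
        ∂(Measure.pi fun _ : Link D l => μ) ≤
      ∫ U, g ^ 2 / 2 * ((Real.pi * M * δ⁻¹) ^ 2 * (C * (l : ℝ) ^ p)) * F U ^ 2
        ∂(Measure.pi fun _ : Link D l => μ) := by
    apply integral_mono h2'
    · exact integrable_links μ hG (continuous_const.mul (hF.continuous.pow 2))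
    · intro U
      simp only
      rw [mul_assoc (g ^ 2 / 2)]
      exact mul_le_mul_of_nonneg_left (mul_le_mul_of_nonneg_right (hgr U) (sq_nonneg _))
        (by positivity)
  rw [integral_const_mul, integral_const_mul] at h6
  have h7 : 0 ≤ ∫ U, F U ^ 2 ∂(Measure.pi fun _ : Link D l => μ) :=
    integral_nonneg fun U => sq_nonneg _
  have h8 : g ^ 2 / 2 * ((Real.pi * M * δ⁻¹) ^ 2 * (C * (l : ℝ) ^ p)) ≤
      (1 + (Real.pi * M) ^ 2 * C) * (l : ℝ) ^ p * δ⁻¹ ^ 2 * g ^ 2 := by
    have k0 : 0 ≤ (l : ℝ) ^ p * δ⁻¹ ^ 2 * g ^ 2 := by positivity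
    have k1 : g ^ 2 / 2 * ((Real.pi * M * δ⁻¹) ^ 2 * (C * (l : ℝ) ^ p)) =
        (Real.pi * M) ^ 2 * C / 2 * ((l : ℝ) ^ p * δ⁻¹ ^ 2 * g ^ 2) := by ring
    have k2 : (1 + (Real.pi * M) ^ 2 * C) * (l : ℝ) ^ p * δ⁻¹ ^ 2 * g ^ 2 =
        (1 + (Real.pi * M) ^ 2 * C) * ((l : ℝ) ^ p * δ⁻¹ ^ 2 * g ^ 2) := by ring
    rw [k1, k2]
    apply mul_le_mul_of_nonneg_right _ k0
    have : 0 ≤ (Real.pi * M) ^ 2 * C := by positivity
    linarith
  have h9 := mul_le_mul_of_nonneg_right h8 h7
  rw [integral_const_mul]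
  linarith

end Pool.Agent.Q150.LU
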