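import Pool.Agent.Q230.LU.KIN
import Pool.Agent.Q77.LU.StmU

/-! # Project LU (helper77), job KINU: the kinetic energy in the chart, uniform version
(helper150, after helper230) -/

set_option autoImplicit false
set_option linter.unusedSectionVars false

open MeasureTheory Matrix Set Filter Topology
open scoped ContDiff Matrix.Norms.Frobenius

namespace Pool.Agent.Q150.LU

open Pool.Agent.H906R3 Pool.Agent.Q77.LU Pool.Agent.Q230.LU

/-- a field with the same gradient and explicit bound -/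
theorem grd_inv {n D l : ℕ} [NeZero l] {K0 : ℝ}
    (h : ∀ ζ : (Fin D → ZMod l) → ℝ, ∑ x, ζ x = 0 →
      ∑ x, ζ x ^ 2 ≤ K0 * ∑ x, ∑ i, (ζ (x + unitv i) - ζ x) ^ 2)
    (ζ : (Fin D → ZMod l) × Fin n → ℝ) :
    ∃ ζ' : (Fin D → ZMod l) × Fin n → ℝ, grd n D l ζ' = grd n D l ζ ∧
      n2 ζ' ≤ K0 * n2 (grd n D l ζ) := by
  obtain ⟨m, hm⟩ : ∃ m : Fin n → ℝ, m = fun a =>
    (∑ x : Fin D → ZMod l, ζ (x, a)) / Fintype.card (Fin D → ZMod l) := ⟨_, rfl⟩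
  obtain ⟨ζ', hζ'⟩ : ∃ ζ' : (Fin D → ZMod l) × Fin n → ℝ, ζ' = fun p => ζ p - m p.2 := ⟨_, rfl⟩
  have h1 : grd n D l ζ' = grd n D l ζ := by
    funext p
    rw [hζ']
    unfold grd
    simp only [LinearMap.coe_mk, AddHom.coe_mk]
    ring
  refine ⟨ζ', h1, ?_⟩
  rw [← h1]
  have h2 : ∀ a, ∑ x, ζ' (x, a) = 0 := by
    intro a
    rw [hζ', hm]
    simp only
    rw [Finset.sum_sub_distrib, Finset.sum_const, Finset.card_univ, nsmul_eq_mul]
    have : (Fintype.card (Fin D → ZMod l) : ℝ) ≠ 0 := by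
      exact_mod_cast Fintype.card_ne_zero
    rw [mul_div_cancel₀ _ this, sub_self]
  have h3 : n2 ζ' = ∑ a, ∑ x, ζ' (x, a) ^ 2 := by
    unfold n2
    rw [Fintype.sum_prod_type, Finset.sum_comm]
  have h4 : n2 (grd n D l ζ') =
      ∑ a, ∑ x, ∑ i : Fin D, (ζ' (x + unitv i, a) - ζ' (x, a)) ^ 2 := by
    unfold n2
    rw [sum_link, Finset.sum_comm]
    refine Finset.sum_congr rfl fun a _ => ?_
    rw [Finset.sum_comm]
    rfl
  rw [h3, h4, Finset.mul_sum]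
  exact Finset.sum_le_sum fun a _ => h (fun x => ζ' (x, a)) (h2 a)

theorem t_KINU (h1 : S_EXPG) (h2 : S_PCR) : S_KINU := by
  intro N n D G hG B
  have hB : HE B := h1 N n G hG B
  obtain ⟨p, C0, hC0, hpc⟩ := h2 D
  refine ⟨D + p, 12 + 8 * (D * C0), by nlinarith [Nat.cast_nonneg (α := ℝ) D, mul_nonneg (Nat.cast_nonneg (α := ℝ) D) (show (0:ℝ) ≤ C0 by linarith)], ?_⟩
  intro l _ dc F hFs hg x _
  obtain ⟨f, hf, hF⟩ := hFs
  have hl1 : (1:ℝ) ≤ l := by exact_mod_cast Nat.one_le_iff_ne_zero.2 (NeZero.ne l)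
  obtain ⟨K0, hK0⟩ : ∃ K0, K0 = C0 * (l : ℝ) ^ p := ⟨_, rfl⟩
  have hK00 : 0 ≤ K0 := by rw [hK0]; positivity
  obtain ⟨L, hL⟩ : ∃ L : ℝ, L = (Fintype.card (Link D l) : ℝ) := ⟨_, rfl⟩
  have hL0 : 0 ≤ L := by rw [hL]; positivity
  have hLe : L = (l : ℝ) ^ D * D := by
    rw [hL, Fintype.card_prod, Fintype.card_fun, ZMod.card, Fintype.card_fin]
    push_cast
    rfl
  obtain ⟨C, a, ζ, hd⟩ := dc.hodge (uu F dc x)
  have hu : ∀ p, uu F dc x p = cons D l C p + ∑ i, a i * dc.b i p + grd n D l ζ p := hd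
  rw [gC_ch hf hF hB dc C a ζ x hu, gA_ch hf hF hB dc C a ζ x hu]
  have h1 := u_sq dc C a ζ hu
  obtain ⟨h2, h3⟩ := uu_sq (F := F) hB dc x
  obtain ⟨ζ', hz, hz2⟩ := grd_inv (K0 := K0) (fun ζ hζ => by rw [hK0]; exact hpc l ζ hζ) ζ
  have h4 := grd_small hf hF hB dc hg ζ' x
  rw [u_grd dc C a ζ hu, hz, ← hL] at h4
  set W := ∑ e, ∑ a, dlink B e a F (dc.ch x) ^ 2 with hW
  set G2 := ∑ p, grd n D l ζ p ^ 2 with hG2
  have hG0 : 0 ≤ G2 := Finset.sum_nonneg fun _ _ => sq_nonneg _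
  have hW0 : 0 ≤ W := Finset.sum_nonneg fun _ _ => Finset.sum_nonneg fun _ _ => sq_nonneg _
  have hnx : 0 ≤ nx x := by
    unfold nx n2
    positivity
  have h5 : ∑ p, grd n D l ζ p * grd n D l ζ p = G2 :=
    Finset.sum_congr rfl fun p _ => (sq _).symm
  rw [h5] at h4
  have h6 : n2 (grd n D l ζ) = G2 := rfl
  rw [h6] at hz2
  have h7 : G2 ^ 2 ≤ W * (8 * nx x * (1 + L * K0)) * G2 := by
    refine h4.trans ?_
    have e1 : G2 + L * n2 ζ' ≤ (1 + L * K0) * G2 := by nlinarith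
    calc W * (8 * nx x * (G2 + L * n2 ζ')) ≤ W * (8 * nx x * ((1 + L * K0) * G2)) := by gcongr
      _ = W * (8 * nx x * (1 + L * K0)) * G2 := by ring
  have h8 : G2 ≤ W * (8 * nx x * (1 + L * K0)) := by
    by_cases hz0 : G2 = 0
    · rw [hz0]; positivity
    · have hpos : 0 < G2 := lt_of_le_of_ne hG0 (Ne.symm hz0)
      rw [sq] at h7
      exact le_of_mul_le_mul_right h7 hpos
  have h11 : 4 + 8 * (1 + L * K0) ≤ (12 + 8 * (D * C0)) * (l : ℝ) ^ (D + p) := by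
    have e1 : 1 ≤ (l : ℝ) ^ (D + p) := one_le_pow₀ hl1
    have e2 : L * K0 = D * C0 * (l : ℝ) ^ (D + p) := by rw [hLe, hK0, pow_add]; ring
    rw [e2]
    nlinarith
  have h9 : (4 + 8 * (1 + L * K0)) * nx x * W = 4 * nx x * W + W * (8 * nx x * (1 + L * K0)) := by
    ring
  have h12 : (4 + 8 * (1 + L * K0)) * nx x * W ≤
      (12 + 8 * (D * C0)) * (l : ℝ) ^ (D + p) * nx x * W :=
    mul_le_mul_of_nonneg_right (mul_le_mul_of_nonneg_right h11 hnx) hW0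
  refine le_trans ?_ h12
  rw [h9, abs_le]
  have h10 : 0 ≤ 4 * nx x * W := by positivity
  constructor
  · nlinarith
  · nlinarith

end Pool.Agent.Q150.LU
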