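import Pool.Agent.Q150.LU.Lin

/-! # Project LU (helper77), job LOW: lower bound of the levels (helper150) -/

set_option autoImplicit false
set_option linter.unusedSectionVars false

open MeasureTheory Matrix Set Filter Topology
open scoped ContDiff Matrix.Norms.Frobenius

namespace Pool.Agent.Q150.LU

open Pool.Agent.Q77.LU

theorem lin_smul {N n : ℕ} {G : Subgroup (UU N)} (B : LieBasis G n) (t : ℝ) (v : Fin n → ℝ) :
    lin B (t • v) = t • lin B v := by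
  unfold lin
  rw [Finset.smul_sum]
  exact Finset.sum_congr rfl fun a _ => by rw [Pi.smul_apply, smul_eq_mul, mul_smul]

theorem lin_add {N n : ℕ} {G : Subgroup (UU N)} (B : LieBasis G n) (v w : Fin n → ℝ) :
    lin B (v + w) = lin B v + lin B w := by
  unfold lin
  rw [← Finset.sum_add_distrib]
  exact Finset.sum_congr rfl fun a _ => by rw [Pi.add_apply, add_smul]

theorem Ad_smul {N n : ℕ} {G : Subgroup (UU N)} (B : LieBasis G n) (h : G) (t : ℝ)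
    (v : Fin n → ℝ) (a : Fin n) : Ad B h (t • v) a = t * Ad B h v a := by
  unfold Ad
  rw [lin_smul, Matrix.mul_smul, Matrix.smul_mul, Matrix.mul_smul, Matrix.trace_smul,
    Complex.smul_re, smul_eq_mul]

theorem Ad_add {N n : ℕ} {G : Subgroup (UU N)} (B : LieBasis G n) (h : G)
    (v w : Fin n → ℝ) (a : Fin n) : Ad B h (v + w) a = Ad B h v a + Ad B h w a := by
  unfold Ad
  rw [lin_add, Matrix.mul_add, Matrix.add_mul, Matrix.mul_add, Matrix.trace_add, Complex.add_re]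

theorem adF_smul {N n : ℕ} {G : Subgroup (UU N)} {ι : Type} (B : LieBasis G n) (h : G) (t : ℝ)
    (y : ι × Fin n → ℝ) : adF B h (t • y) = t • adF B h y := by
  funext p
  exact Ad_smul B h t (fun c => y (p.1, c)) p.2

theorem adF_add {N n : ℕ} {G : Subgroup (UU N)} {ι : Type} (B : LieBasis G n) (h : G)
    (y z : ι × Fin n → ℝ) : adF B h (y + z) = adF B h y + adF B h z := by
  funext p
  exact Ad_add B h (fun c => y (p.1, c)) (fun c => z (p.1, c)) p.2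

theorem small_rpow {A b p : ℝ} (hA : 0 ≤ A) (hb : 0 < b) (hp : 0 < p) :
    ∃ g0 : ℝ, 0 < g0 ∧ ∀ g : ℝ, 0 < g → g < g0 → A * g ^ p ≤ b := by
  refine ⟨(b / (A + 1)) ^ (1 / p), by positivity, fun g hg hgg => ?_⟩
  have h1 : g ^ p ≤ ((b / (A + 1)) ^ (1 / p)) ^ p := Real.rpow_le_rpow hg.le hgg.le hp.le
  have h2 : ((b / (A + 1)) ^ (1 / p)) ^ p = b / (A + 1) := by
    rw [← Real.rpow_mul (by positivity), one_div_mul_cancel hp.ne', Real.rpow_one]
  rw [h2] at h1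
  calc A * g ^ p ≤ A * (b / (A + 1)) := mul_le_mul_of_nonneg_left h1 hA
    _ ≤ b := by
      rw [← mul_div_assoc, div_le_iff₀ (by positivity)]
      nlinarith

theorem t_LOW (h0 : S_DEC) (h1 : S_CHART) (h2 : S_KEY) (h3 : S_FAM) (h4 : S_SCL) (h5 : S_GS)
    (h6 : S_EZ) : S_LOW := by
  intro N n D l _ G hG hconn B _ _ μ _ _ hNC hD hn k ε hε
  obtain ⟨dc⟩ := h0 N n D l G hG B
  obtain ⟨L, hL⟩ := h1 N n D l G hG B μ hNC hD dc
  obtain ⟨lam, hlam⟩ : ∃ lam, lam = lev (vred B D) (AdS B D) k := ⟨_, rfl⟩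
  have hv : L.v = vred B D := hL.v
  have hlam0 : 0 ≤ lam := by rw [hlam, ← hv]; exact lev_nonneg L.nonneg _ _
  have he0 : L.e0 = ezero n D l := by
    unfold Loc.e0; rw [hL.om, dc.sum]; exact h6 N n D l G hG B
  obtain ⟨c, hc⟩ : ∃ c : ℝ, c = (l : ℝ) ^ (-(D : ℝ) / 3) := ⟨_, rfl⟩
  have hl : (0:ℝ) < l := by exact_mod_cast Nat.pos_of_ne_zero (NeZero.ne l)
  have hc0 : 0 < c := by rw [hc]; exact Real.rpow_pos_of_pos hl _
  have hE : ∀ g : ℝ, 0 < g → L.E g = g ^ (2 / 3 : ℝ) * c := fun g hg => by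
    rw [E_eq L hg, hL.c4, c4_rpow, hc]
  obtain ⟨ε1, hε1, hε1', hε1''⟩ : ∃ ε1 : ℝ, 0 < ε1 ∧ ε1 ≤ 1 / 2 ∧ 2 * ε1 * (c * lam) ≤ ε / 2 := by
    refine ⟨min (1 / 2) (ε / (4 * (c * lam + 1))), by positivity, min_le_left _ _, ?_⟩
    have k1 := min_le_right (1 / 2) (ε / (4 * (c * lam + 1)))
    have k2 : 0 ≤ c * lam := by positivity
    calc 2 * min (1 / 2) (ε / (4 * (c * lam + 1))) * (c * lam)
        ≤ 2 * (ε / (4 * (c * lam + 1))) * (c * lam) := by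
          apply mul_le_mul_of_nonneg_right _ k2
          linarith
      _ ≤ ε / 2 := by
          have k3 : 2 * (ε / (4 * (c * lam + 1))) * (c * lam) =
              ε / 2 * ((c * lam) / (c * lam + 1)) := by
            field_simp; ring
          rw [k3]
          have k4 : (c * lam) / (c * lam + 1) ≤ 1 := by
            rw [div_le_one (by positivity)]; linarith
          calc ε / 2 * ((c * lam) / (c * lam + 1)) ≤ ε / 2 * 1 :=
                mul_le_mul_of_nonneg_left k4 (by positivity)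
            _ = ε / 2 := mul_one _
  obtain ⟨K, η, g1, hK, hη, hg1, χ, hKEY⟩ := h2 N n D l G hG hconn B μ hNC hD dc L hL ε1 hε1
  obtain ⟨g2', hg2, hs2⟩ := small_rpow (A := c * lam) (b := ε1 * η) (p := 2 / 3) (by positivity)
    (by positivity) (by norm_num)
  obtain ⟨g3, hg3, hs3⟩ := small_rpow (A := K) (b := ε / 2) (p := 1 / 3) hK
    (by positivity) (by norm_num)
  refine ⟨min g1 (min g2' g3), by positivity, fun g hg hgg => ?_⟩
  have hgg1 : g < g1 := lt_of_lt_of_le hgg (min_le_left _ _)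
  have hgg2 : g < g2' := lt_of_lt_of_le hgg ((min_le_right _ _).trans (min_le_left _ _))
  have hgg3 : g < g3 := lt_of_lt_of_le hgg ((min_le_right _ _).trans (min_le_right _ _))
  have hsm1 := hs2 g hg hgg2
  have hgp : 0 < g ^ (2 / 3 : ℝ) := Real.rpow_pos_of_pos hg _
  have hsm2 : K * g ≤ ε / 2 * g ^ (2 / 3 : ℝ) := by
    have k1 : g = g ^ (1 / 3 : ℝ) * g ^ (2 / 3 : ℝ) := by
      rw [← Real.rpow_add hg]; norm_num
    calc K * g = (K * g ^ (1 / 3 : ℝ)) * g ^ (2 / 3 : ℝ) := by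
          rw [mul_assoc, ← k1]
      _ ≤ ε / 2 * g ^ (2 / 3 : ℝ) := mul_le_mul_of_nonneg_right (hs3 g hg hgg3) hgp.le
  rw [← hlam, ← hc]
  apply le_csInf
  · obtain ⟨E, Ψ, hΨ1, hΨ2, hΨ3⟩ := h3 N n D l G hG B μ dc L hL (by omega) hn k g hg
    exact ⟨E, Ψ, hΨ1, hΨ2, hΨ3⟩
  rintro E ⟨Ψ, hΨ1, hΨ2, hΨ3⟩
  by_contra hcon
  push Not at hcon
  -- the family
  obtain ⟨t, ht⟩ : ∃ t : Fin (k + 1) → (Fin D × Fin n → ℝ) → ℝ,
    t = fun i => L.T g (dc.pull L.r fun U => χ U * Ψ i U) := ⟨_, rfl⟩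
  have hkey := fun i => hKEY g hg hgg1 (Ψ i) (hΨ1 i).1 (hΨ1 i).2.1 (hΨ1 i).2.2
  have htCI : ∀ i, CI (AdS B D) (t i) := fun i => by rw [ht]; exact (hkey i).1
  have hT : ∀ cc : Fin (k + 1) → ℝ, L.T g (dc.pull L.r fun U => χ U * ∑ i, cc i * Ψ i U) =
      fun C => ∑ i, cc i * t i C := by
    intro cc
    funext C
    rw [ht]
    simp only
    rw [← T_comb L g (f := fun i => dc.pull L.r fun U => χ U * Ψ i U)
      (fun i => (hkey i).2.2.1) (fun i => (hkey i).2.1) cc C]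
    congr 1
    funext x
    unfold Dec.pull
    split_ifs
    · simp only [Finset.mul_sum]; exact Finset.sum_congr rfl fun i _ => by ring
    · simp
  obtain ⟨Δ, hΔ⟩ : ∃ Δ, Δ = E - L.e0 + K * g := ⟨_, rfl⟩
  have hmain : ∀ cc : Fin (k + 1) → ℝ, (1 - ε1) * (∫ C, (g ^ 2 / 2 *
      g2 (fun C => ∑ i, cc i * t i C) C + L.c4 / g ^ 2 * L.v C * (∑ i, cc i * t i C) ^ 2)) +
      η * ((∑ i, cc i ^ 2) - ∫ C, (∑ i, cc i * t i C) ^ 2) ≤ Δ * ∑ i, cc i ^ 2 ∧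
      ∫ C, (∑ i, cc i * t i C) ^ 2 ≤ ∑ i, cc i ^ 2 := by
    intro cc
    obtain ⟨_, _, _, hle, hen⟩ := hKEY g hg hgg1 (fun U => ∑ i, cc i * Ψ i U)
      (sm_comb (fun i => (hΨ1 i).1) cc) (gi_comb (fun i => (hΨ1 i).2.1) cc)
      (ce_comb (fun i => (hΨ1 i).2.2) cc)
    have hnorm : ∫ U, (∑ i, cc i * Ψ i U) ^ 2 ∂(Measure.pi fun _ : Link D l => μ) =
        ∑ i, cc i ^ 2 := norm_comb _ (fun i j => grp_int hG μ
          ((sm_cont (hΨ1 i).1).mul (sm_cont (hΨ1 j).1))) hΨ2 cc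
    simp only [hT cc, hnorm] at hle hen
    have k1 := hΨ3 cc
    refine ⟨?_, hle⟩
    rw [hΔ]
    linarith
  have ht1 : ∀ i, ContDiff ℝ 1 (t i) := fun i => ci_c1 (htCI i)
  obtain ⟨Bm, hBm⟩ : ∃ Bm : Matrix (Fin (k + 1)) (Fin (k + 1)) ℝ,
    Bm = Matrix.of fun i j => ∫ C, t i C * t j C := ⟨_, rfl⟩
  obtain ⟨qm, hqm⟩ : ∃ qm : Matrix (Fin (k + 1)) (Fin (k + 1)) ℝ,
    qm = Matrix.of fun i j => bil (g ^ 2 / 2) (L.c4 / g ^ 2) L.v (t i) (t j) := ⟨_, rfl⟩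
  have hq : ∀ cc : Fin (k + 1) → ℝ, ∫ C, (g ^ 2 / 2 * g2 (fun C => ∑ i, cc i * t i C) C +
      L.c4 / g ^ 2 * L.v C * (∑ i, cc i * t i C) ^ 2) = ∑ i, cc i * (qm.mulVec cc) i := fun cc => by
    rw [hqm]
    exact quad_en ht1 (fun i => (htCI i).supp) L.cont _ _ cc
  have hfi : ∀ i j, Integrable fun x => t i x * t j x :=
    fam_int (fun i => (ht1 i).continuous) (fun i => (htCI i).supp)
  have hB : ∀ cc : Fin (k + 1) → ℝ, ∫ C, (∑ i, cc i * t i C) ^ 2 =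
      ∑ i, cc i * (Bm.mulVec cc) i := fun cc => by
    rw [hBm]
    exact int_sq_comb volume hfi cc
  have hq0 : ∀ cc : Fin (k + 1) → ℝ, 0 ≤ ∑ i, cc i * (qm.mulVec cc) i := fun cc => by
    rw [← hq cc]
    apply integral_nonneg
    intro C
    have k1 := L.nonneg C
    have k2 := g2_nonneg (fun C => ∑ i, cc i * t i C) C
    have k3 := L.c4pos
    positivity
  have h1ε : 0 < 1 - ε1 := by linarith
  have hΔη : Δ ≤ ε1 * η := by
    rw [hΔ, he0]
    nlinarith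
  have hβ : ∀ cc : Fin (k + 1) → ℝ, (1 - ε1) * ∑ i, cc i ^ 2 ≤ ∑ i, cc i * (Bm.mulVec cc) i := by
    intro cc
    have k1 := (hmain cc).1
    rw [hq cc, hB cc] at k1
    have k2 := mul_nonneg h1ε.le (hq0 cc)
    have k3 : 0 ≤ ∑ i, cc i ^ 2 := Finset.sum_nonneg fun i _ => sq_nonneg _
    have k4 : Δ * ∑ i, cc i ^ 2 ≤ ε1 * η * ∑ i, cc i ^ 2 := mul_le_mul_of_nonneg_right hΔη k3
    have k5 : η * ((1 - ε1) * ∑ i, cc i ^ 2) ≤ η * ∑ i, cc i * (Bm.mulVec cc) i := by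
      nlinarith
    exact le_of_mul_le_mul_left k5 hη
  have hqE : ∀ cc : Fin (k + 1) → ℝ, ∑ i, cc i * (qm.mulVec cc) i ≤
      Δ / (1 - ε1) * ∑ i, cc i ^ 2 := by
    intro cc
    obtain ⟨k1, k0⟩ := hmain cc
    rw [hq cc] at k1
    have k2 : 0 ≤ η * ((∑ i, cc i ^ 2) - ∫ C, (∑ i, cc i * t i C) ^ 2) :=
      mul_nonneg hη.le (by linarith)
    have k3 : (1 - ε1) * ∑ i, cc i * (qm.mulVec cc) i ≤ Δ * ∑ i, cc i ^ 2 := by linarith
    rw [div_mul_eq_mul_div, le_div_iff₀ h1ε]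
    linarith
  have hΔ0 : 0 ≤ Δ / (1 - ε1) := by
    have k1 := (hq0 (fun _ => 1)).trans (hqE (fun _ => 1))
    simp only [one_pow, Finset.sum_const, Finset.card_univ, Fintype.card_fin, nsmul_eq_mul,
      mul_one] at k1
    have k2 : (0:ℝ) < ((k + 1 : ℕ) : ℝ) := by positivity
    exact nonneg_of_mul_nonneg_left k1 k2
  have hBs : Bm.IsSymm := by
    rw [hBm]
    ext i j
    simp only [Matrix.transpose_apply, Matrix.of_apply]
    congr 1
    funext x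
    ring
  obtain ⟨R, hR1, hR2⟩ := h5 (k + 1) Bm qm (1 - ε1) (Δ / (1 - ε1)) h1ε hΔ0 hBs hβ hqE
  rw [hBm] at hR1
  have hscl := h4 _ _ L (AdS B D) (by
    rintro _ ⟨h, rfl⟩ s x
    exact adF_smul B h s x) g hg k (fun i C => ∑ j, R j i * t j C) (Δ / (1 - ε1) / (1 - ε1))
    (fun i => ci_comb htCI fun j => R j i) (fun i j => gram_change volume hfi R hR1 i j) (by
      intro cc
      have k1 : ∀ C, ∑ i, cc i * (∑ j, R j i * t j C) = ∑ j, (R.mulVec cc) j * t j C :=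
        fun C => comb_mul R cc fun j => t j C
      simp only [k1]
      rw [hq]
      exact hR2 cc)
  rw [hv, ← hlam, hE g hg, div_div, le_div_iff₀ (by positivity)] at hscl
  -- conclusion
  have k1 : (1 - 2 * ε1) * (g ^ (2 / 3 : ℝ) * c * lam) ≤
      g ^ (2 / 3 : ℝ) * c * lam * ((1 - ε1) * (1 - ε1)) := by
    have : 0 ≤ g ^ (2 / 3 : ℝ) * c * lam := by positivity
    nlinarith [sq_nonneg ε1]
  have k2 : 2 * ε1 * (g ^ (2 / 3 : ℝ) * c * lam) ≤ g ^ (2 / 3 : ℝ) * (ε / 2) := by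
    calc 2 * ε1 * (g ^ (2 / 3 : ℝ) * c * lam) = g ^ (2 / 3 : ℝ) * (2 * ε1 * (c * lam)) := by ring
      _ ≤ g ^ (2 / 3 : ℝ) * (ε / 2) := mul_le_mul_of_nonneg_left hε1'' hgp.le
  rw [hΔ, he0] at hscl
  nlinarith

end Pool.Agent.Q150.LU
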