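import Pool.Agent.Q150.LU.LOW
import Pool.Agent.Q77.LU.StmU

/-! # Project LU (helper77), job LOWU: lower bound of the levels, uniform version (helper150) -/

set_option autoImplicit false
set_option linter.unusedSectionVars false

open MeasureTheory Matrix Set Filter Topology
open scoped ContDiff Matrix.Norms.Frobenius

namespace Pool.Agent.Q150.LU

open Pool.Agent.Q77.LU

theorem bd_mono {P Q : Type} [Fintype P] [DecidableEq P] [Fintype Q] [DecidableEq Q]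
    {L : Loc P Q} {Λ Λ' : ℝ} (h : Bd L Λ) (hl : Λ ≤ Λ') : Bd L Λ' := by
  have h1 := h.one
  have h0 : 0 < Λ := by linarith
  have h2 : Λ'⁻¹ ≤ Λ⁻¹ := inv_anti₀ h0 hl
  refine ⟨h1.trans hl, h.cardP.trans hl, h.cardQ.trans hl, fun i => h2.trans (h.om1 i),
    fun i => (h.om2 i).trans hl, h2.trans h.c41, h.c42.trans hl, fun C i j => ?_,
    h.K.trans hl, h2.trans h.r1, h.r2, fun x hx => ?_⟩
  · refine (h.A C i j).trans (mul_le_mul_of_nonneg_right hl ?_)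
    unfold nr; positivity
  · refine (h.J x hx).trans ?_
    rw [mul_pow, mul_pow]
    exact mul_le_mul_of_nonneg_right (pow_le_pow_left₀ h0.le hl 2) (sq_nonneg _)

theorem constU {l D : ℕ} [NeZero l] {M Y g c q : ℝ} (hM : 1 ≤ M) (hY : 1 ≤ Y) (hg : 0 < g)
    (hc : c = (l : ℝ) ^ (-(D : ℝ) / 3)) (hq : q = g ^ (2 / 3 : ℝ))
    (h : (M * Y) ^ 3 * (l : ℝ) ^ D * g ≤ 1) :
    ∃ y : ℝ, 0 < y ∧ q = y ^ 2 ∧ g = y ^ 3 ∧ 0 < c ∧ c ≤ 1 ∧ M * Y * y ≤ c ∧ y ≤ 1 ∧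
      M * g ≤ 1 := by
  have hl : (1:ℝ) ≤ l := by exact_mod_cast Nat.one_le_iff_ne_zero.2 (NeZero.ne l)
  have hl0 : (0:ℝ) < l := by linarith
  have hc0 : 0 < c := by rw [hc]; exact Real.rpow_pos_of_pos hl0 _
  have hc1 : c ≤ 1 := by
    rw [hc]
    apply Real.rpow_le_one_of_one_le_of_nonpos hl
    have : (0:ℝ) ≤ D := Nat.cast_nonneg _
    linarith
  have hc3 : c ^ 3 * (l : ℝ) ^ D = 1 := by
    rw [hc, ← Real.rpow_natCast, ← Real.rpow_mul hl0.le, ← Real.rpow_natCast (l : ℝ) D,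
      ← Real.rpow_add hl0]
    have : -(D : ℝ) / 3 * ((3 : ℕ) : ℝ) + (D : ℝ) = 0 := by push_cast; ring
    rw [this, Real.rpow_zero]
  obtain ⟨y, hy⟩ : ∃ y, y = g ^ (1 / 3 : ℝ) := ⟨_, rfl⟩
  have hy0 : 0 < y := by rw [hy]; exact Real.rpow_pos_of_pos hg _
  have hy3 : g = y ^ 3 := by
    rw [hy, ← Real.rpow_natCast, ← Real.rpow_mul hg.le]
    norm_num
  have hy2 : q = y ^ 2 := by
    rw [hq, hy, ← Real.rpow_natCast, ← Real.rpow_mul hg.le]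
    norm_num
  have hX : 1 ≤ M * Y := by nlinarith
  have hlD : 0 < (l : ℝ) ^ D := by positivity
  have h1 : (M * Y * y) ^ 3 ≤ c ^ 3 := by
    have h2 : (M * Y * y) ^ 3 * (l : ℝ) ^ D ≤ c ^ 3 * (l : ℝ) ^ D := by
      rw [hc3, mul_pow, ← hy3]
      linarith
    exact le_of_mul_le_mul_right h2 hlD
  have h3 : M * Y * y ≤ c := le_of_pow_le_pow_left₀ (by norm_num) hc0.le h1
  have h4 : y ≤ 1 := by nlinarith
  refine ⟨y, hy0, hy2, hy3, hc0, hc1, h3, h4, ?_⟩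
  have h5 : M * y ≤ 1 := by nlinarith [mul_pos (show 0 < M by linarith) hy0]
  have h6 : y ^ 2 ≤ 1 := pow_le_one₀ hy0.le h4
  rw [hy3]
  calc M * y ^ 3 = M * y * y ^ 2 := by ring
    _ ≤ 1 * 1 := mul_le_mul h5 h6 (sq_nonneg _) one_pos.le
    _ = 1 := one_mul 1

theorem eps1U {lam ε : ℝ} (hlam : 0 ≤ lam) (hε : 0 < ε) :
    ∃ ε1 : ℝ, 0 < ε1 ∧ ε1 ≤ 1 / 2 ∧ 2 * ε1 * lam ≤ ε / 2 := by
  refine ⟨min (1 / 2) (ε / (4 * (lam + 1))), by positivity, min_le_left _ _, ?_⟩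
  have k1 := min_le_right (1 / 2) (ε / (4 * (lam + 1)))
  calc 2 * min (1 / 2) (ε / (4 * (lam + 1))) * lam
      ≤ 2 * (ε / (4 * (lam + 1))) * lam := by
        apply mul_le_mul_of_nonneg_right _ hlam
        linarith
    _ ≤ ε / 2 := by
        have k3 : 2 * (ε / (4 * (lam + 1))) * lam = ε / 2 * (lam / (lam + 1)) := by
          field_simp; ring
        rw [k3]
        have k4 : lam / (lam + 1) ≤ 1 := by
          rw [div_le_one (by positivity)]; linarith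
        calc ε / 2 * (lam / (lam + 1)) ≤ ε / 2 * 1 :=
              mul_le_mul_of_nonneg_left k4 (by positivity)
          _ = ε / 2 := mul_one _

/-- the constants of the lower bounds -/
theorem lowC {l D p0 p1 : ℕ} [NeZero l] {C0 C1 Λ M ε ε1 lam g c q : ℝ} (hC0 : 1 ≤ C0)
    (hC1 : 1 ≤ C1) (hε : 0 < ε) (hε1 : 0 < ε1) (hlam : 0 ≤ lam) (hΛ : Λ = C0 * (l : ℝ) ^ (p0 + 1))
    (hM : M = C1 * Λ ^ p1) (hg : 0 < g)
    (hc : c = (l : ℝ) ^ (-(D : ℝ) / 3)) (hq : q = g ^ (2 / 3 : ℝ))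
    (h : (C1 * C0 ^ p1 * (2 / ε + (lam + 1) / ε1 + 1)) ^ 3 *
      (l : ℝ) ^ (3 * ((p0 + 1) * p1) + D) * g ≤ 1) :
    0 < M ∧ g ≤ M⁻¹ ∧ 0 < q ∧ 0 < c ∧ M * g ≤ ε / 2 * (c * q) ∧ c * lam * q ≤ ε1 * M⁻¹ := by
  have hl : (1:ℝ) ≤ l := by exact_mod_cast Nat.one_le_iff_ne_zero.2 (NeZero.ne l)
  have hM' : M = C1 * C0 ^ p1 * (l : ℝ) ^ ((p0 + 1) * p1) := by
    rw [hM, hΛ, mul_pow, ← pow_mul, mul_assoc]
  have hM1 : 1 ≤ M := by
    rw [hM']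
    have a1 : 1 ≤ C0 ^ p1 := one_le_pow₀ hC0
    have a2 : 1 ≤ (l : ℝ) ^ ((p0 + 1) * p1) := one_le_pow₀ hl
    have a3 : 1 ≤ C1 * C0 ^ p1 := by nlinarith
    nlinarith
  have hM0 : 0 < M := by linarith
  obtain ⟨Y, hY⟩ : ∃ Y, Y = 2 / ε + (lam + 1) / ε1 + 1 := ⟨_, rfl⟩
  have hY1 : 1 ≤ Y := by
    rw [hY]
    have a1 : 0 ≤ 2 / ε := by positivity
    have a2 : 0 ≤ (lam + 1) / ε1 := by positivity
    linarith
  have hcond : (M * Y) ^ 3 * (l : ℝ) ^ D * g ≤ 1 := by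
    have e1 : (M * Y) ^ 3 * (l : ℝ) ^ D * g = (C1 * C0 ^ p1 * (2 / ε + (lam + 1) / ε1 + 1)) ^ 3 *
      (l : ℝ) ^ (3 * ((p0 + 1) * p1) + D) * g := by
      rw [hM', hY, pow_add, mul_comm 3 ((p0 + 1) * p1), pow_mul (l : ℝ) ((p0 + 1) * p1) 3]
      ring
    rw [e1]
    exact h
  obtain ⟨y, hy0, hy2, hy3, hc0, hc1, h3, h4, h5⟩ := constU hM1 hY1 hg hc hq hcond
  have hMy : 0 < M * y := mul_pos hM0 hy0
  have b1 : M * y * (2 / ε) ≤ c := by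
    have : M * y * (2 / ε) ≤ M * y * Y := by
      apply mul_le_mul_of_nonneg_left _ hMy.le
      rw [hY]
      have a2 : 0 ≤ (lam + 1) / ε1 := by positivity
      linarith
    linarith
  have b2 : M * y ≤ ε / 2 * c := by
    have : M * y = ε / 2 * (M * y * (2 / ε)) := by field_simp
    rw [this]
    exact mul_le_mul_of_nonneg_left b1 (by positivity)
  have b3 : M * y * ((lam + 1) / ε1) ≤ 1 := by
    have : M * y * ((lam + 1) / ε1) ≤ M * y * Y := by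
      apply mul_le_mul_of_nonneg_left _ hMy.le
      rw [hY]
      have a2 : 0 ≤ 2 / ε := by positivity
      linarith
    linarith
  have b4 : M * y * lam ≤ ε1 := by
    have e : M * y * (lam + 1) = ε1 * (M * y * ((lam + 1) / ε1)) := by field_simp
    have : M * y * (lam + 1) ≤ ε1 * 1 := by
      rw [e]; exact mul_le_mul_of_nonneg_left b3 hε1.le
    nlinarith
  refine ⟨hM0, ?_, by rw [hy2]; positivity, hc0, ?_, ?_⟩
  · rw [← one_div, le_div_iff₀ hM0]; linarith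
  · rw [hy2, hy3]
    calc M * y ^ 3 = M * y * y ^ 2 := by ring
      _ ≤ ε / 2 * c * y ^ 2 := mul_le_mul_of_nonneg_right b2 (sq_nonneg _)
      _ = ε / 2 * (c * y ^ 2) := by ring
  · rw [← div_eq_mul_inv, le_div_iff₀ hM0, hy2]
    have b5 : M * y * lam * y ≤ ε1 * 1 := mul_le_mul b4 h4 hy0.le hε1.le
    have b6 : 0 ≤ M * y * lam * y := by positivity
    calc c * lam * y ^ 2 * M = c * (M * y * lam * y) := by ring
      _ ≤ 1 * (M * y * lam * y) := mul_le_mul_of_nonneg_right hc1 b6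
      _ ≤ ε1 := by linarith

theorem t_LOWU (h0 : S_DEC) (h1 : S_CHARTU) (h2 : S_KEYU) (h3 : S_FAM) (h4 : S_SCL) (h5 : S_GS)
    (h6 : S_EZ) : S_LOWU := by
  intro N n D G hG hconn B _ _ μ _ _ hNC hD hn
  obtain ⟨p0, C0, κ0, hC0, hκ0, hch⟩ := h1 N n D G hG B μ hNC hD
  obtain ⟨p1, hkk⟩ := h2 N n D G hG hconn B μ hNC hD hn
  refine ⟨3 * ((p0 + 1) * p1) + D, fun k ε hε => ?_⟩
  obtain ⟨lam, hlam⟩ : ∃ lam, lam = lev (vred B D) (AdS B D) k := ⟨_, rfl⟩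
  have hlam0 : 0 ≤ lam := by
    obtain ⟨dc⟩ := h0 N n D 1 G hG B
    obtain ⟨L, hL, -⟩ := hch 1 dc
    rw [hlam, ← hL.v]; exact lev_nonneg L.nonneg _ _
  obtain ⟨ε1, hε1, hε1', hε1''⟩ := eps1U hlam0 hε
  obtain ⟨C1, hC1, hkk⟩ := hkk ε1 κ0 hε1 hκ0
  refine ⟨(C1 * C0 ^ p1 * (2 / ε + (lam + 1) / ε1 + 1)) ^ 3, ?_, fun l _ g hg hcond => ?_⟩
  · apply one_le_pow₀
    have a1 : 1 ≤ C0 ^ p1 := one_le_pow₀ hC0
    have a3 : 1 ≤ C1 * C0 ^ p1 := by nlinarith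
    have a4 : 0 ≤ 2 / ε := by positivity
    have a5 : 0 ≤ (lam + 1) / ε1 := by positivity
    nlinarith
  obtain ⟨dc⟩ := h0 N n D l G hG B
  obtain ⟨L, hL, hbd, hκ⟩ := hch l dc
  have hv : L.v = vred B D := hL.v
  have he0 : L.e0 = ezero n D l := by
    unfold Loc.e0; rw [hL.om, dc.sum]; exact h6 N n D l G hG B
  obtain ⟨c, hc⟩ : ∃ c : ℝ, c = (l : ℝ) ^ (-(D : ℝ) / 3) := ⟨_, rfl⟩
  have hl1 : (1:ℝ) ≤ l := by exact_mod_cast Nat.one_le_iff_ne_zero.2 (NeZero.ne l)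
  obtain ⟨Λ, hΛ⟩ : ∃ Λ, Λ = C0 * (l : ℝ) ^ (p0 + 1) := ⟨_, rfl⟩
  obtain ⟨K, hKd⟩ : ∃ K, K = C1 * Λ ^ p1 := ⟨_, rfl⟩
  have hbd' : Bd L Λ := by
    apply bd_mono hbd
    rw [hΛ]
    apply mul_le_mul_of_nonneg_left _ (by linarith)
    exact pow_le_pow_right₀ hl1 (by omega)
  have hlΛ : (l : ℝ) ≤ Λ := by
    rw [hΛ]
    have a1 : (l : ℝ) ^ 1 ≤ (l : ℝ) ^ (p0 + 1) := pow_le_pow_right₀ hl1 (by omega)
    rw [pow_one] at a1
    nlinarith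
  obtain ⟨q, hq⟩ : ∃ q, q = g ^ (2 / 3 : ℝ) := ⟨_, rfl⟩
  have hEg : L.E g = q * c := by
    rw [E_eq L hg, hL.c4, c4_rpow, hc, hq]
  obtain ⟨hK, hgg1, hgp, hc0, hsm2, hsm1⟩ :=
    lowC (l := l) (D := D) hC0 hC1 hε hε1 hlam0 hΛ hKd hg hc hq hcond
  obtain ⟨χ, hKEY⟩ := hkk l dc L Λ K hL hbd' hκ hlΛ hKd
  obtain ⟨η, hη⟩ : ∃ η, η = K⁻¹ := ⟨_, rfl⟩
  have hη0 : 0 < η := by rw [hη]; positivity
  rw [← hη] at hsm1 hKEY hgg1
  rw [← hlam, ← hc, ← hq]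
  apply le_csInf
  · obtain ⟨E, Ψ, hΨ1, hΨ2, hΨ3⟩ := h3 N n D l G hG B μ dc L hL (by omega) hn k g hg
    exact ⟨E, Ψ, hΨ1, hΨ2, hΨ3⟩
  rintro E ⟨Ψ, hΨ1, hΨ2, hΨ3⟩
  by_contra hcon
  push Not at hcon
  -- the family
  obtain ⟨t, ht⟩ : ∃ t : Fin (k + 1) → (Fin D × Fin n → ℝ) → ℝ,
    t = fun i => L.T g (dc.pull L.r fun U => χ U * Ψ i U) := ⟨_, rfl⟩
  have hkey := fun i => hKEY g hg hgg1 (Ψ i) (hΨ1 i).1 (hΨ1 i).2.1 (hΨ1 i).2.2
  have htCI : ∀ i, CI (AdS B D) (t i) := fun i => by rw [ht]; exact (hkey i).1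
  have hT : ∀ cc : Fin (k + 1) → ℝ, L.T g (dc.pull L.r fun U => χ U * ∑ i, cc i * Ψ i U) =
      fun C => ∑ i, cc i * t i C := by
    intro cc
    funext C
    rw [ht]
    simp only
    rw [← T_comb L g (f := fun i => dc.pull L.r fun U => χ U * Ψ i U)
      (fun i => (hkey i).2.2.1) (fun i => (hkey i).2.1) cc C]
    congr 1
    funext x
    unfold Dec.pull
    split_ifs
    · simp only [Finset.mul_sum]; exact Finset.sum_congr rfl fun i _ => by ring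
    · simp
  obtain ⟨Δ, hΔ⟩ : ∃ Δ, Δ = E - L.e0 + K * g := ⟨_, rfl⟩
  have hmain : ∀ cc : Fin (k + 1) → ℝ, (1 - ε1) * (∫ C, (g ^ 2 / 2 *
      g2 (fun C => ∑ i, cc i * t i C) C + L.c4 / g ^ 2 * L.v C * (∑ i, cc i * t i C) ^ 2)) +
      η * ((∑ i, cc i ^ 2) - ∫ C, (∑ i, cc i * t i C) ^ 2) ≤ Δ * ∑ i, cc i ^ 2 ∧
      ∫ C, (∑ i, cc i * t i C) ^ 2 ≤ ∑ i, cc i ^ 2 := by
    intro cc
    obtain ⟨_, _, _, hle, hen⟩ := hKEY g hg hgg1 (fun U => ∑ i, cc i * Ψ i U)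
      (sm_comb (fun i => (hΨ1 i).1) cc) (gi_comb (fun i => (hΨ1 i).2.1) cc)
      (ce_comb (fun i => (hΨ1 i).2.2) cc)
    have hnorm : ∫ U, (∑ i, cc i * Ψ i U) ^ 2 ∂(Measure.pi fun _ : Link D l => μ) =
        ∑ i, cc i ^ 2 := norm_comb _ (fun i j => grp_int hG μ
          ((sm_cont (hΨ1 i).1).mul (sm_cont (hΨ1 j).1))) hΨ2 cc
    simp only [hT cc, hnorm] at hle hen
    have k1 := hΨ3 cc
    refine ⟨?_, hle⟩
    rw [hΔ]
    linarith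
  have ht1 : ∀ i, ContDiff ℝ 1 (t i) := fun i => ci_c1 (htCI i)
  obtain ⟨Bm, hBm⟩ : ∃ Bm : Matrix (Fin (k + 1)) (Fin (k + 1)) ℝ,
    Bm = Matrix.of fun i j => ∫ C, t i C * t j C := ⟨_, rfl⟩
  obtain ⟨qm, hqm⟩ : ∃ qm : Matrix (Fin (k + 1)) (Fin (k + 1)) ℝ,
    qm = Matrix.of fun i j => bil (g ^ 2 / 2) (L.c4 / g ^ 2) L.v (t i) (t j) := ⟨_, rfl⟩
  have hqq : ∀ cc : Fin (k + 1) → ℝ, ∫ C, (g ^ 2 / 2 * g2 (fun C => ∑ i, cc i * t i C) C +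
      L.c4 / g ^ 2 * L.v C * (∑ i, cc i * t i C) ^ 2) = ∑ i, cc i * (qm.mulVec cc) i := fun cc => by
    rw [hqm]
    exact quad_en ht1 (fun i => (htCI i).supp) L.cont _ _ cc
  have hfi : ∀ i j, Integrable fun x => t i x * t j x :=
    fam_int (fun i => (ht1 i).continuous) (fun i => (htCI i).supp)
  have hB : ∀ cc : Fin (k + 1) → ℝ, ∫ C, (∑ i, cc i * t i C) ^ 2 =
      ∑ i, cc i * (Bm.mulVec cc) i := fun cc => by
    rw [hBm]
    exact int_sq_comb volume hfi cc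
  have hq0 : ∀ cc : Fin (k + 1) → ℝ, 0 ≤ ∑ i, cc i * (qm.mulVec cc) i := fun cc => by
    rw [← hqq cc]
    apply integral_nonneg
    intro C
    have k1 := L.nonneg C
    have k2 := g2_nonneg (fun C => ∑ i, cc i * t i C) C
    have k3 := L.c4pos
    positivity
  have h1ε : 0 < 1 - ε1 := by linarith
  have hΔη : Δ ≤ ε1 * η := by
    rw [hΔ, he0]
    have k0 : 0 < c * q := by positivity
    nlinarith
  have hβ : ∀ cc : Fin (k + 1) → ℝ, (1 - ε1) * ∑ i, cc i ^ 2 ≤ ∑ i, cc i * (Bm.mulVec cc) i := by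
    intro cc
    have k1 := (hmain cc).1
    rw [hqq cc, hB cc] at k1
    have k2 := mul_nonneg h1ε.le (hq0 cc)
    have k3 : 0 ≤ ∑ i, cc i ^ 2 := Finset.sum_nonneg fun i _ => sq_nonneg _
    have k4 : Δ * ∑ i, cc i ^ 2 ≤ ε1 * η * ∑ i, cc i ^ 2 := mul_le_mul_of_nonneg_right hΔη k3
    have k5 : η * ((1 - ε1) * ∑ i, cc i ^ 2) ≤ η * ∑ i, cc i * (Bm.mulVec cc) i := by
      nlinarith
    exact le_of_mul_le_mul_left k5 hη0
  have hqE : ∀ cc : Fin (k + 1) → ℝ, ∑ i, cc i * (qm.mulVec cc) i ≤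
      Δ / (1 - ε1) * ∑ i, cc i ^ 2 := by
    intro cc
    obtain ⟨k1, k0⟩ := hmain cc
    rw [hqq cc] at k1
    have k2 : 0 ≤ η * ((∑ i, cc i ^ 2) - ∫ C, (∑ i, cc i * t i C) ^ 2) :=
      mul_nonneg hη0.le (by linarith)
    have k3 : (1 - ε1) * ∑ i, cc i * (qm.mulVec cc) i ≤ Δ * ∑ i, cc i ^ 2 := by linarith
    rw [div_mul_eq_mul_div, le_div_iff₀ h1ε]
    linarith
  have hΔ0 : 0 ≤ Δ / (1 - ε1) := by
    have k1 := (hq0 (fun _ => 1)).trans (hqE (fun _ => 1))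
    simp only [one_pow, Finset.sum_const, Finset.card_univ, Fintype.card_fin, nsmul_eq_mul,
      mul_one] at k1
    have k2 : (0:ℝ) < ((k + 1 : ℕ) : ℝ) := by positivity
    exact nonneg_of_mul_nonneg_left k1 k2
  have hBs : Bm.IsSymm := by
    rw [hBm]
    ext i j
    simp only [Matrix.transpose_apply, Matrix.of_apply]
    congr 1
    funext x
    ring
  obtain ⟨R, hR1, hR2⟩ := h5 (k + 1) Bm qm (1 - ε1) (Δ / (1 - ε1)) h1ε hΔ0 hBs hβ hqE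
  rw [hBm] at hR1
  have hscl := h4 _ _ L (AdS B D) (by
    rintro _ ⟨h, rfl⟩ s x
    exact adF_smul B h s x) g hg k (fun i C => ∑ j, R j i * t j C) (Δ / (1 - ε1) / (1 - ε1))
    (fun i => ci_comb htCI fun j => R j i) (fun i j => gram_change volume hfi R hR1 i j) (by
      intro cc
      have k1 : ∀ C, ∑ i, cc i * (∑ j, R j i * t j C) = ∑ j, (R.mulVec cc) j * t j C :=
        fun C => comb_mul R cc fun j => t j C
      simp only [k1]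
      rw [hqq]
      exact hR2 cc)
  rw [hv, ← hlam, hEg, div_div, le_div_iff₀ (by positivity)] at hscl
  -- conclusion
  have k1 : (1 - 2 * ε1) * (q * c * lam) ≤
      q * c * lam * ((1 - ε1) * (1 - ε1)) := by
    have : 0 ≤ q * c * lam := by positivity
    nlinarith [sq_nonneg ε1]
  have k2 : 2 * ε1 * (q * c * lam) ≤ q * c * (ε / 2) := by
    calc 2 * ε1 * (q * c * lam) = q * c * (2 * ε1 * lam) := by ring
      _ ≤ q * c * (ε / 2) := mul_le_mul_of_nonneg_left hε1'' (by positivity)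
  rw [hΔ, he0] at hscl
  nlinarith

end Pool.Agent.Q150.LU
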