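import Pool.Agent.Q77.LU.StmH
import Pool.Agent.Q150.LU.GAPF
import Pool.Agent.H906R3.YM.Conc

/-! # Project LU (helper77): linear combinations, common lemmas of jobs LOW and UPP (helper150) -/

set_option autoImplicit false
set_option linter.unusedSectionVars false

open MeasureTheory Matrix Set Filter Topology
open scoped ContDiff Matrix.Norms.Frobenius

namespace Pool.Agent.Q150.LU

open Pool.Agent.Q77.LU

/-- integral of a quadratic expression -/
theorem quad_int {α : Type*} [MeasurableSpace α] (μ : Measure α) {m : ℕ}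
    (K : Fin m → Fin m → α → ℝ) (hK : ∀ i j, Integrable (K i j) μ) (c : Fin m → ℝ) :
    ∫ x, ∑ i, ∑ j, c i * c j * K i j x ∂μ =
      ∑ i, c i * ((Matrix.of fun i j => ∫ x, K i j x ∂μ).mulVec c) i := by
  rw [integral_finsetSum _ (fun i _ => integrable_finsetSum _ fun j _ => (hK i j).const_mul _)]
  refine Finset.sum_congr rfl fun i _ => ?_
  rw [integral_finsetSum _ (fun j _ => (hK i j).const_mul _)]
  simp only [Matrix.mulVec, dotProduct, Matrix.of_apply, Finset.mul_sum]
  refine Finset.sum_congr rfl fun j _ => ?_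
  rw [integral_const_mul]; ring

theorem sq_comb {m : ℕ} (c x : Fin m → ℝ) :
    (∑ i, c i * x i) ^ 2 = ∑ i, ∑ j, c i * c j * (x i * x j) := by
  rw [sq, Finset.sum_mul_sum]
  exact Finset.sum_congr rfl fun i _ => Finset.sum_congr rfl fun j _ => by ring

theorem int_sq_comb {α : Type*} [MeasurableSpace α] (μ : Measure α) {m : ℕ} {Ψ : Fin m → α → ℝ}
    (hi : ∀ i j, Integrable (fun x => Ψ i x * Ψ j x) μ) (c : Fin m → ℝ) :
    ∫ x, (∑ i, c i * Ψ i x) ^ 2 ∂μ =
      ∑ i, c i * ((Matrix.of fun i j => ∫ x, Ψ i x * Ψ j x ∂μ).mulVec c) i := by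
  simp_rw [sq_comb]
  exact quad_int μ (fun i j x => Ψ i x * Ψ j x) hi c

theorem norm_comb {α : Type*} [MeasurableSpace α] (μ : Measure α) {m : ℕ} {Ψ : Fin m → α → ℝ}
    (hi : ∀ i j, Integrable (fun x => Ψ i x * Ψ j x) μ)
    (ho : ∀ i j, ∫ x, Ψ i x * Ψ j x ∂μ = if i = j then 1 else 0) (c : Fin m → ℝ) :
    ∫ x, (∑ i, c i * Ψ i x) ^ 2 ∂μ = ∑ i, c i ^ 2 := by
  rw [int_sq_comb μ hi]
  have h1 : (Matrix.of fun i j => ∫ x, Ψ i x * Ψ j x ∂μ) = 1 := by
    ext i j
    rw [Matrix.of_apply, ho i j, Matrix.one_apply]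
  rw [h1, Matrix.one_mulVec]
  exact Finset.sum_congr rfl fun i _ => by ring

/-- change of the family -/
theorem comb_mul {m : ℕ} (R : Matrix (Fin m) (Fin m) ℝ) (c x : Fin m → ℝ) :
    ∑ i, c i * (∑ j, R j i * x j) = ∑ j, (R.mulVec c) j * x j := by
  simp only [Matrix.mulVec, dotProduct, Finset.mul_sum, Finset.sum_mul]
  rw [Finset.sum_comm]
  exact Finset.sum_congr rfl fun i _ => Finset.sum_congr rfl fun j _ => by ring

theorem gram_change {α : Type*} [MeasurableSpace α] (μ : Measure α) {m : ℕ} {Ψ : Fin m → α → ℝ}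
    (hi : ∀ i j, Integrable (fun x => Ψ i x * Ψ j x) μ) (R : Matrix (Fin m) (Fin m) ℝ)
    (hR : R.transpose * (Matrix.of fun i j => ∫ x, Ψ i x * Ψ j x ∂μ) * R = 1) (i j : Fin m) :
    ∫ x, (∑ a, R a i * Ψ a x) * (∑ b, R b j * Ψ b x) ∂μ = if i = j then 1 else 0 := by
  have h1 : ∀ x, (∑ a, R a i * Ψ a x) * (∑ b, R b j * Ψ b x) =
      ∑ a, ∑ b, R a i * R b j * (Ψ a x * Ψ b x) := by
    intro x
    rw [Finset.sum_mul_sum]
    exact Finset.sum_congr rfl fun a _ => Finset.sum_congr rfl fun b _ => by ring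
  simp_rw [h1]
  rw [integral_finsetSum _ (fun a _ => integrable_finsetSum _ fun b _ => (hi a b).const_mul _)]
  have h2 : ∀ a, ∫ x, ∑ b, R a i * R b j * (Ψ a x * Ψ b x) ∂μ =
      ∑ b, R a i * (∫ x, Ψ a x * Ψ b x ∂μ) * R b j := by
    intro a
    rw [integral_finsetSum _ (fun b _ => (hi a b).const_mul _)]
    exact Finset.sum_congr rfl fun b _ => by rw [integral_const_mul]; ring
  simp_rw [h2]
  have h3 := congrFun (congrFun hR i) j
  rw [Matrix.one_apply] at h3
  rw [← h3, Matrix.mul_apply]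
  simp only [Matrix.mul_apply, Matrix.transpose_apply, Matrix.of_apply, Finset.sum_mul]
  rw [Finset.sum_comm]

section grp

variable {N n D l : ℕ} [NeZero l] {G : Subgroup (UU N)}

theorem compG (hG : IsClosed (G : Set (UU N))) : CompactSpace G :=
  isCompact_iff_compactSpace.1 hG.isCompact

theorem sctG : SecondCountableTopology G := by
  have h00 : SecondCountableTopology (UU N) := TopologicalSpace.Subtype.secondCountableTopology _
  exact TopologicalSpace.Subtype.secondCountableTopology _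

theorem mt_cont : Continuous (mt : G → Mt N) := continuous_subtype_val.comp continuous_subtype_val

theorem mat_cont : Continuous fun (U : Link D l → G) (e : Link D l) => mt (U e) :=
  continuous_pi fun e => mt_cont.comp (continuous_apply e)

theorem sm_cont {F : (Link D l → G) → ℝ} (hF : IsSmooth F) : Continuous F := by
  obtain ⟨f, hf, h⟩ := hF
  have h1 : F = fun U => f fun e => mt (U e) := funext h
  rw [h1]
  exact hf.continuous.comp mat_cont

theorem grp_int [MeasurableSpace G] [BorelSpace G] (hG : IsClosed (G : Set (UU N)))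
    (μ : Measure G) [IsProbabilityMeasure μ] {F : (Link D l → G) → ℝ} (hF : Continuous F) :
    Integrable F (Measure.pi fun _ : Link D l => μ) := by
  have := compG hG
  have := sctG (G := G)
  exact hF.integrable_of_hasCompactSupport (HasCompactSupport.of_compactSpace F)

theorem sm_comb {m : ℕ} {Ψ : Fin m → (Link D l → G) → ℝ} (h : ∀ i, IsSmooth (Ψ i))
    (c : Fin m → ℝ) : IsSmooth (fun U => ∑ i, c i * Ψ i U) := by
  choose f hf h using h
  exact ⟨fun M => ∑ i, c i * f i M, ContDiff.sum fun i _ => contDiff_const.mul (hf i),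
    fun U => by simp [h]⟩

theorem gi_comb {m : ℕ} {Ψ : Fin m → (Link D l → G) → ℝ} (h : ∀ i, GaugeInv (Ψ i))
    (c : Fin m → ℝ) : GaugeInv (fun U => ∑ i, c i * Ψ i U) := fun γ U => by
  simp only [h _ γ U]

theorem ce_comb {m : ℕ} {Ψ : Fin m → (Link D l → G) → ℝ} (h : ∀ i, CentreInv (Ψ i))
    (c : Fin m → ℝ) : CentreInv (fun U => ∑ i, c i * Ψ i U) := fun z hz U => by
  simp only [h _ z hz U]

end grp

section loc

variable {P Q : Type} [Fintype P] [DecidableEq P] [Fintype Q] [DecidableEq Q]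

theorem gau_cont (om : Q → ℝ) (g : ℝ) : Continuous (gau om g) := by
  unfold gau; fun_prop

theorem slice_supp {f : (P → ℝ) × (Q → ℝ) → ℝ} (hs : HasCompactSupport f) (C : P → ℝ) :
    HasCompactSupport fun a => f (C, a) := by
  refine HasCompactSupport.intro (hs.isCompact.image continuous_snd) fun a ha => ?_
  by_contra h
  exact ha ⟨(C, a), subset_tsupport _ h, rfl⟩

theorem T_int (L : Loc P Q) (g : ℝ) {f : (P → ℝ) × (Q → ℝ) → ℝ} (hf : Continuous f)
    (hs : HasCompactSupport f) (C : P → ℝ) :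
    Integrable fun a : Q → ℝ => f (C, a) * Real.sqrt (L.J (C, a)) * gau L.om g a := by
  have h1 : Continuous fun a : Q → ℝ => f (C, a) * Real.sqrt (L.J (C, a)) * gau L.om g a :=
    ((hf.comp (Continuous.prodMk_right C)).mul (Real.continuous_sqrt.comp
      (L.Jsm.continuous.comp (Continuous.prodMk_right C)))).mul (gau_cont _ _)
  apply h1.integrable_of_hasCompactSupport
  refine (slice_supp hs C).mono fun a ha => ?_
  rw [Function.mem_support] at ha ⊢
  intro h
  apply ha
  simp only [h, zero_mul]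

theorem T_comb (L : Loc P Q) (g : ℝ) {m : ℕ} {f : Fin m → (P → ℝ) × (Q → ℝ) → ℝ}
    (hf : ∀ i, Continuous (f i)) (hs : ∀ i, HasCompactSupport (f i)) (c : Fin m → ℝ) (C : P → ℝ) :
    L.T g (fun x => ∑ i, c i * f i x) C = ∑ i, c i * L.T g (f i) C := by
  unfold Loc.T
  have h1 : ∀ a : Q → ℝ, (∑ i, c i * f i (C, a)) * Real.sqrt (L.J (C, a)) * gau L.om g a =
      ∑ i, c i * (f i (C, a) * Real.sqrt (L.J (C, a)) * gau L.om g a) := by
    intro a
    rw [Finset.sum_mul, Finset.sum_mul]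
    exact Finset.sum_congr rfl fun i _ => by ring
  simp_rw [h1]
  rw [integral_finsetSum _ (fun i _ => (T_int L g (hf i) (hs i) C).const_mul _)]
  exact Finset.sum_congr rfl fun i _ => by rw [integral_const_mul]

theorem pd_comb {m : ℕ} {t : Fin m → (P → ℝ) → ℝ} (ht : ∀ i, ContDiff ℝ 1 (t i))
    (c : Fin m → ℝ) (p : P) (C : P → ℝ) :
    pd (fun C => ∑ i, c i * t i C) p C = ∑ i, c i * pd (t i) p C := by
  have hd : ∀ i, DifferentiableAt ℝ (t i) C := fun i => (ht i).differentiable (by simp) C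
  unfold pd
  rw [fderiv_fun_sum (fun i _ => (hd i).const_mul (c i))]
  rw [_root_.sum_apply]
  exact Finset.sum_congr rfl fun i _ => by rw [fderiv_const_mul (hd i)]; simp

theorem g2_fam {m : ℕ} {t : Fin m → (P → ℝ) → ℝ} (ht : ∀ i, ContDiff ℝ 1 (t i))
    (c : Fin m → ℝ) (C : P → ℝ) :
    g2 (fun C => ∑ i, c i * t i C) C =
      ∑ i, ∑ j, c i * c j * ∑ p, pd (t i) p C * pd (t j) p C := by
  unfold g2
  simp_rw [pd_comb ht, sq_comb, Finset.mul_sum]
  rw [Finset.sum_comm]
  refine Finset.sum_congr rfl fun i _ => ?_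
  rw [Finset.sum_comm]

theorem pd_cont {f : (P → ℝ) → ℝ} (hf : ContDiff ℝ 1 f) (p : P) : Continuous (pd f p) := by
  unfold pd
  exact (hf.continuous_fderiv (by simp)).clm_apply continuous_const

theorem pd_supp {f : (P → ℝ) → ℝ} (hs : HasCompactSupport f) (p : P) :
    HasCompactSupport (pd f p) := by
  refine (hs.fderiv (𝕜 := ℝ)).mono fun x hx => ?_
  rw [Function.mem_support] at hx ⊢
  intro h
  apply hx
  unfold pd
  rw [h]; simp

/-- the bilinear form of the energy -/
noncomputable def bil (a b : ℝ) (v : (P → ℝ) → ℝ) (f h : (P → ℝ) → ℝ) : ℝ :=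
  ∫ C, (a * (∑ p, pd f p C * pd h p C) + b * v C * (f C * h C))

theorem quad_en {m : ℕ} {t : Fin m → (P → ℝ) → ℝ} (ht : ∀ i, ContDiff ℝ 1 (t i))
    (hs : ∀ i, HasCompactSupport (t i)) {v : (P → ℝ) → ℝ} (hv : Continuous v) (a b : ℝ)
    (c : Fin m → ℝ) :
    ∫ C, (a * g2 (fun C => ∑ i, c i * t i C) C + b * v C * (∑ i, c i * t i C) ^ 2) =
      ∑ i, c i * ((Matrix.of fun i j => bil a b v (t i) (t j)).mulVec c) i := by
  have h1 : ∀ C, a * g2 (fun C => ∑ i, c i * t i C) C + b * v C * (∑ i, c i * t i C) ^ 2 =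
      ∑ i, ∑ j, c i * c j * (a * (∑ p, pd (t i) p C * pd (t j) p C) +
        b * v C * (t i C * t j C)) := by
    intro C
    rw [g2_fam ht, sq_comb, Finset.mul_sum, Finset.mul_sum, ← Finset.sum_add_distrib]
    refine Finset.sum_congr rfl fun i _ => ?_
    rw [Finset.mul_sum, Finset.mul_sum, ← Finset.sum_add_distrib]
    exact Finset.sum_congr rfl fun j _ => by ring
  simp_rw [h1]
  refine quad_int volume (fun i j C => a * (∑ p, pd (t i) p C * pd (t j) p C) +
        b * v C * (t i C * t j C)) (fun i j => ?_) c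
  apply Integrable.add
  · apply Integrable.const_mul
    refine integrable_finsetSum _ fun p _ => ?_
    exact ((pd_cont (ht i) p).mul (pd_cont (ht j) p)).integrable_of_hasCompactSupport
      ((pd_supp (hs i) p).mul_right)
  · have hc : Continuous fun C => b * v C * (t i C * t j C) :=
      (continuous_const.mul hv).mul ((ht i).continuous.mul (ht j).continuous)
    apply hc.integrable_of_hasCompactSupport
    exact ((hs i).mul_right (f' := t j)).mul_left (f := fun C => b * v C)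

theorem fam_int {m : ℕ} {t : Fin m → (P → ℝ) → ℝ} (ht : ∀ i, Continuous (t i))
    (hs : ∀ i, HasCompactSupport (t i)) (i j : Fin m) : Integrable fun x => t i x * t j x :=
  ((ht i).mul (ht j)).integrable_of_hasCompactSupport ((hs i).mul_right (f' := t j))

theorem ci_comb {m : ℕ} {𝒢 : Set ((P → ℝ) → (P → ℝ))} {t : Fin m → (P → ℝ) → ℝ}
    (ht : ∀ i, CI 𝒢 (t i)) (c : Fin m → ℝ) : CI 𝒢 (fun C => ∑ i, c i * t i C) := by
  refine ⟨ContDiff.sum fun i _ => contDiff_const.mul (ht i).sm, ?_, fun σ hσ x => ?_⟩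
  · have : ∀ s : Finset (Fin m), HasCompactSupport fun C => ∑ i ∈ s, c i * t i C := by
      intro s
      induction s using Finset.induction_on with
      | empty => simp only [Finset.sum_empty]; exact HasCompactSupport.zero
      | insert i s hi ih =>
        simp_rw [Finset.sum_insert hi]
        exact ((ht i).supp.mul_left (f := fun _ => c i)).add ih
    exact this _
  · simp only [(ht _).inv σ hσ x]

theorem E_eq (L : Loc P Q) {g : ℝ} (hg : 0 < g) :
    L.E g = g ^ (2 / 3 : ℝ) * L.c4 ^ (1 / 3 : ℝ) := by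
  have hc := L.c4pos
  unfold Loc.E Loc.s
  have h1 : ((g ^ 4 / L.c4) ^ (1 / 6 : ℝ)) ^ 2 = (g ^ 4 / L.c4) ^ (1 / 3 : ℝ) := by
    rw [← Real.rpow_natCast, ← Real.rpow_mul (by positivity)]
    norm_num
  have h2 : (g ^ 4) ^ (1 / 3 : ℝ) = g ^ (4 / 3 : ℝ) := by
    rw [← Real.rpow_natCast, ← Real.rpow_mul hg.le]
    norm_num
  have h3 : g ^ 2 = g ^ (2 / 3 : ℝ) * g ^ (4 / 3 : ℝ) := by
    rw [← Real.rpow_add hg, ← Real.rpow_natCast]
    norm_num
  rw [h1, Real.div_rpow (by positivity) hc.le, h2, h3]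
  have h4 : 0 < g ^ (4 / 3 : ℝ) := Real.rpow_pos_of_pos hg _
  have h5 : 0 < L.c4 ^ (1 / 3 : ℝ) := Real.rpow_pos_of_pos hc _
  field_simp

theorem lev_nonneg {v : (P → ℝ) → ℝ} (hv : ∀ C, 0 ≤ v C) (𝒢 : Set ((P → ℝ) → (P → ℝ))) (k : ℕ) :
    0 ≤ lev v 𝒢 k := by
  apply Real.sInf_nonneg
  rintro E ⟨ψ, _, _, h⟩
  have h1 := h (fun _ => 1)
  have h2 : 0 ≤ qf v (fun C => ∑ i, (fun _ => 1 : Fin (k + 1) → ℝ) i * ψ i C) := by
    unfold qf
    apply integral_nonneg
    intro C
    have := hv C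
    have := g2_nonneg (fun C => ∑ i, (fun _ => 1 : Fin (k + 1) → ℝ) i * ψ i C) C
    positivity
  have h3 := h2.trans h1
  simp only [one_pow, Finset.sum_const, Finset.card_univ, Fintype.card_fin, nsmul_eq_mul,
    mul_one] at h3
  have h4 : (0:ℝ) < ((k + 1 : ℕ) : ℝ) := by positivity
  exact nonneg_of_mul_nonneg_left h3 h4

end loc

theorem c4_rpow (D l : ℕ) [NeZero l] : (((l : ℝ) ^ D)⁻¹) ^ (1 / 3 : ℝ) = (l : ℝ) ^ (-(D : ℝ) / 3) := by
  have hl : (0:ℝ) < l := by exact_mod_cast Nat.pos_of_ne_zero (NeZero.ne l)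
  rw [← Real.rpow_natCast, ← Real.rpow_neg hl.le, ← Real.rpow_mul hl.le]
  congr 1; ring

end Pool.Agent.Q150.LU
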