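import Pool.Agent.Q58.LU.Hc
import Pool.Agent.Q129.LU.Hessf
import Pool.Agent.Q77.LU.StmU

/-! # Project LU (helper77), jobs HESL and GRADT: Lipschitz bounds with constants polynomial in the
size of the lattice (helper150) -/

set_option autoImplicit false
set_option linter.unusedSectionVars false

open MeasureTheory Matrix Set Filter Topology
open scoped ContDiff Matrix.Norms.Frobenius

namespace Pool.Agent.Q150.LUL

open Pool.Agent.Q77.LU

variable {N n D l : ℕ} {G : Subgroup (UU N)}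

/-- Cauchy-Schwarz for the scalar product of matrices -/
theorem ip_cs (A B : Mt N) : |Q58.LU.ip A B| ≤ ‖A‖ * ‖B‖ := by
  have h1 : ∀ t : ℝ, 0 ≤ fro2 B * (t * t) + 2 * Q58.LU.ip A B * t + fro2 A := by
    intro t
    have h2 := Q77.LU.fro2_nonneg (A + t • B)
    rw [← Q58.LU.ip_self, Q58.LU.ip_add_right, Q58.LU.ip_smul_right, Q58.LU.ip_comm _ A,
      Q58.LU.ip_comm _ B, Q58.LU.ip_add_right, Q58.LU.ip_add_right, Q58.LU.ip_smul_right,
      Q58.LU.ip_smul_right, Q58.LU.ip_comm B A, Q58.LU.ip_self, Q58.LU.ip_self] at h2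
    linarith
  have h3 := discrim_le_zero h1
  unfold discrim at h3
  rw [Q77.LU.fro2_eq, Q77.LU.fro2_eq] at h3
  have h4 : Q58.LU.ip A B ^ 2 ≤ (‖A‖ * ‖B‖) ^ 2 := by nlinarith
  exact abs_le_of_sq_le_sq h4 (by positivity)

theorem nX (B : LieBasis G n) (a : Fin n) : ‖B.X a‖ = 1 := by
  have h1 : fro2 (B.X a) = 1 := by
    have := B.orth a a
    rw [if_pos rfl] at this
    exact this
  rw [Q77.LU.fro2_eq] at h1
  nlinarith [norm_nonneg (B.X a)]

theorem nct (A : Mt N) : ‖Aᴴ‖ = ‖A‖ := Matrix.frobenius_norm_conjTranspose A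

theorem num (g : G) (M : Mt N) : ‖mt g * M‖ = ‖M‖ := by
  have h : fro2 (mt g * M) = fro2 M := by
    unfold fro2
    rw [conjTranspose_mul, Matrix.mul_assoc, ← Matrix.mul_assoc (mt g)ᴴ, Q77.LU.mt_unit',
      Matrix.one_mul]
  rw [Q77.LU.fro2_eq, Q77.LU.fro2_eq] at h
  exact (sq_eq_sq₀ (norm_nonneg _) (norm_nonneg _)).1 h

theorem nmu (g : G) (M : Mt N) : ‖M * mt g‖ = ‖M‖ := by
  have h := num g⁻¹ Mᴴ
  rw [← nct (M * mt g), conjTranspose_mul, ← Q77.LU.mt_inv, h, nct]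

theorem nmt (g : G) : ‖mt g‖ = ‖(1 : Mt N)‖ := by
  have := nmu g (1 : Mt N)
  rwa [Matrix.one_mul] at this

theorem dist_mul (g h g' h' : G) :
    ‖mt (g * h) - mt (g' * h')‖ ≤ ‖mt g - mt g'‖ + ‖mt h - mt h'‖ := by
  have h1 : mt (g * h) - mt (g' * h') = (mt g - mt g') * mt h + mt g' * (mt h - mt h') := by
    rw [Q77.LU.mt_mul, Q77.LU.mt_mul]; noncomm_ring
  rw [h1]
  refine (norm_add_le _ _).trans ?_
  rw [nmu, num]

theorem dist_inv (g g' : G) : ‖mt g⁻¹ - mt g'⁻¹‖ = ‖mt g - mt g'‖ := by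
  rw [Q77.LU.mt_inv, Q77.LU.mt_inv, ← conjTranspose_sub, nct]

theorem dist_plaq {U V : Link D l → G} {s : ℝ} (h : ∀ e, ‖mt (U e) - mt (V e)‖ ≤ s)
    (x : Fin D → ZMod l) (i j : Fin D) :
    ‖mt (plaq U x i j) - mt (plaq V x i j)‖ ≤ 4 * s := by
  unfold plaq
  have h1 := dist_mul (U (x, i) * U (x + unitv i, j) * (U (x + unitv j, i))⁻¹) (U (x, j))⁻¹
    (V (x, i) * V (x + unitv i, j) * (V (x + unitv j, i))⁻¹) (V (x, j))⁻¹
  have h2 := dist_mul (U (x, i) * U (x + unitv i, j)) (U (x + unitv j, i))⁻¹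
    (V (x, i) * V (x + unitv i, j)) (V (x + unitv j, i))⁻¹
  have h3 := dist_mul (U (x, i)) (U (x + unitv i, j)) (V (x, i)) (V (x + unitv i, j))
  rw [dist_inv] at h1 h2
  have e1 := h (x, i)
  have e2 := h (x + unitv i, j)
  have e3 := h (x + unitv j, i)
  have e4 := h (x, j)
  linarith

theorem dist_list (L : List (G × G)) {s : ℝ} (h : ∀ p ∈ L, ‖mt p.1 - mt p.2‖ ≤ s) :
    ‖mt (L.map Prod.fst).prod - mt (L.map Prod.snd).prod‖ ≤ L.length * s := by
  induction L with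
  | nil => simp
  | cons a L ih =>
    rw [List.map_cons, List.map_cons, List.prod_cons, List.prod_cons]
    have h1 := dist_mul a.1 (L.map Prod.fst).prod a.2 (L.map Prod.snd).prod
    have h2 := ih fun p hp => h p (List.mem_cons_of_mem _ hp)
    have h3 := h a List.mem_cons_self
    rw [List.length_cons]
    push_cast
    linarith

theorem dist_wind {U V : Link D l → G} {s : ℝ} (h : ∀ e, ‖mt (U e) - mt (V e)‖ ≤ s)
    (x : Fin D → ZMod l) (i : Fin D) :
    ‖mt (wind U x i) - mt (wind V x i)‖ ≤ l * s := by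
  have h1 := dist_list (List.ofFn fun t : Fin l =>
    (U (x + (t : ℕ) • unitv i, i), V (x + (t : ℕ) • unitv i, i))) (s := s) (by
      intro p hp
      obtain ⟨t, rfl⟩ := (List.mem_ofFn' _ _).1 hp
      exact h _)
  rw [List.map_ofFn, List.map_ofFn, List.length_ofFn] at h1
  exact h1

/-! ### the derivative of a plaquette -/

/-- bounds of two matrices and their difference -/
def Lb (K s : ℝ) (m : ℕ) (A B : Mt N) : Prop :=
  ‖A‖ ≤ K ^ m ∧ ‖B‖ ≤ K ^ m ∧ ‖A - B‖ ≤ m * K ^ m * s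

theorem Lb.mul {K s : ℝ} {m k : ℕ} {A B A' B' : Mt N} (hK : 1 ≤ K) (hs : 0 ≤ s)
    (h : Lb K s m A B) (h' : Lb K s k A' B') : Lb K s (m + k) (A * A') (B * B') := by
  obtain ⟨a1, a2, a3⟩ := h
  obtain ⟨b1, b2, b3⟩ := h'
  have hK0 : 0 ≤ K := by linarith
  refine ⟨?_, ?_, ?_⟩
  · rw [pow_add]
    exact (norm_mul_le _ _).trans (mul_le_mul a1 b1 (norm_nonneg _) (by positivity))
  · rw [pow_add]
    exact (norm_mul_le _ _).trans (mul_le_mul a2 b2 (norm_nonneg _) (by positivity))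
  · have h1 : A * A' - B * B' = (A - B) * A' + B * (A' - B') := by noncomm_ring
    rw [h1]
    refine (norm_add_le _ _).trans ?_
    have h2 : ‖(A - B) * A'‖ ≤ (m * K ^ m * s) * K ^ k :=
      (norm_mul_le _ _).trans (mul_le_mul a3 b1 (norm_nonneg _) (by positivity))
    have h3 : ‖B * (A' - B')‖ ≤ K ^ m * (k * K ^ k * s) :=
      (norm_mul_le _ _).trans (mul_le_mul a2 b3 (norm_nonneg _) (by positivity))
    rw [pow_add]
    push_cast
    nlinarith

theorem Lb.ct {K s : ℝ} {m : ℕ} {A B : Mt N} (h : Lb K s m A B) : Lb K s m Aᴴ Bᴴ := by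
  obtain ⟨a1, a2, a3⟩ := h
  refine ⟨by rwa [nct], by rwa [nct], ?_⟩
  rwa [← conjTranspose_sub, nct]

theorem Lb.dl {K s : ℝ} {m : ℕ} {A B : Mt N} (h : Lb K s m A B) (e e' : Link D l) :
    Lb K s m (Q129.LU.dl e e' • A) (Q129.LU.dl e e' • B) := by
  obtain ⟨a1, a2, a3⟩ := h
  unfold Q129.LU.dl
  split_ifs
  · rw [one_smul, one_smul]; exact ⟨a1, a2, a3⟩
  · rw [zero_smul, zero_smul, Lb, norm_zero, sub_zero, norm_zero]
    exact ⟨(norm_nonneg _).trans a1, (norm_nonneg _).trans a1, (norm_nonneg _).trans a3⟩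

theorem Lb.link {U V : Link D l → G} {s : ℝ} (h : ∀ e, ‖mt (U e) - mt (V e)‖ ≤ s)
    (e : Link D l) : Lb (1 + ‖(1 : Mt N)‖) s 1 (mt (U e)) (mt (V e)) := by
  have h0 := norm_nonneg (1 : Mt N)
  have hs : 0 ≤ s := (norm_nonneg _).trans (h e)
  refine ⟨?_, ?_, ?_⟩
  · rw [nmt, pow_one]; linarith
  · rw [nmt, pow_one]; linarith
  · rw [pow_one]; push_cast
    have := h e
    nlinarith

theorem Lb.X (B : LieBasis G n) (a : Fin n) {s : ℝ} (hs : 0 ≤ s) :
    Lb (1 + ‖(1 : Mt N)‖) s 1 (B.X a) (B.X a) := by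
  have h0 := norm_nonneg (1 : Mt N)
  refine ⟨?_, ?_, ?_⟩
  · rw [nX, pow_one]; linarith
  · rw [nX, pow_one]; linarith
  · rw [sub_self, norm_zero]; positivity

theorem dpl_eq (B : LieBasis G n) (U : Link D l → G) (x : Fin D → ZMod l)
    (i j : Fin D) (p : Link D l × Fin n) :
    dpl B U x i j p =
      (((Q129.LU.dl (x, i) p.1 • (B.X p.2 * mt (U (x, i))) * mt (U (x + unitv i, j)) +
        mt (U (x, i)) * Q129.LU.dl (x + unitv i, j) p.1 • (B.X p.2 * mt (U (x + unitv i, j)))) *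
          (mt (U (x + unitv j, i)))ᴴ +
        mt (U (x, i)) * mt (U (x + unitv i, j)) *
          (Q129.LU.dl (x + unitv j, i) p.1 • (B.X p.2 * mt (U (x + unitv j, i))))ᴴ) *
            (mt (U (x, j)))ᴴ +
        mt (U (x, i)) * mt (U (x + unitv i, j)) * (mt (U (x + unitv j, i)))ᴴ *
          (Q129.LU.dl (x, j) p.1 • (B.X p.2 * mt (U (x, j))))ᴴ) := by
  have h1 := Q129.LU.der_link B U p (x, i)
  have h2 := Q129.LU.der_link B U p (x + unitv i, j)
  have h3 := H906R3.YM.hasDeriv_ct (Q129.LU.der_link B U p (x + unitv j, i))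
  have h4 := H906R3.YM.hasDeriv_ct (Q129.LU.der_link B U p (x, j))
  have h5 := ((h1.fun_mul h2).fun_mul h3).fun_mul h4
  have hz : Function.update U p.1 (B.ex p.2 0 * U p.1) = U := by
    rw [Q129.LU.ex_zero, one_mul, Function.update_eq_self]
  rw [hz] at h5
  unfold dpl
  refine HasDerivAt.deriv ?_
  have e0 : (fun t => mt (plaq (Function.update U p.1 (B.ex p.2 t * U p.1)) x i j))
      = fun t => mt (Function.update U p.1 (B.ex p.2 t * U p.1) (x, i))
        * mt (Function.update U p.1 (B.ex p.2 t * U p.1) (x + unitv i, j))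
        * (mt (Function.update U p.1 (B.ex p.2 t * U p.1) (x + unitv j, i)))ᴴ
        * (mt (Function.update U p.1 (B.ex p.2 t * U p.1) (x, j)))ᴴ := by
    funext t
    rfl
  rw [e0]
  exact h5

theorem dpl_bd (B : LieBasis G n) {U V : Link D l → G} {s : ℝ}
    (h : ∀ e, ‖mt (U e) - mt (V e)‖ ≤ s) (x : Fin D → ZMod l) (i j : Fin D)
    (p : Link D l × Fin n) :
    ‖dpl B U x i j p‖ ≤ 4 * (1 + ‖(1 : Mt N)‖) ^ 5 ∧
    ‖dpl B V x i j p‖ ≤ 4 * (1 + ‖(1 : Mt N)‖) ^ 5 ∧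
    ‖dpl B U x i j p - dpl B V x i j p‖ ≤ 20 * (1 + ‖(1 : Mt N)‖) ^ 5 * s := by
  obtain ⟨K, hKd⟩ : ∃ K, K = 1 + ‖(1 : Mt N)‖ := ⟨_, rfl⟩
  have hs : 0 ≤ s := (norm_nonneg _).trans (h p.1)
  have hK : 1 ≤ K := by rw [hKd]; linarith [norm_nonneg (1 : Mt N)]
  have l1 := Lb.link h (x, i)
  have l2 := Lb.link h (x + unitv i, j)
  have l3 := Lb.link h (x + unitv j, i)
  have l4 := Lb.link h (x, j)
  have lX := Lb.X B p.2 hs
  rw [← hKd] at l1 l2 l3 l4 lX ⊢
  have t1 : Lb K s 5 _ _ :=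
    ((((lX.mul hK hs l1).dl (x, i) p.1).mul hK hs l2).mul hK hs l3.ct).mul hK hs l4.ct
  have t2 : Lb K s 5 _ _ := ((l1.mul hK hs ((lX.mul hK hs l2).dl (x + unitv i, j) p.1)).mul
    hK hs l3.ct).mul hK hs l4.ct
  have t3 : Lb K s 5 _ _ := ((l1.mul hK hs l2).mul hK hs
    ((lX.mul hK hs l3).dl (x + unitv j, i) p.1).ct).mul hK hs l4.ct
  have t4 : Lb K s 5 _ _ := ((l1.mul hK hs l2).mul hK hs l3.ct).mul hK hs
    ((lX.mul hK hs l4).dl (x, j) p.1).ct
  obtain ⟨a1, b1, c1⟩ := t1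
  obtain ⟨a2, b2, c2⟩ := t2
  obtain ⟨a3, b3, c3⟩ := t3
  obtain ⟨a4, b4, c4⟩ := t4
  rw [Nat.cast_ofNat] at c1 c2 c3 c4
  have key : ∀ (T1 T2 T3 T4 : Mt N), ‖T1 + T2 + T3 + T4‖ ≤ ‖T1‖ + ‖T2‖ + ‖T3‖ + ‖T4‖ :=
    fun T1 T2 T3 T4 => (norm_add_le _ _).trans (add_le_add_left ((norm_add_le _ _).trans
      (add_le_add_left (norm_add_le _ _) _)) _)
  refine ⟨?_, ?_, ?_⟩
  · rw [dpl_eq, add_mul, add_mul, add_mul]
    refine (key _ _ _ _).trans ?_
    linarith
  · rw [dpl_eq, add_mul, add_mul, add_mul]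
    refine (key _ _ _ _).trans ?_
    linarith
  · rw [dpl_eq, dpl_eq, add_mul, add_mul, add_mul, add_mul, add_mul, add_mul, add_sub_add_comm,
      add_sub_add_comm, add_sub_add_comm]
    refine (key _ _ _ _).trans ?_
    linarith

theorem ip_sub {A B A' B' : Mt N} {a b : ℝ} (h1 : ‖A'‖ ≤ a) (h2 : ‖B‖ ≤ a)
    (h3 : ‖A - A'‖ ≤ b) (h4 : ‖B - B'‖ ≤ b) :
    |Q58.LU.ip A B - Q58.LU.ip A' B'| ≤ 2 * (a * b) := by
  have e1 : Q58.LU.ip A B - Q58.LU.ip A' B' = Q58.LU.ip (A - A') B + Q58.LU.ip A' (B - B') := by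
    unfold Q58.LU.ip
    rw [conjTranspose_sub, sub_mul, mul_sub, trace_sub, trace_sub, Complex.sub_re, Complex.sub_re]
    ring
  rw [e1]
  have k1 := (ip_cs (A - A') B).trans (mul_le_mul h3 h2 (norm_nonneg _)
    ((norm_nonneg _).trans h3))
  have k2 := (ip_cs A' (B - B')).trans (mul_le_mul h1 h4 (norm_nonneg _)
    ((norm_nonneg _).trans h1))
  refine (abs_add_le _ _).trans ?_
  linarith

theorem sum3_le [NeZero l] {m : ℕ} {φ : (Fin D → ZMod l) → Fin D → Fin m → ℝ} {c : ℝ}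
    (h : ∀ x i j, |φ x i j| ≤ c) :
    |∑ x : Fin D → ZMod l, ∑ i : Fin D, ∑ j : Fin m, φ x i j| ≤ (l : ℝ) ^ D * (D * (m * c)) := by
  refine (Finset.abs_sum_le_sum_abs _ _).trans ?_
  have h1 : ∀ x : Fin D → ZMod l, |∑ i : Fin D, ∑ j : Fin m, φ x i j| ≤ D * (m * c) := by
    intro x
    refine (Finset.abs_sum_le_sum_abs _ _).trans ?_
    have h2 : ∀ i : Fin D, |∑ j : Fin m, φ x i j| ≤ m * c := by
      intro i
      refine (Finset.abs_sum_le_sum_abs _ _).trans ?_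
      refine (Finset.sum_le_sum fun j _ => h x i j).trans ?_
      rw [Finset.sum_const, Finset.card_univ, Fintype.card_fin, nsmul_eq_mul]
    refine (Finset.sum_le_sum fun i _ => h2 i).trans ?_
    rw [Finset.sum_const, Finset.card_univ, Fintype.card_fin, nsmul_eq_mul]
  refine (Finset.sum_le_sum fun x _ => h1 x).trans ?_
  rw [Finset.sum_const, Finset.card_univ, nsmul_eq_mul, Fintype.card_fun, ZMod.card,
    Fintype.card_fin]
  push_cast
  exact le_refl _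

theorem t_HESL (_ : S_EXPG) : S_HESL := by
  intro N n D G hG B
  obtain ⟨K, hKd⟩ : ∃ K, K = 1 + ‖(1 : Mt N)‖ := ⟨_, rfl⟩
  have hK : 1 ≤ K := by rw [hKd]; linarith [norm_nonneg (1 : Mt N)]
  refine ⟨D, 1 + D * (D * (160 * K ^ 10)), by
    have : 0 ≤ (D:ℝ) * (D * (160 * K ^ 10)) := by positivity
    linarith, fun l _ U V s h p q => ?_⟩
  have hs : 0 ≤ s := (norm_nonneg _).trans (h p.1)
  have e1 : hess B U p q - hess B V p q = ∑ x : Fin D → ZMod l, ∑ i : Fin D, ∑ j : Fin D,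
      if i < j then (Q58.LU.ip (dpl B U x i j p) (dpl B U x i j q) -
        Q58.LU.ip (dpl B V x i j p) (dpl B V x i j q)) else 0 := by
    unfold hess
    rw [← Finset.sum_sub_distrib]
    refine Finset.sum_congr rfl fun x _ => ?_
    rw [← Finset.sum_sub_distrib]
    refine Finset.sum_congr rfl fun i _ => ?_
    rw [← Finset.sum_sub_distrib]
    refine Finset.sum_congr rfl fun j _ => ?_
    split_ifs
    · rfl
    · rw [sub_zero]
  rw [e1]
  have h1 := sum3_le (c := 160 * K ^ 10 * s) (φ := fun (x : Fin D → ZMod l) (i j : Fin D) =>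
    if i < j then (Q58.LU.ip (dpl B U x i j p) (dpl B U x i j q) -
        Q58.LU.ip (dpl B V x i j p) (dpl B V x i j q)) else 0) (by
      intro x i j
      split_ifs
      · obtain ⟨a1, b1, c1⟩ := dpl_bd B h x i j p
        obtain ⟨a2, b2, c2⟩ := dpl_bd B h x i j q
        rw [← hKd] at a1 b1 c1 a2 b2 c2
        refine (ip_sub b1 a2 c1 c2).trans (le_of_eq ?_)
        ring
      · rw [abs_zero]; positivity)
  refine h1.trans ?_
  have h2 : 0 ≤ (l : ℝ) ^ D * s := by positivity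
  nlinarith

/-! ### the gradient of tau -/

theorem fro2_lip {A A' : Mt N} {a b : ℝ} (h1 : ‖A‖ ≤ a) (h2 : ‖A'‖ ≤ a) (h3 : ‖A - A'‖ ≤ b) :
    |fro2 A - fro2 A'| ≤ 2 * (a * b) := by
  have h := ip_sub (A := A) (B := A) (A' := A') (B' := A') h2 h1 h3 h3
  rwa [Q58.LU.ip_self, Q58.LU.ip_self] at h

theorem wX_bd (B : LieBasis G n) (a : Fin n) (w : G) :
    ‖mt w * B.X a * (mt w)ᴴ - B.X a‖ ≤ 2 := by
  refine (norm_sub_le _ _).trans ?_
  rw [← Q77.LU.mt_inv, nmu, num, nX]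
  norm_num

theorem wX_lip (B : LieBasis G n) (a : Fin n) (w w' : G) :
    ‖(mt w * B.X a * (mt w)ᴴ - B.X a) - (mt w' * B.X a * (mt w')ᴴ - B.X a)‖ ≤
      2 * ‖mt w - mt w'‖ := by
  have h1 : (mt w * B.X a * (mt w)ᴴ - B.X a) - (mt w' * B.X a * (mt w')ᴴ - B.X a) =
      (mt w - mt w') * B.X a * (mt w)ᴴ + mt w' * (B.X a * (mt w - mt w')ᴴ) := by
    rw [conjTranspose_sub]; noncomm_ring
  rw [h1]
  refine (norm_add_le _ _).trans ?_
  rw [← Q77.LU.mt_inv, nmu, num]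
  have h2 : ‖(mt w - mt w') * B.X a‖ ≤ ‖mt w - mt w'‖ * 1 := by
    rw [← nX B a]; exact norm_mul_le _ _
  have h3 : ‖B.X a * (mt w - mt w')ᴴ‖ ≤ 1 * ‖mt w - mt w'‖ := by
    rw [← nX B a, ← nct (mt w - mt w')]
    exact norm_mul_le _ _
  linarith

theorem tau_lip [NeZero l] (B : LieBasis G n) {U V : Link D l → G} {s : ℝ}
    (hs : 0 ≤ s) (h : ∀ e, ‖mt (U e) - mt (V e)‖ ≤ s) :
    |tau B U - tau B V| ≤
      (4 * (D * (D * ‖(1 : Mt N)‖)) + 8 * (D * n)) * (l : ℝ) ^ (D + 1) * s := by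
  have hl1 : (1:ℝ) ≤ l := by exact_mod_cast Nat.one_le_iff_ne_zero.2 (NeZero.ne l)
  have e1 : tau B U - tau B V = (∑ x : Fin D → ZMod l, ∑ i : Fin D, ∑ j : Fin D,
      if i < j then Q58.LU.ip 1 (mt (plaq V x i j) - mt (plaq U x i j)) else 0) +
      ∑ x : Fin D → ZMod l, ∑ i : Fin D, ∑ a : Fin n,
        (fro2 (mt (wind U x i) * B.X a * (mt (wind U x i))ᴴ - B.X a) -
          fro2 (mt (wind V x i) * B.X a * (mt (wind V x i))ᴴ - B.X a)) := by
    have e2 : magnetic U - magnetic V = ∑ x : Fin D → ZMod l, ∑ i : Fin D, ∑ j : Fin D,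
      if i < j then Q58.LU.ip 1 (mt (plaq V x i j) - mt (plaq U x i j)) else 0 := by
      unfold magnetic
      rw [← Finset.sum_sub_distrib]
      refine Finset.sum_congr rfl fun x _ => ?_
      rw [← Finset.sum_sub_distrib]
      refine Finset.sum_congr rfl fun i _ => ?_
      rw [← Finset.sum_sub_distrib]
      refine Finset.sum_congr rfl fun j _ => ?_
      split_ifs
      · unfold Q58.LU.ip
        rw [conjTranspose_one, Matrix.one_mul, trace_sub, trace_sub, trace_sub, Complex.sub_re,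
          Complex.sub_re, Complex.sub_re]
        ring
      · rw [sub_zero]
    rw [← e2]
    unfold tau
    simp only [Finset.sum_sub_distrib]
    ring
  rw [e1]
  refine (abs_add_le _ _).trans ?_
  have h1 := sum3_le (c := ‖(1 : Mt N)‖ * (4 * s)) (φ := fun (x : Fin D → ZMod l)
    (i j : Fin D) => if i < j then Q58.LU.ip 1 (mt (plaq V x i j) - mt (plaq U x i j)) else 0) (by
      intro x i j
      split_ifs
      · refine (ip_cs _ _).trans (mul_le_mul_of_nonneg_left ?_ (norm_nonneg _))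
        rw [norm_sub_rev]
        exact dist_plaq h x i j
      · rw [abs_zero]; positivity)
  have h2 := sum3_le (c := 2 * (2 * (2 * (l * s)))) (φ := fun (x : Fin D → ZMod l)
    (i : Fin D) (a : Fin n) => (fro2 (mt (wind U x i) * B.X a * (mt (wind U x i))ᴴ - B.X a) -
          fro2 (mt (wind V x i) * B.X a * (mt (wind V x i))ᴴ - B.X a))) (by
      intro x i a
      refine fro2_lip (wX_bd B a _) (wX_bd B a _) ((wX_lip B a _ _).trans ?_)
      exact mul_le_mul_of_nonneg_left (dist_wind h x i) (by norm_num))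
  refine (add_le_add h1 h2).trans ?_
  have h3 : (l : ℝ) ^ D ≤ (l : ℝ) ^ (D + 1) := pow_le_pow_right₀ hl1 (by omega)
  have h4 : (l : ℝ) ^ D * (D * (D * (‖(1 : Mt N)‖ * (4 * s)))) ≤
      (l : ℝ) ^ (D + 1) * (D * (D * (‖(1 : Mt N)‖ * (4 * s)))) :=
    mul_le_mul_of_nonneg_right h3 (by positivity)
  refine (add_le_add h4 (le_refl _)).trans (le_of_eq ?_)
  rw [pow_succ]
  ring

theorem dlink_bd (B : LieBasis G n) {F : (Link D l → G) → ℝ} {C : ℝ} 
    (hF : ∀ (U V : Link D l → G) (s : ℝ), 0 ≤ s → (∀ e, ‖mt (U e) - mt (V e)‖ ≤ s) →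
      |F U - F V| ≤ C * s) (e : Link D l) (a : Fin n) (U : Link D l → G) :
    |dlink B e a F U| ≤ C := by
  have hC : 0 ≤ C := by
    have := hF U U 1 one_pos.le (fun e => by rw [sub_self, norm_zero]; exact one_pos.le)
    rw [sub_self, abs_zero] at this
    linarith
  unfold dlink
  obtain ⟨f, hf⟩ : ∃ f : ℝ → ℝ, f = fun t => F (Function.update U e (B.ex a t * U e)) := ⟨_, rfl⟩
  rw [← hf]
  by_cases hd : DifferentiableAt ℝ f 0
  · have h1 := hasDerivAt_iff_tendsto_slope.1 hd.hasDerivAt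
    have h2 := hasDerivAt_iff_tendsto_slope.1 (Q129.LU.der_link B U (e, a) e)
    have h3 : Q129.LU.dl e (e, a).1 = 1 := by unfold Q129.LU.dl; rw [if_pos rfl]
    rw [h3, one_smul] at h2
    have h4 := h1.norm
    have h5 := (h2.norm).const_mul C
    have h6 : ‖B.X (e, a).2 * mt (U e)‖ = 1 := by rw [nmu, nX]
    rw [h6, mul_one] at h5
    rw [← Real.norm_eq_abs]
    refine le_of_tendsto_of_tendsto' h4 h5 fun t => ?_
    rw [slope, slope, vsub_eq_sub, vsub_eq_sub, norm_smul, norm_smul, Real.norm_eq_abs (f t - f 0)]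
    have h7 : |f t - f 0| ≤ C * ‖mt (Function.update U e (B.ex a t * U e) e) -
        mt (Function.update U e (B.ex a 0 * U e) e)‖ := by
      rw [hf]
      refine hF _ _ _ (norm_nonneg _) fun e' => ?_
      by_cases he : e' = e
      · rw [he]
      · rw [Function.update_of_ne he, Function.update_of_ne he, sub_self, norm_zero]
        exact norm_nonneg _
    calc ‖(t - 0)⁻¹‖ * |f t - f 0| ≤ ‖(t - 0)⁻¹‖ * (C * ‖mt (Function.update U e
          (B.ex a t * U e) e) - mt (Function.update U e (B.ex a 0 * U e) e)‖) :=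
          mul_le_mul_of_nonneg_left h7 (norm_nonneg _)
      _ = _ := by ring
  · rw [deriv_zero_of_not_differentiableAt hd, abs_zero]
    exact hC

theorem t_GRADT (_ : S_EXPG) : S_GRADT := by
  intro N n D G hG B
  obtain ⟨C1, hC1⟩ : ∃ C1, C1 = 4 * (D * (D * ‖(1 : Mt N)‖)) + 8 * ((D : ℝ) * n) := ⟨_, rfl⟩
  have hC10 : 0 ≤ C1 := by rw [hC1]; positivity
  refine ⟨3 * D + 2, 1 + D * (n * C1 ^ 2), by
    have : 0 ≤ (D:ℝ) * (n * C1 ^ 2) := by positivity
    linarith, fun l _ U => ?_⟩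
  have h1 : ∀ (e : Link D l) (a : Fin n), dlink B e a (tau B) U ^ 2 ≤
      (C1 * (l : ℝ) ^ (D + 1)) ^ 2 := by
    intro e a
    have h2 := dlink_bd B (F := tau B) (C := C1 * (l : ℝ) ^ (D + 1)) (fun U V s hs h => by
      rw [hC1]; exact tau_lip B hs h) e a U
    rw [← sq_abs]
    exact pow_le_pow_left₀ (abs_nonneg _) h2 2
  refine (Finset.sum_le_sum fun e _ => Finset.sum_le_sum fun a _ => h1 e a).trans ?_
  rw [Finset.sum_const, Finset.sum_const, Finset.card_univ, Finset.card_univ, nsmul_eq_mul,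
    nsmul_eq_mul, Fintype.card_prod, Fintype.card_fun, ZMod.card, Fintype.card_fin,
    Fintype.card_fin]
  push_cast
  have h3 : (l : ℝ) ^ D * D * (n * (C1 * (l : ℝ) ^ (D + 1)) ^ 2) =
      D * (n * C1 ^ 2) * (l : ℝ) ^ (3 * D + 2) := by
    have : (l : ℝ) ^ (3 * D + 2) = (l : ℝ) ^ D * ((l : ℝ) ^ (D + 1)) ^ 2 := by
      rw [← pow_mul, ← pow_add]; congr 1; ring
    rw [this]; ring
  rw [h3]
  have h4 : 0 ≤ (l : ℝ) ^ (3 * D + 2) := by positivity
  nlinarith

end Pool.Agent.Q150.LUL
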