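import Pool.Agent.Q150.LU.LOW

/-! # Project LU (helper77), job UPP: upper bound of the levels (helper150) -/

set_option autoImplicit false
set_option linter.unusedSectionVars false

open MeasureTheory Matrix Set Filter Topology
open scoped ContDiff Matrix.Norms.Frobenius

namespace Pool.Agent.Q150.LU

open Pool.Agent.Q77.LU

section gcalc

variable {N n D l : ℕ} [NeZero l] {G : Subgroup (UU N)}

theorem mt_mul (g h : G) : mt (g * h) = mt g * mt h := rfl

theorem hasDeriv_mat (B : LieBasis G n) (e : Link D l) (a : Fin n) (U : Link D l → G) :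
    HasDerivAt (fun (t : ℝ) (e' : Link D l) => mt (Function.update U e (B.ex a t * U e) e'))
      (Pi.single e (B.X a * mt (U e))) 0 := by
  refine hasDerivAt_pi.2 fun e' => ?_
  by_cases h : e' = e
  · subst h
    simp only [Function.update_self, Pi.single_eq_same]
    have h1 : (fun t => mt (B.ex a t * U e')) =
        fun t : ℝ => NormedSpace.exp (t • B.X a) * (mt (U e') : Mt N) := by
      funext t; rw [mt_mul, B.ex_eq]
    rw [h1]
    have h2 := hasDerivAt_exp_smul_const (𝕂 := ℝ) (B.X a) (0 : ℝ)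
    rw [zero_smul, NormedSpace.exp_zero, one_mul] at h2
    exact h2.mul_const (mt (U e') : Mt N)
  · simp only [Function.update_of_ne h, Pi.single_eq_of_ne h]
    exact hasDerivAt_const _ _

theorem hasDeriv_sm (B : LieBasis G n) (e : Link D l) (a : Fin n) (U : Link D l → G)
    {F : (Link D l → G) → ℝ} {f : (Link D l → Mt N) → ℝ} (hf : ContDiff ℝ ∞ f)
    (h : ∀ U, F U = f fun e => mt (U e)) :
    HasDerivAt (fun t => F (Function.update U e (B.ex a t * U e)))
      (fderiv ℝ f (fun e => mt (U e)) (Pi.single e (B.X a * mt (U e)))) 0 := by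
  have h1 : (fun t => F (Function.update U e (B.ex a t * U e))) =
      f ∘ fun (t : ℝ) (e' : Link D l) => mt (Function.update U e (B.ex a t * U e) e') := by
    funext t; exact h _
  rw [h1]
  have h0 : (fun e' : Link D l => mt (Function.update U e (B.ex a 0 * U e) e')) =
      fun e' => mt (U e') := by
    funext e'
    by_cases he : e' = e
    · subst he
      rw [Function.update_self, mt_mul, B.ex_eq, zero_smul, NormedSpace.exp_zero, one_mul]
    · rw [Function.update_of_ne he]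
  have h2 : HasFDerivAt f (fderiv ℝ f (fun e => mt (U e)))
      (fun e' : Link D l => mt (Function.update U e (B.ex a 0 * U e) e')) := by
    rw [h0]
    exact (hf.differentiable (by simp) _).hasFDerivAt
  exact h2.comp_hasDerivAt 0 (hasDeriv_mat B e a U)

theorem dlink_cont (B : LieBasis G n) (e : Link D l) (a : Fin n) {F : (Link D l → G) → ℝ}
    (hF : IsSmooth F) : Continuous (dlink B e a F) := by
  obtain ⟨f, hf, h⟩ := hF
  have h1 : dlink B e a F = fun U : Link D l → G =>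
      fderiv ℝ f (fun e => mt (U e)) (Pi.single e (B.X a * mt (U e))) := by
    funext U
    exact (hasDeriv_sm B e a U hf h).deriv
  rw [h1]
  apply ((hf.continuous_fderiv (by simp)).comp mat_cont).clm_apply
  exact (continuous_single e).comp (continuous_const.mul (mt_cont.comp (continuous_apply e)))

theorem dlink_diff (B : LieBasis G n) (e : Link D l) (a : Fin n) {F : (Link D l → G) → ℝ}
    (hF : IsSmooth F) (U : Link D l → G) :
    DifferentiableAt ℝ (fun t => F (Function.update U e (B.ex a t * U e))) 0 := by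
  obtain ⟨f, hf, h⟩ := hF
  exact (hasDeriv_sm B e a U hf h).differentiableAt

theorem dlink_comb (B : LieBasis G n) (e : Link D l) (a : Fin n) {m : ℕ}
    {F : Fin m → (Link D l → G) → ℝ} (hF : ∀ i, IsSmooth (F i)) (c : Fin m → ℝ)
    (U : Link D l → G) :
    dlink B e a (fun U => ∑ i, c i * F i U) U = ∑ i, c i * dlink B e a (F i) U := by
  unfold dlink
  have hd := fun i => dlink_diff B e a (hF i) U
  rw [deriv_fun_sum (fun i _ => (hd i).const_mul (c i))]
  exact Finset.sum_congr rfl fun i _ => by rw [deriv_const_mul _ (hd i)]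

theorem magnetic_cont : Continuous (magnetic : (Link D l → G) → ℝ) := by
  unfold magnetic
  refine continuous_finsetSum _ fun x _ => continuous_finsetSum _ fun i _ =>
    continuous_finsetSum _ fun j _ => ?_
  split_ifs
  · have h1 : Continuous fun U : Link D l → G => plaq U x i j := by
      unfold plaq; fun_prop
    have h2 : Continuous fun U : Link D l → G => (1 : Mt N) - mt (plaq U x i j) :=
      continuous_const.sub (mt_cont.comp h1)
    exact Complex.continuous_re.comp h2.matrix_trace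
  · exact continuous_const

/-- the bilinear form of the energy on the group -/
noncomputable def ebil [MeasurableSpace G] (B : LieBasis G n) (μ : Measure G) (g : ℝ)
    (F H : (Link D l → G) → ℝ) : ℝ :=
  ∫ U, (g ^ 2 / 2 * (∑ e : Link D l, ∑ a : Fin n, dlink B e a F U * dlink B e a H U) +
    1 / g ^ 2 * magnetic U * (F U * H U)) ∂(Measure.pi fun _ : Link D l => μ)

theorem quad_energy [MeasurableSpace G] [BorelSpace G] (hG : IsClosed (G : Set (UU N)))
    (B : LieBasis G n) (μ : Measure G) [IsProbabilityMeasure μ] (g : ℝ) {m : ℕ}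
    {F : Fin m → (Link D l → G) → ℝ} (hF : ∀ i, IsSmooth (F i)) (c : Fin m → ℝ) :
    energy B μ g (fun U => ∑ i, c i * F i U) =
      ∑ i, c i * ((Matrix.of fun i j => ebil B μ g (F i) (F j)).mulVec c) i := by
  have hsum := sm_comb hF c
  have hcd := fun e a => (dlink_cont B e a hsum)
  have hcs := sm_cont hsum
  have h1 : energy B μ g (fun U => ∑ i, c i * F i U) =
      ∫ U, (g ^ 2 / 2 * (∑ e : Link D l, ∑ a : Fin n,
        dlink B e a (fun U => ∑ i, c i * F i U) U ^ 2) +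
        1 / g ^ 2 * magnetic U * (∑ i, c i * F i U) ^ 2)
        ∂(Measure.pi fun _ : Link D l => μ) := by
    unfold energy
    have k1 : ∀ e : Link D l, ∀ a : Fin n, Integrable
        (fun U => dlink B e a (fun U => ∑ i, c i * F i U) U ^ 2)
        (Measure.pi fun _ : Link D l => μ) := fun e a => grp_int hG μ ((hcd e a).pow 2)
    have k2 : Integrable (fun U => magnetic U * (∑ i, c i * F i U) ^ 2)
        (Measure.pi fun _ : Link D l => μ) := grp_int hG μ (magnetic_cont.mul (hcs.pow 2))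
    simp_rw [mul_assoc (1 / g ^ 2)]
    rw [integral_add ((integrable_finsetSum _ fun e _ => integrable_finsetSum _ fun a _ =>
      k1 e a).const_mul _) (k2.const_mul _), integral_const_mul, integral_const_mul,
      integral_finsetSum _ (fun e _ => integrable_finsetSum _ fun a _ => k1 e a)]
    congr 2
    refine Finset.sum_congr rfl fun e _ => ?_
    rw [integral_finsetSum _ (fun a _ => k1 e a)]
  rw [h1]
  have h2 : ∀ U, g ^ 2 / 2 * (∑ e : Link D l, ∑ a : Fin n,
        dlink B e a (fun U => ∑ i, c i * F i U) U ^ 2) +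
        1 / g ^ 2 * magnetic U * (∑ i, c i * F i U) ^ 2 =
      ∑ i, ∑ j, c i * c j * (g ^ 2 / 2 * (∑ e : Link D l, ∑ a : Fin n,
        dlink B e a (F i) U * dlink B e a (F j) U) + 1 / g ^ 2 * magnetic U * (F i U * F j U)) := by
    intro U
    simp_rw [dlink_comb B _ _ hF, sq_comb]
    have k3 : ∑ e : Link D l, ∑ a : Fin n, ∑ i, ∑ j, c i * c j *
        (dlink B e a (F i) U * dlink B e a (F j) U) = ∑ i, ∑ j, c i * c j *
        ∑ e : Link D l, ∑ a : Fin n, dlink B e a (F i) U * dlink B e a (F j) U := by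
      simp_rw [Finset.mul_sum]
      rw [Finset.sum_congr rfl fun e _ => Finset.sum_comm]
      rw [Finset.sum_comm]
      refine Finset.sum_congr rfl fun i _ => ?_
      rw [Finset.sum_congr rfl fun e _ => Finset.sum_comm]
      rw [Finset.sum_comm]
    rw [k3, Finset.mul_sum, Finset.mul_sum, ← Finset.sum_add_distrib]
    refine Finset.sum_congr rfl fun i _ => ?_
    rw [Finset.mul_sum, Finset.mul_sum, ← Finset.sum_add_distrib]
    exact Finset.sum_congr rfl fun j _ => by ring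
  simp_rw [h2]
  refine quad_int _ (fun i j U => g ^ 2 / 2 * (∑ e : Link D l, ∑ a : Fin n,
        dlink B e a (F i) U * dlink B e a (F j) U) + 1 / g ^ 2 * magnetic U * (F i U * F j U))
        (fun i j => ?_) c
  apply grp_int hG μ
  apply Continuous.add
  · exact continuous_const.mul (continuous_finsetSum _ fun e _ => continuous_finsetSum _ fun a _ =>
      (dlink_cont B e a (hF i)).mul (dlink_cont B e a (hF j)))
  · exact (continuous_const.mul magnetic_cont).mul ((sm_cont (hF i)).mul (sm_cont (hF j)))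

end gcalc

section lev

variable {P : Type} [Fintype P] [DecidableEq P]

theorem cs_sum {m : ℕ} (c x : Fin m → ℝ) :
    (∑ i, c i * x i) ^ 2 ≤ (∑ i, c i ^ 2) * ∑ i, x i ^ 2 :=
  Finset.sum_mul_sq_le_sq_mul_sq _ _ _

theorem fam_supp {m : ℕ} {t : Fin m → (P → ℝ) → ℝ} (hs : ∀ i, HasCompactSupport (t i))
    (c : Fin m → ℝ) : HasCompactSupport fun C => ∑ i, c i * t i C := by
  have : ∀ s : Finset (Fin m), HasCompactSupport fun C => ∑ i ∈ s, c i * t i C := by
    intro s
    induction s using Finset.induction_on with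
    | empty => simp only [Finset.sum_empty]; exact HasCompactSupport.zero
    | insert i s hi ih =>
      simp_rw [Finset.sum_insert hi]
      exact ((hs i).mul_left (f := fun _ => c i)).add ih
  exact this _

theorem qf_fam {m : ℕ} {t : Fin m → (P → ℝ) → ℝ} (ht : ∀ i, ContDiff ℝ 1 (t i))
    (hs : ∀ i, HasCompactSupport (t i)) {v : (P → ℝ) → ℝ} (hv : Continuous v)
    (hv0 : ∀ C, 0 ≤ v C) (c : Fin m → ℝ) :
    qf v (fun C => ∑ i, c i * t i C) ≤ (∑ i, qf v (t i)) * ∑ i, c i ^ 2 := by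
  have hi : ∀ i, Integrable fun C => 1 / 2 * g2 (t i) C + v C * t i C ^ 2 := fun i =>
    ((int_g2 (ht i) (hs i)).const_mul _).add (int_mul_sq (ht i).continuous (hs i) hv)
  have hsm : ContDiff ℝ 1 fun C => ∑ i, c i * t i C :=
    ContDiff.sum fun i _ => contDiff_const.mul (ht i)
  have hss := fam_supp hs c
  unfold qf
  rw [← integral_finsetSum _ (fun i _ => hi i), ← integral_mul_const]
  apply integral_mono
  · exact ((int_g2 hsm hss).const_mul _).add (int_mul_sq hsm.continuous hss hv)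
  · exact (integrable_finsetSum _ fun i _ => hi i).mul_const _
  · intro C
    simp only
    have h1 : g2 (fun C => ∑ i, c i * t i C) C ≤ (∑ i, g2 (t i) C) * ∑ i, c i ^ 2 := by
      unfold g2
      simp_rw [pd_comb ht]
      rw [Finset.sum_comm, Finset.sum_mul]
      refine Finset.sum_le_sum fun p _ => ?_
      rw [mul_comm]
      exact cs_sum c fun i => pd (t i) p C
    have h2 : v C * (∑ i, c i * t i C) ^ 2 ≤ v C * ((∑ i, c i ^ 2) * ∑ i, t i C ^ 2) :=
      mul_le_mul_of_nonneg_left (cs_sum c fun i => t i C) (hv0 C)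
    rw [Finset.sum_add_distrib, ← Finset.mul_sum, ← Finset.mul_sum]
    nlinarith

theorem lev_nonempty [Nonempty P] {v : (P → ℝ) → ℝ} (hv : Continuous v) (hv0 : ∀ C, 0 ≤ v C)
    {𝒢 : Set ((P → ℝ) → (P → ℝ))} (h𝒢 : ∀ σ ∈ 𝒢, ∀ x, n2 (σ x) = n2 x) (k : ℕ) :
    {E : ℝ | ∃ ψ : Fin (k + 1) → (P → ℝ) → ℝ, (∀ i, CI 𝒢 (ψ i)) ∧
    (∀ i j, ∫ C, ψ i C * ψ j C = if i = j then 1 else 0) ∧
    ∀ c : Fin (k + 1) → ℝ, qf v (fun C => ∑ i, c i * ψ i C) ≤ E * ∑ i, c i ^ 2}.Nonempty := by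
  let b : ContDiffBump (0 : ℝ) := ⟨1 / 2, 1, by norm_num, by norm_num⟩
  let f : ℕ → (P → ℝ) → ℝ := fun u x => b (n2 x - 3 * u)
  have hf : ∀ u, CI 𝒢 (f u) := fun u => radial h𝒢 b _
  have hcont : ∀ u, Continuous (f u) := fun u => (hf u).sm.continuous
  have hN : ∀ u : ℕ, 0 < ∫ x, f u x * f u x := by
    intro u
    obtain ⟨i⟩ := ‹Nonempty P›
    have hu : (0:ℝ) ≤ 3 * u := by positivity
    have hx : n2 (Pi.single i (Real.sqrt (3 * u)) : P → ℝ) = 3 * u := by
      unfold n2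
      rw [Finset.sum_eq_single i]
      · rw [Pi.single_eq_same, Real.sq_sqrt hu]
      · intro j _ hj
        simp [Pi.single_eq_of_ne hj]
      · simp
    apply ((hcont u).mul (hcont u)).integral_pos_of_hasCompactSupport_nonneg_nonzero
      (x := Pi.single i (Real.sqrt (3 * u)))
    · exact (hf u).supp.mul_right
    · exact fun x => mul_self_nonneg _
    · have : b 0 = 1 := b.one_of_mem_closedBall (by simp [b])
      have h1 : f u (Pi.single i (Real.sqrt (3 * u))) = 1 := by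
        simp only [f, hx, sub_self, this]
      simp only [Pi.mul_apply]
      rw [h1]
      norm_num
  have hdisj : ∀ u w : ℕ, u ≠ w → ∀ x, f u x * f w x = 0 := by
    intro u w huw x
    by_contra h
    have h0 : f u x ≠ 0 := left_ne_zero_of_mul h
    have h3 : f w x ≠ 0 := right_ne_zero_of_mul h
    have k0 : n2 x - 3 * u ∈ Metric.ball (0:ℝ) b.rOut := by rw [← b.support_eq]; exact h0
    have k3 : n2 x - 3 * w ∈ Metric.ball (0:ℝ) b.rOut := by rw [← b.support_eq]; exact h3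
    rw [Metric.mem_ball, Real.dist_eq, sub_zero] at k0 k3
    have e : b.rOut = 1 := rfl
    rw [e] at k0 k3
    have a0 := abs_lt.1 k0
    have a3 := abs_lt.1 k3
    rcases Nat.lt_or_gt_of_ne huw with hl | hl
    · have : (u:ℝ) + 1 ≤ w := by exact_mod_cast hl
      linarith [a0.1, a0.2, a3.1, a3.2]
    · have : (w:ℝ) + 1 ≤ u := by exact_mod_cast hl
      linarith [a0.1, a0.2, a3.1, a3.2]
  let A : ℕ → ℝ := fun u => ∫ x, f u x * f u x
  let ψ : Fin (k + 1) → (P → ℝ) → ℝ := fun i x => (Real.sqrt (A i))⁻¹ * f i x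
  have hCI : ∀ i, CI 𝒢 (ψ i) := fun i =>
    ⟨contDiff_const.mul (hf i).sm, (hf i).supp.mul_left (f := fun _ => (Real.sqrt (A i))⁻¹),
      fun σ hσ x => by simp only [ψ]; rw [(hf i).inv σ hσ x]⟩
  refine ⟨∑ i, qf v (ψ i), ψ, hCI, ?_, fun c => qf_fam (fun i => ci_c1 (hCI i))
    (fun i => (hCI i).supp) hv hv0 c⟩
  intro i j
  have e : ∀ C, ψ i C * ψ j C = (Real.sqrt (A i))⁻¹ * (Real.sqrt (A j))⁻¹ *
      (f i C * f j C) := fun C => by simp only [ψ]; ring
  simp_rw [e]
  rw [integral_const_mul]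
  split_ifs with hij
  · subst hij
    have hA : 0 < A i := hN i
    rw [← mul_inv, Real.mul_self_sqrt hA.le]
    exact inv_mul_cancel₀ hA.ne'
  · have h1 : (i : ℕ) ≠ j := fun h => hij (Fin.ext h)
    simp_rw [hdisj _ _ h1]
    simp

theorem fam_bound {m : ℕ} {t : Fin m → (P → ℝ) → ℝ} (hs : ∀ i, HasCompactSupport (t i)) :
    ∃ R : ℝ, 0 < R ∧ ∀ i C, t i C ≠ 0 → n2 C ≤ R ^ 2 := by
  have h1 : ∀ i, ∃ R : ℝ, ∀ C, t i C ≠ 0 → n2 C ≤ R := by
    intro i
    obtain ⟨R, hR⟩ := ((hs i).isCompact.image n2_cont).bddAbove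
    exact ⟨R, fun C hC => hR ⟨C, subset_tsupport _ hC, rfl⟩⟩
  choose R hR using h1
  have h2 : 0 ≤ ∑ i, |R i| := Finset.sum_nonneg fun i _ => abs_nonneg _
  refine ⟨∑ i, |R i| + 1, by positivity, fun i C hC => ?_⟩
  have h3 : n2 C ≤ |R i| := (hR i C hC).trans (le_abs_self _)
  have h4 : |R i| ≤ ∑ i, |R i| :=
    Finset.single_le_sum (f := fun i => |R i|) (fun i _ => abs_nonneg _) (Finset.mem_univ i)
  nlinarith

end lev

theorem trial_comb {P Q : Type} [Fintype P] [DecidableEq P] [Fintype Q] [DecidableEq Q]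
    (L : Loc P Q) (g δ : ℝ) {m : ℕ} (ψ : Fin m → (P → ℝ) → ℝ) (c : Fin m → ℝ)
    (x : (P → ℝ) × (Q → ℝ)) :
    L.trial g δ (fun C => ∑ i, c i * ψ i C) x = ∑ i, c i * L.trial g δ (ψ i) x := by
  unfold Loc.trial
  simp only [Finset.mul_sum, Finset.sum_mul]
  exact Finset.sum_congr rfl fun i _ => by ring

/-- the adjoint action on the oscillators -/
noncomputable def tauL {N n D l : ℕ} [NeZero l] {G : Subgroup (UU N)} {B : LieBasis G n}
    (dc : Dec B D l) (h : G) : (Fin dc.M → ℝ) →ₗ[ℝ] (Fin dc.M → ℝ) where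
  toFun a := fun i => ∑ p, dc.b i p * adF B h (fun q => ∑ j, a j * dc.b j q) p
  map_add' a a' := by
    funext i
    have h1 : (fun q => ∑ j, (a + a') j * dc.b j q) =
        (fun q => ∑ j, a j * dc.b j q) + fun q => ∑ j, a' j * dc.b j q := by
      funext q
      simp only [Pi.add_apply, add_mul, Finset.sum_add_distrib]
    rw [h1, adF_add]
    simp only [Pi.add_apply, mul_add, Finset.sum_add_distrib]
  map_smul' s a := by
    funext i
    have h1 : (fun q => ∑ j, (s • a) j * dc.b j q) =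
        s • (fun q => ∑ j, a j * dc.b j q) := by
      funext q
      simp only [Pi.smul_apply, smul_eq_mul, Finset.mul_sum]
      exact Finset.sum_congr rfl fun j _ => by ring
    rw [h1, adF_smul]
    simp only [Pi.smul_apply, smul_eq_mul, Finset.mul_sum, RingHom.id_apply]
    exact Finset.sum_congr rfl fun j _ => by ring

theorem trial_inv (h4 : S_TINV) (h5 : S_SYMM) {N n D l : ℕ} [NeZero l] {G : Subgroup (UU N)}
    (hG : IsClosed (G : Set (UU N))) {B : LieBasis G n} [MeasurableSpace G] [BorelSpace G]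
    {μ : Measure G} {dc : Dec B D l} {L : Loc (Fin D × Fin n) (Fin dc.M)} (hL : Chart μ dc L)
    {g : ℝ} (hg : 0 < g) (δ : ℝ) {ψ : (Fin D × Fin n → ℝ) → ℝ} (hψ : CI (AdS B D) ψ) (h : G)
    (x : (Fin D × Fin n → ℝ) × (Fin dc.M → ℝ)) :
    L.trial g δ ψ (dc.sg h x) = L.trial g δ ψ x := by
  have hs := h5 N n D l G hG B dc h
  exact (h4 _ _ L (adF B h) (tauL dc h) (fun t x => adF_smul B h t x)
    (fun a => (hs (0, a)).2.2.1) (fun a => by rw [hL.om]; exact (hs (0, a)).2.2.2.1)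
    (fun C a => hL.Jinv h (C, a)) g hg).2 ψ δ (fun C => hψ.inv _ ⟨h, rfl⟩ C) x.1 x.2

theorem t_UPP (h0 : S_DEC) (h1 : S_CHART) (h2 : S_UPB) (h3 : S_PULL) (h4 : S_TINV)
    (h5 : S_SYMM) (h6 : S_GS) (h7 : S_EZ) : S_UPP := by
  intro N n D l _ G hG hconn B _ _ μ _ _ hNC hD hn k ε hε
  obtain ⟨dc⟩ := h0 N n D l G hG B
  obtain ⟨L, hL⟩ := h1 N n D l G hG B μ hNC hD dc
  obtain ⟨lam, hlam⟩ : ∃ lam, lam = lev (vred B D) (AdS B D) k := ⟨_, rfl⟩
  have hv : L.v = vred B D := hL.v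
  have hlam0 : 0 ≤ lam := by rw [hlam, ← hv]; exact lev_nonneg L.nonneg _ _
  have he0 : L.e0 = ezero n D l := by
    unfold Loc.e0; rw [hL.om, dc.sum]; exact h7 N n D l G hG B
  have he00 : 0 ≤ L.e0 := by
    unfold Loc.e0
    have : 0 ≤ ∑ i, L.om i := Finset.sum_nonneg fun i _ => (L.ompos i).le
    linarith
  obtain ⟨c, hc⟩ : ∃ c : ℝ, c = (l : ℝ) ^ (-(D : ℝ) / 3) := ⟨_, rfl⟩
  have hl : (0:ℝ) < l := by exact_mod_cast Nat.pos_of_ne_zero (NeZero.ne l)
  have hc0 : 0 < c := by rw [hc]; exact Real.rpow_pos_of_pos hl _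
  have hE : ∀ g : ℝ, 0 < g → L.E g = g ^ (2 / 3 : ℝ) * c := fun g hg => by
    rw [E_eq L hg, hL.c4, c4_rpow, hc]
  have hsymm := h5 N n D l G hG B dc
  have hn2 : ∀ σ ∈ AdS B D, ∀ x, n2 (σ x) = n2 x := by
    rintro _ ⟨h, rfl⟩ x
    exact (hsymm h (x, 0)).2.1
  obtain ⟨ε1, hε1⟩ : ∃ ε1 : ℝ, ε1 = ε / (4 * c) := ⟨_, rfl⟩
  have hε10 : 0 < ε1 := by rw [hε1]; positivity
  have hcε : c * ε1 = ε / 4 := by rw [hε1]; field_simp
  -- the trial functions
  have : Nonempty (Fin D × Fin n) := ⟨(⟨0, by omega⟩, ⟨0, by omega⟩)⟩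
  obtain ⟨E, ⟨ψ, hψ1, hψ2, hψ3⟩, hElt⟩ := exists_lt_of_csInf_lt
    (lev_nonempty (v := vred B D) (by rw [← hv]; exact L.cont) (by rw [← hv]; exact L.nonneg) hn2 k)
    (show lev (vred B D) (AdS B D) k < lam + ε1 by rw [← hlam]; linarith)
  obtain ⟨R, hR, hRs⟩ := fam_bound (fun i => (hψ1 i).supp)
  obtain ⟨δ, hδ⟩ : ∃ δ, δ = L.r / 2 := ⟨_, rfl⟩
  have hr := L.rpos
  have hδ0 : 0 < δ := by rw [hδ]; positivity
  have hδr : δ < L.r := by rw [hδ]; linarith
  obtain ⟨K, g1, hg1, hK, hUPB⟩ := h2 _ _ L δ R hδ0 hδr.le hR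
  obtain ⟨A, hA⟩ : ∃ A, A = 1 + 2 * (lam + ε1) := ⟨_, rfl⟩
  have hA0 : 0 < A := by rw [hA]; positivity
  obtain ⟨g2', hg2, hs2⟩ := small_rpow (A := K) (b := 1 / 2) (p := 1) hK
    (by norm_num) (by norm_num)
  obtain ⟨g3, hg3, hs3⟩ := small_rpow (A := K * (A + L.e0 + c * lam + ε)) (b := ε / 2)
    (p := 1 / 3) (by positivity) (by positivity) (by norm_num)
  refine ⟨min (min g1 1) (min g2' g3), by positivity, fun g hg hgg => ?_⟩
  have hgg1 : g < g1 := lt_of_lt_of_le hgg ((min_le_left _ _).trans (min_le_left _ _))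
  have hgg0 : g < 1 := lt_of_lt_of_le hgg ((min_le_left _ _).trans (min_le_right _ _))
  have hgg2 : g < g2' := lt_of_lt_of_le hgg ((min_le_right _ _).trans (min_le_left _ _))
  have hgg3 : g < g3 := lt_of_lt_of_le hgg ((min_le_right _ _).trans (min_le_right _ _))
  have hKg : K * g ≤ 1 / 2 := by
    have := hs2 g hg hgg2
    rwa [Real.rpow_one] at this
  obtain ⟨q, hq⟩ : ∃ q, q = g ^ (2 / 3 : ℝ) := ⟨_, rfl⟩
  have hq0 : 0 < q := by rw [hq]; exact Real.rpow_pos_of_pos hg _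
  have hq1 : q ≤ 1 := by rw [hq]; exact Real.rpow_le_one hg.le hgg0.le (by norm_num)
  have hsm : K * (A + L.e0 + c * lam + ε) * g ≤ ε / 2 * q := by
    have k1 : g = g ^ (1 / 3 : ℝ) * g ^ (2 / 3 : ℝ) := by
      rw [← Real.rpow_add hg]; norm_num
    calc K * (A + L.e0 + c * lam + ε) * g =
          (K * (A + L.e0 + c * lam + ε) * g ^ (1 / 3 : ℝ)) * g ^ (2 / 3 : ℝ) := by
          rw [mul_assoc _ (g ^ (1 / 3 : ℝ)), ← k1]
      _ ≤ ε / 2 * g ^ (2 / 3 : ℝ) := mul_le_mul_of_nonneg_right (hs3 g hg hgg3)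
          (by rw [← hq]; exact hq0.le)
      _ = ε / 2 * q := by rw [hq]
  rw [← hlam, ← hc, ← hq, ← he0]
  have hEg : L.E g = q * c := by rw [hE g hg, hq]
  -- lifts
  have hlift : ∀ i, ∃ F : (Link D l → G) → ℝ, IsSmooth F ∧ GaugeInv F ∧ CentreInv F ∧
      (∀ x, nx x < L.r ^ 2 → F (dc.ch x) = L.trial g δ (ψ i) x) ∧
      ∀ U, F U ≠ 0 → Orb dc δ U := by
    intro i
    have hU := hUPB g hg hgg1.le (ψ i) (hψ1 i).sm (hRs i)
    exact hL.lift δ hδ0 hδr _ hU.1 hU.2.1
      (fun h x => trial_inv h4 h5 hG hL hg δ (hψ1 i) h x)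
  choose F hF1 hF2 hF3 hF4 hF5 using hlift
  have hδ2 : δ ^ 2 < L.r ^ 2 := by nlinarith
  have hpull : ∀ cc : Fin (k + 1) → ℝ, dc.pull L.r (fun U => ∑ i, cc i * F i U) =
      L.trial g δ (fun C => ∑ i, cc i * ψ i C) := by
    intro cc
    funext x
    rw [trial_comb]
    unfold Dec.pull
    split_ifs with hx
    · exact Finset.sum_congr rfl fun i _ => by rw [hF4 i x hx]
    · symm
      apply Finset.sum_eq_zero
      intro i _
      have h8 : L.trial g δ (ψ i) x = 0 := by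
        by_contra hne
        apply hx
        have := (hUPB g hg hgg1.le (ψ i) (hψ1 i).sm (hRs i)).2.1 x hne
        linarith
      rw [h8, mul_zero]
  have hfi : ∀ i j, Integrable fun x => ψ i x * ψ j x :=
    fam_int (fun i => (hψ1 i).sm.continuous) (fun i => (hψ1 i).supp)
  obtain ⟨E', hE'⟩ : ∃ E', E' = L.e0 + q * c * (lam + ε1) + K * g * A := ⟨_, rfl⟩
  have hE'0 : 0 ≤ E' := by rw [hE']; positivity
  have hP : ∀ cc : Fin (k + 1) → ℝ, (1 - K * g) * ∑ i, cc i ^ 2 ≤
      ∫ U, (∑ i, cc i * F i U) ^ 2 ∂(Measure.pi fun _ : Link D l => μ) ∧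
      energy B μ g (fun U => ∑ i, cc i * F i U) ≤ E' * ∑ i, cc i ^ 2 := by
    intro cc
    have hCI := ci_comb hψ1 cc
    have hsup : ∀ C, (∑ i, cc i * ψ i C) ≠ 0 → n2 C ≤ R ^ 2 := by
      intro C hC
      obtain ⟨i, _, hi⟩ := Finset.exists_ne_zero_of_sum_ne_zero hC
      exact hRs i C (right_ne_zero_of_mul hi)
    obtain ⟨_, _, u3, _, u5⟩ := hUPB g hg hgg1.le (fun C => ∑ i, cc i * ψ i C) hCI.sm hsup
    have horb : ∀ U, (∑ i, cc i * F i U) ≠ 0 → Orb dc δ U := by
      intro U hU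
      obtain ⟨i, _, hi⟩ := Finset.exists_ne_zero_of_sum_ne_zero hU
      exact hF5 i U (right_ne_zero_of_mul hi)
    obtain ⟨_, _, _, p4, p5⟩ := h3 N n D l G hG B μ dc L hL δ hδ0 hδr
      (fun U => ∑ i, cc i * F i U) (sm_comb hF1 cc) (gi_comb hF2 cc) (ce_comb hF3 cc) horb
    obtain ⟨_, p6⟩ := p5 g hg
    rw [hpull cc] at p4 p6
    have hnorm : ∫ C, (∑ i, cc i * ψ i C) ^ 2 = ∑ i, cc i ^ 2 := norm_comb _ hfi hψ2 cc
    have hcc : 0 ≤ ∑ i, cc i ^ 2 := Finset.sum_nonneg fun i _ => sq_nonneg _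
    have hqf : qf L.v (fun C => ∑ i, cc i * ψ i C) ≤ (lam + ε1) * ∑ i, cc i ^ 2 := by
      rw [hv]
      exact (hψ3 cc).trans (mul_le_mul_of_nonneg_right hElt.le hcc)
    have hC1 := ci_c1 hCI
    have hg2i := int_g2 hC1 hCI.supp
    have hg2 : ∫ C, g2 (fun C => ∑ i, cc i * ψ i C) C ≤ 2 * ((lam + ε1) * ∑ i, cc i ^ 2) := by
      have k2 := qf_eq hC1 hCI.supp L.cont
      have k3 : 0 ≤ ∫ C, L.v C * (∑ i, cc i * ψ i C) ^ 2 :=
        integral_nonneg fun C => mul_nonneg (L.nonneg C) (sq_nonneg _)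
      linarith
    refine ⟨?_, ?_⟩
    · rw [p4]
      rw [hnorm] at u3
      exact u3
    · refine (p6.trans u5).trans ?_
      rw [hnorm, integral_add (int_sq hC1.continuous hCI.supp) hg2i, hnorm, hEg, hE', hA]
      have k4 : q * c * qf L.v (fun C => ∑ i, cc i * ψ i C) ≤
          q * c * ((lam + ε1) * ∑ i, cc i ^ 2) := mul_le_mul_of_nonneg_left hqf (by positivity)
      have k5 : K * g * ∫ C, g2 (fun C => ∑ i, cc i * ψ i C) C ≤
          K * g * (2 * ((lam + ε1) * ∑ i, cc i ^ 2)) := mul_le_mul_of_nonneg_left hg2 (by positivity)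
      linarith
  -- orthonormal family
  have hFi : ∀ i j, Integrable (fun U => F i U * F j U) (Measure.pi fun _ : Link D l => μ) :=
    fun i j => grp_int hG μ ((sm_cont (hF1 i)).mul (sm_cont (hF1 j)))
  obtain ⟨Bm, hBm⟩ : ∃ Bm : Matrix (Fin (k + 1)) (Fin (k + 1)) ℝ,
    Bm = Matrix.of fun i j => ∫ U, F i U * F j U ∂(Measure.pi fun _ : Link D l => μ) := ⟨_, rfl⟩
  obtain ⟨qm, hqm⟩ : ∃ qm : Matrix (Fin (k + 1)) (Fin (k + 1)) ℝ,
    qm = Matrix.of fun i j => ebil B μ g (F i) (F j) := ⟨_, rfl⟩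
  have hBs : Bm.IsSymm := by
    rw [hBm]
    ext i j
    simp only [Matrix.transpose_apply, Matrix.of_apply]
    congr 1
    funext x
    ring
  have hβ : 0 < 1 - K * g := by linarith
  obtain ⟨S, hS1, hS2⟩ := h6 (k + 1) Bm qm (1 - K * g) E' hβ hE'0 hBs
    (fun cc => by
      rw [hBm, ← int_sq_comb _ hFi cc]
      exact (hP cc).1)
    (fun cc => by
      rw [hqm, ← quad_energy hG B μ g hF1 cc]
      exact (hP cc).2)
  rw [hBm] at hS1
  have hmem : E' / (1 - K * g) ∈ {E : ℝ | ∃ Ψ : Fin (k + 1) → (Link D l → G) → ℝ,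
    (∀ i, IsSmooth (Ψ i) ∧ GaugeInv (Ψ i) ∧ CentreInv (Ψ i)) ∧
    (∀ i j, ∫ U, Ψ i U * Ψ j U ∂(Measure.pi fun _ : Link D l => μ) = if i = j then 1 else 0) ∧
    ∀ c : Fin (k + 1) → ℝ, energy B μ g (fun U => ∑ i, c i * Ψ i U) ≤ E * ∑ i, c i ^ 2} := by
    refine ⟨fun i U => ∑ j, S j i * F j U, fun i => ⟨sm_comb hF1 _, gi_comb hF2 _,
      ce_comb hF3 _⟩, fun i j => gram_change _ hFi S hS1 i j, fun cc => ?_⟩
    have k1 : ∀ U, ∑ i, cc i * (∑ j, S j i * F j U) = ∑ j, (S.mulVec cc) j * F j U :=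
      fun U => comb_mul S cc fun j => F j U
    simp only [k1]
    rw [quad_energy hG B μ g hF1, ← hqm]
    exact hS2 cc
  -- conclusion
  have hfin : E' / (1 - K * g) ≤ L.e0 + q * (c * lam + ε) := by
    rw [div_le_iff₀ hβ, hE']
    have k1 : q * c * ε1 = q * (ε / 4) := by rw [mul_assoc, hcε]
    have k2 : K * g * (q * (c * lam + ε)) ≤ K * g * (c * lam + ε) := by
      apply mul_le_mul_of_nonneg_left _ (by positivity)
      calc q * (c * lam + ε) ≤ 1 * (c * lam + ε) := mul_le_mul_of_nonneg_right hq1 (by positivity)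
        _ = c * lam + ε := one_mul _
    nlinarith
  refine le_trans ?_ hfin
  unfold level
  by_cases hbb : BddBelow {E : ℝ | ∃ Ψ : Fin (k + 1) → (Link D l → G) → ℝ,
    (∀ i, IsSmooth (Ψ i) ∧ GaugeInv (Ψ i) ∧ CentreInv (Ψ i)) ∧
    (∀ i j, ∫ U, Ψ i U * Ψ j U ∂(Measure.pi fun _ : Link D l => μ) = if i = j then 1 else 0) ∧
    ∀ c : Fin (k + 1) → ℝ, energy B μ g (fun U => ∑ i, c i * Ψ i U) ≤ E * ∑ i, c i ^ 2}
  · exact csInf_le hbb hmem
  · rw [Real.sInf_of_not_bddBelow hbb]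
    positivity

end Pool.Agent.Q150.LU
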