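import Pool.Agent.Q150.LU.UPP
import Pool.Agent.Q150.LU.LOWU

/-! # Project LU (helper77), job UPPU: upper bound of the levels, uniform version (helper150) -/

set_option autoImplicit false
set_option linter.unusedSectionVars false

open MeasureTheory Matrix Set Filter Topology
open scoped ContDiff Matrix.Norms.Frobenius

namespace Pool.Agent.Q150.LU

open Pool.Agent.Q77.LU

/-- the constants of the upper bounds -/
theorem uppC {l D a p1 : ℕ} [NeZero l] {B0 C1 Λ K A e0 lam ε g c q : ℝ} (hB0 : 1 ≤ B0)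
    (hC1 : 1 ≤ C1) (hε : 0 < ε) (hA : 0 ≤ A) (hlam : 0 ≤ lam) (hΛ : Λ = B0 * (l : ℝ) ^ a)
    (hK : K = C1 * Λ ^ p1) (he1 : e0 ≤ Λ ^ 2) (hg : 0 < g)
    (hc : c = (l : ℝ) ^ (-(D : ℝ) / 3)) (hq : q = g ^ (2 / 3 : ℝ))
    (h : (C1 * B0 ^ (p1 + 2) * ((A + 1 + lam + ε) * (2 / ε) + 2)) ^ 3 *
      (l : ℝ) ^ (3 * (a * (p1 + 2)) + D) * g ≤ 1) :
    1 ≤ Λ ∧ 0 < K ∧ g ≤ K⁻¹ ∧ 0 < q ∧ q ≤ 1 ∧ 0 < c ∧ c ≤ 1 ∧ K * g ≤ 1 / 2 ∧
      K * (A + e0 + lam + ε) * g ≤ ε / 2 * (c * q) := by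
  have hl : (1:ℝ) ≤ l := by exact_mod_cast Nat.one_le_iff_ne_zero.2 (NeZero.ne l)
  have hΛ1 : 1 ≤ Λ := by
    rw [hΛ]
    have a2 : 1 ≤ (l : ℝ) ^ a := one_le_pow₀ hl
    nlinarith
  have hK1 : 1 ≤ K := by
    rw [hK]
    have a2 : 1 ≤ Λ ^ p1 := one_le_pow₀ hΛ1
    nlinarith
  have hK0 : 0 < K := by linarith
  obtain ⟨M, hM⟩ : ∃ M, M = K * Λ ^ 2 := ⟨_, rfl⟩
  have hM1 : 1 ≤ M := by
    rw [hM]
    have a2 : 1 ≤ Λ ^ 2 := one_le_pow₀ hΛ1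
    nlinarith
  have hKM : K ≤ M := by
    rw [hM]
    have a2 : 1 ≤ Λ ^ 2 := one_le_pow₀ hΛ1
    nlinarith
  have hM0 : 0 < M := by linarith
  obtain ⟨Y, hY⟩ : ∃ Y, Y = (A + 1 + lam + ε) * (2 / ε) + 2 := ⟨_, rfl⟩
  have hZ : 0 ≤ (A + 1 + lam + ε) * (2 / ε) := by positivity
  have hY1 : 1 ≤ Y := by rw [hY]; linarith
  have hcond : (M * Y) ^ 3 * (l : ℝ) ^ D * g ≤ 1 := by
    have e1 : (M * Y) ^ 3 * (l : ℝ) ^ D * g =
        (C1 * B0 ^ (p1 + 2) * ((A + 1 + lam + ε) * (2 / ε) + 2)) ^ 3 *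
      (l : ℝ) ^ (3 * (a * (p1 + 2)) + D) * g := by
      have e2 : (l : ℝ) ^ (3 * (a * (p1 + 2)) + D) =
          (((l : ℝ) ^ a) ^ p1 * ((l : ℝ) ^ a) ^ 2) ^ 3 * (l : ℝ) ^ D := by
        rw [pow_add (l : ℝ), mul_comm 3 (a * (p1 + 2)), pow_mul (l : ℝ) (a * (p1 + 2)) 3,
          pow_mul (l : ℝ) a (p1 + 2), pow_add ((l : ℝ) ^ a) p1 2]
      rw [e2, hM, hY, hK, hΛ, pow_add B0, mul_pow B0 _ p1, mul_pow B0 _ 2]
      ring
    rw [e1]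
    exact h
  obtain ⟨y, hy0, hy2, hy3, hc0, hc1, h3, h4, h5⟩ := constU hM1 hY1 hg hc hq hcond
  have hMy : 0 < M * y := mul_pos hM0 hy0
  have hyy : y ^ 2 ≤ 1 := pow_le_one₀ hy0.le h4
  have b0 : M * y ≤ 1 / 2 := by
    have : M * y * 2 ≤ M * y * Y := by
      apply mul_le_mul_of_nonneg_left _ hMy.le
      rw [hY]; linarith
    linarith
  have b1 : M * y * ((A + 1 + lam + ε) * (2 / ε)) ≤ c := by
    have : M * y * ((A + 1 + lam + ε) * (2 / ε)) ≤ M * y * Y := by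
      apply mul_le_mul_of_nonneg_left _ hMy.le
      rw [hY]; linarith
    linarith
  have b2 : M * y * (A + 1 + lam + ε) ≤ ε / 2 * c := by
    have : M * y * (A + 1 + lam + ε) = ε / 2 * (M * y * ((A + 1 + lam + ε) * (2 / ε))) := by
      field_simp
    rw [this]
    exact mul_le_mul_of_nonneg_left b1 (by positivity)
  have hKg : K * g ≤ 1 / 2 := by
    rw [hy3]
    have c1 : K * y ≤ 1 / 2 := (mul_le_mul_of_nonneg_right hKM hy0.le).trans b0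
    calc K * y ^ 3 = K * y * y ^ 2 := by ring
      _ ≤ 1 / 2 * 1 := mul_le_mul c1 hyy (sq_nonneg _) (by norm_num)
      _ = 1 / 2 := by ring
  refine ⟨hΛ1, hK0, ?_, by rw [hy2]; positivity, by rw [hy2]; exact hyy, hc0, hc1, hKg, ?_⟩
  · rw [← one_div, le_div_iff₀ hK0]; linarith
  · have c2 : A + e0 + lam + ε ≤ Λ ^ 2 * (A + 1 + lam + ε) := by
      have a2 : 1 ≤ Λ ^ 2 := one_le_pow₀ hΛ1
      have a3 : 0 ≤ A + lam + ε := by positivity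
      nlinarith
    have c3 : K * (A + e0 + lam + ε) ≤ M * (A + 1 + lam + ε) := by
      rw [hM, mul_assoc]
      exact mul_le_mul_of_nonneg_left c2 hK0.le
    rw [hy2, hy3]
    calc K * (A + e0 + lam + ε) * y ^ 3 ≤ M * (A + 1 + lam + ε) * y ^ 3 :=
          mul_le_mul_of_nonneg_right c3 (by positivity)
      _ = M * y * (A + 1 + lam + ε) * y ^ 2 := by ring
      _ ≤ ε / 2 * c * y ^ 2 := mul_le_mul_of_nonneg_right b2 (sq_nonneg _)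
      _ = ε / 2 * (c * y ^ 2) := by ring

theorem uppEnd {K g A e0 q c lam ε : ℝ} (hK : 0 < K) (hg : 0 < g) (hε : 0 < ε)
    (hlam : 0 ≤ lam) (hq0 : 0 < q) (hq : q ≤ 1) (hc0 : 0 < c) (hc : c ≤ 1)
    (hKg : K * g ≤ 1 / 2) (h : K * (A + e0 + lam + ε) * g ≤ ε / 2 * (c * q)) :
    (e0 + q * c * (lam + ε / 4) + K * g * A) / (1 - K * g) ≤ e0 + q * c * (lam + ε) := by
  have hβ : 0 < 1 - K * g := by linarith
  rw [div_le_iff₀ hβ]
  have hqc : q * c ≤ 1 := by nlinarith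
  have hqc0 : 0 < q * c := by positivity
  have k2 : K * g * (q * c * (lam + ε)) ≤ K * g * (lam + ε) := by
    apply mul_le_mul_of_nonneg_left _ (by positivity)
    calc q * c * (lam + ε) ≤ 1 * (lam + ε) := mul_le_mul_of_nonneg_right hqc (by positivity)
      _ = lam + ε := one_mul _
  nlinarith

theorem e0_le {P Q : Type} [Fintype P] [DecidableEq P] [Fintype Q] [DecidableEq Q]
    {L : Loc P Q} {Λ : ℝ} (h : Bd L Λ) : 0 ≤ L.e0 ∧ L.e0 ≤ Λ ^ 2 := by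
  have h1 := h.one
  unfold Loc.e0
  have k1 : 0 ≤ ∑ i, L.om i := Finset.sum_nonneg fun i _ => (L.ompos i).le
  have k2 : ∑ i, L.om i ≤ ∑ _i : Q, Λ := Finset.sum_le_sum fun i _ => h.om2 i
  rw [Finset.sum_const, Finset.card_univ, nsmul_eq_mul] at k2
  have k3 : (Fintype.card Q : ℝ) * Λ ≤ Λ * Λ := mul_le_mul_of_nonneg_right h.cardQ (by linarith)
  refine ⟨by linarith, by nlinarith⟩

theorem t_UPPU (h0 : S_DEC) (h1 : S_CHARTU) (h2 : S_UPBU) (h3 : S_PULL) (h4 : S_TINV)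
    (h5 : S_SYMM) (h6 : S_GS) (h7 : S_EZ) : S_UPPU := by
  intro N n D G hG hconn B _ _ μ _ _ hNC hD hn
  obtain ⟨p0, C0, κ0, hC0, hκ0, hch⟩ := h1 N n D G hG B μ hNC hD
  obtain ⟨p1, hup⟩ := h2 (Fin D × Fin n)
  refine ⟨3 * (p0 * (p1 + 2)) + D, fun k ε hε => ?_⟩
  obtain ⟨lam, hlam⟩ : ∃ lam, lam = lev (vred B D) (AdS B D) k := ⟨_, rfl⟩
  obtain ⟨hvc, hvn⟩ : Continuous (vred B D) ∧ ∀ C, 0 ≤ vred B D C := by
    obtain ⟨dc⟩ := h0 N n D 1 G hG B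
    obtain ⟨L, hL, -⟩ := hch 1 dc
    rw [← hL.v]; exact ⟨L.cont, L.nonneg⟩
  have hlam0 : 0 ≤ lam := by rw [hlam]; exact lev_nonneg hvn _ _
  have hn2 : ∀ σ ∈ AdS B D, ∀ x, n2 (σ x) = n2 x := by
    rintro _ ⟨h, rfl⟩ x
    obtain ⟨dc⟩ := h0 N n D 1 G hG B
    exact (h5 N n D 1 G hG B dc h (x, 0)).2.1
  obtain ⟨ε1, hε1⟩ : ∃ ε1 : ℝ, ε1 = ε / 4 := ⟨_, rfl⟩
  have hε10 : 0 < ε1 := by rw [hε1]; positivity
  -- the trial functions
  have : Nonempty (Fin D × Fin n) := ⟨(⟨0, by omega⟩, ⟨0, by omega⟩)⟩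
  obtain ⟨E, ⟨ψ, hψ1, hψ2, hψ3⟩, hElt⟩ := exists_lt_of_csInf_lt
    (lev_nonempty (v := vred B D) hvc hvn hn2 k)
    (show lev (vred B D) (AdS B D) k < lam + ε1 by rw [← hlam]; linarith)
  obtain ⟨R, hR, hRs⟩ := fam_bound (fun i => (hψ1 i).supp)
  obtain ⟨C1, hC1, hUP⟩ := hup (vred B D) R hvc hR
  obtain ⟨A, hA⟩ : ∃ A, A = 1 + 2 * (lam + ε1) := ⟨_, rfl⟩
  have hA0 : 0 < A := by rw [hA]; positivity
  have hB0 : 1 ≤ 2 * C0 := by linarith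
  refine ⟨(C1 * (2 * C0) ^ (p1 + 2) * ((A + 1 + lam + ε) * (2 / ε) + 2)) ^ 3, ?_,
    fun l _ g hg hcond => ?_⟩
  · apply one_le_pow₀
    have a1 : 1 ≤ (2 * C0) ^ (p1 + 2) := one_le_pow₀ hB0
    have a3 : 1 ≤ C1 * (2 * C0) ^ (p1 + 2) := by nlinarith
    have a4 : 0 ≤ (A + 1 + lam + ε) * (2 / ε) := by positivity
    nlinarith
  obtain ⟨dc⟩ := h0 N n D l G hG B
  obtain ⟨L, hL, hbd, hκ⟩ := hch l dc
  have hv : L.v = vred B D := hL.v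
  have he0 : L.e0 = ezero n D l := by
    unfold Loc.e0; rw [hL.om, dc.sum]; exact h7 N n D l G hG B
  obtain ⟨c, hc⟩ : ∃ c : ℝ, c = (l : ℝ) ^ (-(D : ℝ) / 3) := ⟨_, rfl⟩
  obtain ⟨Λ, hΛ⟩ : ∃ Λ, Λ = 2 * C0 * (l : ℝ) ^ p0 := ⟨_, rfl⟩
  obtain ⟨K, hKd⟩ : ∃ K, K = C1 * Λ ^ p1 := ⟨_, rfl⟩
  have hΛ0 : C0 * (l : ℝ) ^ p0 = Λ / 2 := by rw [hΛ]; ring
  rw [hΛ0] at hbd
  have hbd1 := hbd.one
  have hbd' : Bd L Λ := bd_mono hbd (by linarith)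
  obtain ⟨he00, he01⟩ := e0_le hbd'
  obtain ⟨q, hq⟩ : ∃ q, q = g ^ (2 / 3 : ℝ) := ⟨_, rfl⟩
  have hEg : L.E g = q * c := by
    rw [E_eq L hg, hL.c4, c4_rpow, hc, hq]
  obtain ⟨hΛ1, hK, hgg1, hq0, hq1, hc0, hc1, hKg, hsm⟩ :=
    uppC (l := l) (D := D) (a := p0) (e0 := L.e0) hB0 hC1 hε hA0.le hlam0 hΛ hKd he01 hg hc hq
      hcond
  obtain ⟨δ, hδ⟩ : ∃ δ, δ = L.r / 2 := ⟨_, rfl⟩
  have hr := L.rpos
  have hδ0 : 0 < δ := by rw [hδ]; positivity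
  have hδr : δ < L.r := by rw [hδ]; linarith
  have hδΛ : Λ⁻¹ ≤ δ := by
    have k1 := hbd.r1
    have k2 : (Λ / 2)⁻¹ = 2 * Λ⁻¹ := by rw [inv_div]; rfl
    rw [k2] at k1
    rw [hδ]; linarith
  have hUPB := hUP (Fin dc.M) L δ Λ K hv hbd' hδΛ hδr.le hKd g hg hgg1
  rw [← hlam, ← hc, ← hq, ← he0]
  -- lifts
  have hlift : ∀ i, ∃ F : (Link D l → G) → ℝ, IsSmooth F ∧ GaugeInv F ∧ CentreInv F ∧
      (∀ x, nx x < L.r ^ 2 → F (dc.ch x) = L.trial g δ (ψ i) x) ∧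
      ∀ U, F U ≠ 0 → Orb dc δ U := by
    intro i
    have hU := hUPB (ψ i) (hψ1 i).sm (hRs i)
    exact hL.lift δ hδ0 hδr _ hU.1 hU.2.1
      (fun h x => trial_inv h4 h5 hG hL hg δ (hψ1 i) h x)
  choose F hF1 hF2 hF3 hF4 hF5 using hlift
  have hδ2 : δ ^ 2 < L.r ^ 2 := by nlinarith
  have hpull : ∀ cc : Fin (k + 1) → ℝ, dc.pull L.r (fun U => ∑ i, cc i * F i U) =
      L.trial g δ (fun C => ∑ i, cc i * ψ i C) := by
    intro cc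
    funext x
    rw [trial_comb]
    unfold Dec.pull
    split_ifs with hx
    · exact Finset.sum_congr rfl fun i _ => by rw [hF4 i x hx]
    · symm
      apply Finset.sum_eq_zero
      intro i _
      have h8 : L.trial g δ (ψ i) x = 0 := by
        by_contra hne
        apply hx
        have := (hUPB (ψ i) (hψ1 i).sm (hRs i)).2.1 x hne
        linarith
      rw [h8, mul_zero]
  have hfi : ∀ i j, Integrable fun x => ψ i x * ψ j x :=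
    fam_int (fun i => (hψ1 i).sm.continuous) (fun i => (hψ1 i).supp)
  obtain ⟨E', hE'⟩ : ∃ E', E' = L.e0 + q * c * (lam + ε1) + K * g * A := ⟨_, rfl⟩
  have hE'0 : 0 ≤ E' := by rw [hE']; positivity
  have hP : ∀ cc : Fin (k + 1) → ℝ, (1 - K * g) * ∑ i, cc i ^ 2 ≤
      ∫ U, (∑ i, cc i * F i U) ^ 2 ∂(Measure.pi fun _ : Link D l => μ) ∧
      energy B μ g (fun U => ∑ i, cc i * F i U) ≤ E' * ∑ i, cc i ^ 2 := by
    intro cc
    have hCI := ci_comb hψ1 cc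
    have hsup : ∀ C, (∑ i, cc i * ψ i C) ≠ 0 → n2 C ≤ R ^ 2 := by
      intro C hC
      obtain ⟨i, _, hi⟩ := Finset.exists_ne_zero_of_sum_ne_zero hC
      exact hRs i C (right_ne_zero_of_mul hi)
    obtain ⟨_, _, u3, _, u5⟩ := hUPB (fun C => ∑ i, cc i * ψ i C) hCI.sm hsup
    have horb : ∀ U, (∑ i, cc i * F i U) ≠ 0 → Orb dc δ U := by
      intro U hU
      obtain ⟨i, _, hi⟩ := Finset.exists_ne_zero_of_sum_ne_zero hU
      exact hF5 i U (right_ne_zero_of_mul hi)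
    obtain ⟨_, _, _, p4, p5⟩ := h3 N n D l G hG B μ dc L hL δ hδ0 hδr
      (fun U => ∑ i, cc i * F i U) (sm_comb hF1 cc) (gi_comb hF2 cc) (ce_comb hF3 cc) horb
    obtain ⟨_, p6⟩ := p5 g hg
    rw [hpull cc] at p4 p6
    have hnorm : ∫ C, (∑ i, cc i * ψ i C) ^ 2 = ∑ i, cc i ^ 2 := norm_comb _ hfi hψ2 cc
    have hcc : 0 ≤ ∑ i, cc i ^ 2 := Finset.sum_nonneg fun i _ => sq_nonneg _
    have hqf : qf L.v (fun C => ∑ i, cc i * ψ i C) ≤ (lam + ε1) * ∑ i, cc i ^ 2 := by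
      rw [hv]
      exact (hψ3 cc).trans (mul_le_mul_of_nonneg_right hElt.le hcc)
    have hC1 := ci_c1 hCI
    have hg2i := int_g2 hC1 hCI.supp
    have hg2 : ∫ C, g2 (fun C => ∑ i, cc i * ψ i C) C ≤ 2 * ((lam + ε1) * ∑ i, cc i ^ 2) := by
      have k2 := qf_eq hC1 hCI.supp L.cont
      have k3 : 0 ≤ ∫ C, L.v C * (∑ i, cc i * ψ i C) ^ 2 :=
        integral_nonneg fun C => mul_nonneg (L.nonneg C) (sq_nonneg _)
      linarith
    refine ⟨?_, ?_⟩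
    · rw [p4]
      rw [hnorm] at u3
      exact u3
    · refine (p6.trans u5).trans ?_
      rw [hnorm, integral_add (int_sq hC1.continuous hCI.supp) hg2i, hnorm, hEg, hE', hA]
      have k4 : q * c * qf L.v (fun C => ∑ i, cc i * ψ i C) ≤
          q * c * ((lam + ε1) * ∑ i, cc i ^ 2) := mul_le_mul_of_nonneg_left hqf (by positivity)
      have k5 : K * g * ∫ C, g2 (fun C => ∑ i, cc i * ψ i C) C ≤
          K * g * (2 * ((lam + ε1) * ∑ i, cc i ^ 2)) := mul_le_mul_of_nonneg_left hg2 (by positivity)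
      linarith
  -- orthonormal family
  have hFi : ∀ i j, Integrable (fun U => F i U * F j U) (Measure.pi fun _ : Link D l => μ) :=
    fun i j => grp_int hG μ ((sm_cont (hF1 i)).mul (sm_cont (hF1 j)))
  obtain ⟨Bm, hBm⟩ : ∃ Bm : Matrix (Fin (k + 1)) (Fin (k + 1)) ℝ,
    Bm = Matrix.of fun i j => ∫ U, F i U * F j U ∂(Measure.pi fun _ : Link D l => μ) := ⟨_, rfl⟩
  obtain ⟨qm, hqm⟩ : ∃ qm : Matrix (Fin (k + 1)) (Fin (k + 1)) ℝ,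
    qm = Matrix.of fun i j => ebil B μ g (F i) (F j) := ⟨_, rfl⟩
  have hBs : Bm.IsSymm := by
    rw [hBm]
    ext i j
    simp only [Matrix.transpose_apply, Matrix.of_apply]
    congr 1
    funext x
    ring
  have hβ : 0 < 1 - K * g := by linarith
  obtain ⟨S, hS1, hS2⟩ := h6 (k + 1) Bm qm (1 - K * g) E' hβ hE'0 hBs
    (fun cc => by
      rw [hBm, ← int_sq_comb _ hFi cc]
      exact (hP cc).1)
    (fun cc => by
      rw [hqm, ← quad_energy hG B μ g hF1 cc]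
      exact (hP cc).2)
  rw [hBm] at hS1
  have hmem : E' / (1 - K * g) ∈ {E : ℝ | ∃ Ψ : Fin (k + 1) → (Link D l → G) → ℝ,
    (∀ i, IsSmooth (Ψ i) ∧ GaugeInv (Ψ i) ∧ CentreInv (Ψ i)) ∧
    (∀ i j, ∫ U, Ψ i U * Ψ j U ∂(Measure.pi fun _ : Link D l => μ) = if i = j then 1 else 0) ∧
    ∀ c : Fin (k + 1) → ℝ, energy B μ g (fun U => ∑ i, c i * Ψ i U) ≤ E * ∑ i, c i ^ 2} := by
    refine ⟨fun i U => ∑ j, S j i * F j U, fun i => ⟨sm_comb hF1 _, gi_comb hF2 _,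
      ce_comb hF3 _⟩, fun i j => gram_change _ hFi S hS1 i j, fun cc => ?_⟩
    have k1 : ∀ U, ∑ i, cc i * (∑ j, S j i * F j U) = ∑ j, (S.mulVec cc) j * F j U :=
      fun U => comb_mul S cc fun j => F j U
    simp only [k1]
    rw [quad_energy hG B μ g hF1, ← hqm]
    exact hS2 cc
  -- conclusion
  have hfin : E' / (1 - K * g) ≤ L.e0 + q * c * (lam + ε) := by
    rw [hE', hε1]
    exact uppEnd hK hg hε hlam0 hq0 hq1 hc0 hc1 hKg hsm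
  refine le_trans ?_ hfin
  unfold level
  by_cases hbb : BddBelow {E : ℝ | ∃ Ψ : Fin (k + 1) → (Link D l → G) → ℝ,
    (∀ i, IsSmooth (Ψ i) ∧ GaugeInv (Ψ i) ∧ CentreInv (Ψ i)) ∧
    (∀ i j, ∫ U, Ψ i U * Ψ j U ∂(Measure.pi fun _ : Link D l => μ) = if i = j then 1 else 0) ∧
    ∀ c : Fin (k + 1) → ℝ, energy B μ g (fun U => ∑ i, c i * Ψ i U) ≤ E * ∑ i, c i ^ 2}
  · exact csInf_le hbb hmem
  · rw [Real.sInf_of_not_bddBelow hbb]
    positivity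

end Pool.Agent.Q150.LU
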